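import Pool.Agent.Helper73.HB.Sylv

/-! # Matrix inequalities for the nuclear norm (HB-3)

Throughout `S` is positive definite (in particular symmetric) and `S² = B Bᵀ + ε`.
PROOF of `alg_main`. Let `B' = [B, √ε 1]` (an `N × (n+N)` matrix) and `C' = [C, 0]`, so that
`S² = B' B'ᵀ` and `C Bᵀ + B Cᵀ = C' B'ᵀ + B' C'ᵀ`. Put `V = S⁻¹ B'`; then `V Vᵀ = 1`, so `Vᵀ V` is
an orthogonal projection and `Vᵀ V ≤ 1`. Put `D = C' Vᵀ`, `K = D - X`. Then `D S = C' B'ᵀ`, so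
`X S + S X = D S + S Dᵀ`, i.e. `K S = - S Kᵀ`, equivalently `S⁻¹ K = - Kᵀ S⁻¹`. Hence
`tr(S⁻¹ K X) = - tr(Kᵀ S⁻¹ X) = - tr(X S⁻¹ K) = - tr(S⁻¹ K X) = 0` (the second step is transposition,
`X` and `S⁻¹` being symmetric), and likewise `tr(S⁻¹ X Kᵀ) = tr(K X S⁻¹) = 0`. So
`tr(S⁻¹ D Dᵀ) = tr(S⁻¹ X²) + tr(S⁻¹ K Kᵀ) ≥ tr(S⁻¹ X²)`, while
`tr(S⁻¹ D Dᵀ) = tr(S⁻¹ C' (Vᵀ V) C'ᵀ) ≤ tr(S⁻¹ C' C'ᵀ) = tr(S⁻¹ C Cᵀ)`.
(It can be done without the block matrices: `D = C Bᵀ S⁻¹`, and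
`tr(S⁻¹ C Bᵀ S⁻² B Cᵀ) ≤ tr(S⁻¹ C Cᵀ)` because `Bᵀ S⁻² B ≤ 1`; indeed `S² ≥ B Bᵀ` gives
`Bᵀ S⁻² B ≤ 1`: with `M = Bᵀ S⁻² B` symmetric positive semidefinite, `M² = Bᵀ S⁻² B Bᵀ S⁻² B ≤
Bᵀ S⁻² S² S⁻² B = M`, so the eigenvalues of `M` are in `[0,1]`; or: for every `v`, with
`w = S⁻² B v`, `⟨M v, v⟩ = ⟨w, B v⟩ = ⟨Bᵀ w, v⟩ ≤ |Bᵀ w| |v| ≤ |S w| |v| = ⟨M v, v⟩^(1/2) |v|`.)
PROOF of `alg_flux`. `tr(S⁻¹ C Bᵀ) = tr(C Bᵀ S⁻¹) = tr D` with `D = C Bᵀ S⁻¹`;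
`(tr D)² ≤ N tr(D Dᵀ)` (Cauchy-Schwarz) and `tr(D Dᵀ) = tr(C (Bᵀ S⁻² B) Cᵀ) ≤ tr(C Cᵀ)`.
PROOF of `alg_trace`. Apply `alg_flux` with `C = B`: `tr(S⁻¹ B Bᵀ)² ≤ N tr(B Bᵀ) ≤ N²`.
PROOF of `alg_deriv`. Compute `(X S + S X)` under the trace: if `DW = - S⁻¹ X S⁻¹` (the derivative
of `S⁻¹`), then `tr(DW V) = ½ tr(DW (V + Vᵀ)) = - ½ tr(S⁻¹ X S⁻¹ (X S + S X)) = - tr(S⁻¹ X²)`. -/

namespace Pool.Agent.Helper73.HB

open Matrix

variable {N n : ℕ}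

private theorem tr_nonneg_aux {k : ℕ} {W : Matrix (Fin N) (Fin N) ℝ} (hW : W.PosSemidef)
    (Q : Matrix (Fin N) (Fin k) ℝ) : 0 ≤ (W * (Q * Qᵀ)).trace := by
  have h := hW.conjTranspose_mul_mul_same Q
  have h1 := h.trace_nonneg
  have h2 : (W * (Q * Qᵀ)).trace = (Qᴴ * W * Q).trace := by
    rw [conjTranspose_eq_transpose_of_trivial, ← Matrix.mul_assoc, Matrix.trace_mul_comm,
      ← Matrix.mul_assoc]
  rw [h2]
  exact h1

/-- the inverse of `S` is symmetric and inverts `S` -/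
private theorem inv_aux {S : Matrix (Fin N) (Fin N) ℝ} (hS : S.PosDef) :
    S⁻¹ * S = 1 ∧ S * S⁻¹ = 1 ∧ (S⁻¹)ᵀ = S⁻¹ ∧ Sᵀ = S ∧ (S⁻¹).PosSemidef := by
  have hu : IsUnit S := hS.isUnit
  have hd : IsUnit S.det := (Matrix.isUnit_iff_isUnit_det S).1 hu
  have hT : Sᵀ = S := by
    have := hS.1
    rwa [Matrix.IsHermitian, conjTranspose_eq_transpose_of_trivial] at this
  refine ⟨Matrix.nonsing_inv_mul S hd, Matrix.mul_nonsing_inv S hd, ?_, hT, hS.inv.posSemidef⟩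
  rw [Matrix.transpose_nonsing_inv, hT]

/-- the complement of `Bᵀ S⁻² B` is a sum of squares -/
private theorem comp_aux {S : Matrix (Fin N) (Fin N) ℝ} {B : Matrix (Fin N) (Fin n) ℝ} {ε : ℝ}
    (hS : S.PosDef) (hSS : S * S = B * Bᵀ + ε • (1 : Matrix (Fin N) (Fin N) ℝ)) :
    ∃ (P : Matrix (Fin n) (Fin n) ℝ) (R : Matrix (Fin N) (Fin n) ℝ),
      Bᵀ * S⁻¹ * (S⁻¹ * B) = 1 - (Pᵀ * P + ε • (Rᵀ * R)) := by
  obtain ⟨h1, h2, h3, h4, -⟩ := inv_aux hS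
  set W := S⁻¹ with hW
  refine ⟨1 - Bᵀ * W * (W * B), W * (W * B), ?_⟩
  have hBB : B * Bᵀ = S * S - ε • (1 : Matrix (Fin N) (Fin N) ℝ) := by rw [hSS]; abel
  have hWSSW : W * (S * S) * W = 1 := by
    rw [← Matrix.mul_assoc, h1, Matrix.one_mul, h2]
  have hM2 : (Bᵀ * W * (W * B)) * (Bᵀ * W * (W * B)) =
      Bᵀ * W * (W * B) - ε • ((W * (W * B))ᵀ * (W * (W * B))) := by
    have e1 : (Bᵀ * W * (W * B)) * (Bᵀ * W * (W * B)) = Bᵀ * W * (W * (B * Bᵀ) * W) * (W * B) := by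
      simp only [Matrix.mul_assoc]
    have e2 : W * (B * Bᵀ) * W = 1 - ε • (W * W) := by
      rw [hBB, Matrix.mul_sub, Matrix.sub_mul, hWSSW, Matrix.mul_smul, Matrix.smul_mul,
        Matrix.mul_one]
    rw [e1, e2, Matrix.mul_sub, Matrix.sub_mul, Matrix.mul_one, Matrix.mul_smul, Matrix.smul_mul]
    congr 2
    rw [Matrix.transpose_mul, Matrix.transpose_mul, h3]
    simp only [Matrix.mul_assoc]
  have hMT : (Bᵀ * W * (W * B))ᵀ = Bᵀ * W * (W * B) := by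
    rw [Matrix.transpose_mul, Matrix.transpose_mul, Matrix.transpose_mul, h3,
      Matrix.transpose_transpose]
  rw [Matrix.transpose_sub, Matrix.transpose_one, hMT, Matrix.sub_mul, Matrix.mul_sub,
    Matrix.mul_sub, hM2]
  simp only [Matrix.one_mul, Matrix.mul_one]
  abel

private theorem contr_aux {k : ℕ} {S : Matrix (Fin N) (Fin N) ℝ} {B : Matrix (Fin N) (Fin n) ℝ}
    {ε : ℝ} (hε : 0 ≤ ε) (hS : S.PosDef)
    (hSS : S * S = B * Bᵀ + ε • (1 : Matrix (Fin N) (Fin N) ℝ))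
    {W : Matrix (Fin k) (Fin k) ℝ} (hW : W.PosSemidef) (C : Matrix (Fin k) (Fin n) ℝ) :
    (W * (C * (Bᵀ * S⁻¹ * (S⁻¹ * B)) * Cᵀ)).trace ≤ (W * (C * Cᵀ)).trace := by
  obtain ⟨P, R, h⟩ := comp_aux hS hSS
  rw [h]
  have e1 : W * (C * (1 - (Pᵀ * P + ε • (Rᵀ * R))) * Cᵀ) =
      W * (C * Cᵀ) - (W * ((C * Pᵀ) * (C * Pᵀ)ᵀ) + ε • (W * ((C * Rᵀ) * (C * Rᵀ)ᵀ))) := by
    rw [Matrix.mul_sub, Matrix.mul_one, Matrix.sub_mul, Matrix.mul_sub, Matrix.mul_add,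
      Matrix.add_mul, Matrix.mul_add]
    congr 2
    · rw [Matrix.transpose_mul, Matrix.transpose_transpose]
      simp only [Matrix.mul_assoc]
    · rw [Matrix.mul_smul, Matrix.smul_mul, Matrix.mul_smul, Matrix.transpose_mul,
        Matrix.transpose_transpose]
      simp only [Matrix.mul_assoc]
  rw [e1, Matrix.trace_sub, Matrix.trace_add, Matrix.trace_smul]
  have h1 := tr_nonneg_aux hW (C * Pᵀ)
  have h2 := tr_nonneg_aux hW (C * Rᵀ)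
  have h3 : 0 ≤ ε • (W * ((C * Rᵀ) * (C * Rᵀ)ᵀ)).trace := mul_nonneg hε h2
  linarith

theorem alg_main {S X : Matrix (Fin N) (Fin N) ℝ} {B C : Matrix (Fin N) (Fin n) ℝ} {ε : ℝ}
    (hε : 0 ≤ ε) (hS : S.PosDef) (hSS : S * S = B * Bᵀ + ε • (1 : Matrix (Fin N) (Fin N) ℝ))
    (hX : Xᵀ = X) (h : X * S + S * X = C * Bᵀ + B * Cᵀ) :
    (S⁻¹ * (X * X)).trace ≤ (S⁻¹ * (C * Cᵀ)).trace := by
  obtain ⟨h1, h2, h3, h4, h5⟩ := inv_aux hS
  have hc := contr_aux hε hS hSS h5 C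
  set W := S⁻¹ with hW
  set K : Matrix (Fin N) (Fin N) ℝ := C * Bᵀ * W - X with hK
  have hKT : Kᵀ = W * B * Cᵀ - X := by
    rw [hK, Matrix.transpose_sub, Matrix.transpose_mul, Matrix.transpose_mul, h3, hX,
      Matrix.transpose_transpose]
    simp only [Matrix.mul_assoc]
  have hKS : K * S + S * Kᵀ = 0 := by
    rw [hKT, hK, Matrix.sub_mul, Matrix.mul_sub, Matrix.mul_assoc (C * Bᵀ), h1, Matrix.mul_one,
      ← Matrix.mul_assoc, ← Matrix.mul_assoc, h2, Matrix.one_mul]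
    have : C * Bᵀ - X * S + (B * Cᵀ - S * X) = (C * Bᵀ + B * Cᵀ) - (X * S + S * X) := by abel
    rw [this, h, sub_self]
  have hWK : W * K = -(Kᵀ * W) := by
    have e : W * (K * S + S * Kᵀ) * W = W * K + Kᵀ * W := by
      rw [Matrix.mul_add, Matrix.add_mul, ← Matrix.mul_assoc, Matrix.mul_assoc (W * K), h2,
        Matrix.mul_one, ← Matrix.mul_assoc, h1, Matrix.one_mul]
    rw [hKS] at e
    simp only [Matrix.mul_zero, Matrix.zero_mul] at e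
    exact eq_neg_of_add_eq_zero_left e.symm
  have ht : (W * (K * X)).trace = 0 := by
    have e1 : (W * (K * X)).trace = -(Kᵀ * W * X).trace := by
      rw [← Matrix.mul_assoc, hWK, Matrix.neg_mul, Matrix.trace_neg]
    have e2 : (Kᵀ * W * X).trace = (W * (K * X)).trace := by
      rw [← Matrix.trace_transpose, Matrix.transpose_mul, Matrix.transpose_mul,
        Matrix.transpose_transpose, h3, hX, Matrix.trace_mul_comm, Matrix.mul_assoc]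
    linarith
  have ht2 : (W * (X * Kᵀ)).trace = 0 := by
    rw [← Matrix.trace_transpose, Matrix.transpose_mul, Matrix.transpose_mul,
      Matrix.transpose_transpose, h3, hX, Matrix.trace_mul_comm]
    exact ht
  have hdd : C * (Bᵀ * W * (W * B)) * Cᵀ = (K + X) * (Kᵀ + X) := by
    rw [hKT, hK, sub_add_cancel, sub_add_cancel]
    simp only [Matrix.mul_assoc]
  have hsum : (W * (C * (Bᵀ * W * (W * B)) * Cᵀ)).trace =
      (W * (K * Kᵀ)).trace + (W * (X * X)).trace := by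
    rw [hdd, Matrix.add_mul, Matrix.mul_add, Matrix.mul_add, Matrix.mul_add, Matrix.mul_add,
      Matrix.mul_add, Matrix.trace_add, Matrix.trace_add, Matrix.trace_add, ht, ht2]
    ring
  have hp := tr_nonneg_aux h5 K
  linarith

theorem alg_deriv {S X V : Matrix (Fin N) (Fin N) ℝ} (hS : S.PosDef) (hX : Xᵀ = X)
    (h : X * S + S * X = V + Vᵀ) :
    (-(S⁻¹ * X * S⁻¹) * V).trace = - (S⁻¹ * (X * X)).trace := by
  obtain ⟨h1, h2, h3, h4, h5⟩ := inv_aux hS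
  set W := S⁻¹ with hW
  have e1 : (W * X * W * Vᵀ).trace = (W * X * W * V).trace := by
    rw [← Matrix.trace_transpose, Matrix.transpose_mul, Matrix.transpose_mul,
      Matrix.transpose_mul, Matrix.transpose_transpose, h3, hX, Matrix.trace_mul_comm]
    simp only [Matrix.mul_assoc]
  have e2 : (W * X * W * (V + Vᵀ)).trace = 2 * (W * X * W * V).trace := by
    rw [Matrix.mul_add, Matrix.trace_add, e1]; ring
  have e3 : (W * X * W * (X * S + S * X)).trace = 2 * (W * (X * X)).trace := by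
    have f1 : (W * X * W * (X * S)).trace = (W * (X * X)).trace := by
      rw [← Matrix.mul_assoc, Matrix.trace_mul_comm]
      have : S * (W * X * W * X) = (S * W) * (X * W * X) := by simp only [Matrix.mul_assoc]
      rw [this, h2, Matrix.one_mul, Matrix.trace_mul_comm, ← Matrix.mul_assoc,
        Matrix.trace_mul_comm]
    have f2 : W * X * W * (S * X) = W * (X * X) := by
      have : W * X * W * (S * X) = W * X * (W * S) * X := by simp only [Matrix.mul_assoc]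
      rw [this, h1, Matrix.mul_one, Matrix.mul_assoc]
    rw [Matrix.mul_add, Matrix.trace_add, f1, f2]; ring
  rw [← h, e3] at e2
  rw [Matrix.neg_mul, Matrix.trace_neg]
  linarith

theorem alg_flux {S : Matrix (Fin N) (Fin N) ℝ} {B C : Matrix (Fin N) (Fin n) ℝ} {ε : ℝ}
    (hε : 0 ≤ ε) (hS : S.PosDef) (hSS : S * S = B * Bᵀ + ε • (1 : Matrix (Fin N) (Fin N) ℝ)) :
    (S⁻¹ * (C * Bᵀ)).trace ^ 2 ≤ N * (C * Cᵀ).trace := by
  obtain ⟨h1, h2, h3, h4, h5⟩ := inv_aux hS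
  have hc := contr_aux hε hS hSS (W := (1 : Matrix (Fin N) (Fin N) ℝ)) Matrix.PosSemidef.one C
  set W := S⁻¹ with hW
  rw [Matrix.one_mul, Matrix.one_mul] at hc
  set D : Matrix (Fin N) (Fin N) ℝ := C * Bᵀ * W with hD
  have e1 : (W * (C * Bᵀ)).trace = D.trace := Matrix.trace_mul_comm _ _
  have e2 : C * (Bᵀ * W * (W * B)) * Cᵀ = D * Dᵀ := by
    rw [hD, Matrix.transpose_mul, Matrix.transpose_mul, Matrix.transpose_transpose, h3]
    simp only [Matrix.mul_assoc]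
  rw [e2] at hc
  rw [e1]
  have e3 : D.trace ^ 2 ≤ N * ∑ i, (D i i) ^ 2 := by
    have := sq_sum_le_card_mul_sum_sq (s := (Finset.univ : Finset (Fin N))) (f := fun i => D i i)
    simpa [Matrix.trace] using this
  have e4 : ∑ i, (D i i) ^ 2 ≤ (D * Dᵀ).trace := by
    rw [Matrix.trace]
    refine Finset.sum_le_sum fun i _ => ?_
    rw [Matrix.diag_apply, Matrix.mul_apply]
    have : (D i i) ^ 2 = D i i * Dᵀ i i := by rw [Matrix.transpose_apply]; ring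
    rw [this]
    refine Finset.single_le_sum (f := fun j => D i j * Dᵀ j i) (fun j _ => ?_) (Finset.mem_univ i)
    rw [Matrix.transpose_apply]
    exact mul_self_nonneg _
  have hN : (0 : ℝ) ≤ N := Nat.cast_nonneg N
  calc D.trace ^ 2 ≤ N * ∑ i, (D i i) ^ 2 := e3
    _ ≤ N * (C * Cᵀ).trace := mul_le_mul_of_nonneg_left (e4.trans hc) hN

theorem alg_trace {S : Matrix (Fin N) (Fin N) ℝ} {B : Matrix (Fin N) (Fin n) ℝ} {ε : ℝ}
    (hε : 0 ≤ ε) (hS : S.PosDef) (hSS : S * S = B * Bᵀ + ε • (1 : Matrix (Fin N) (Fin N) ℝ))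
    (hB : ∀ a, (B * Bᵀ) a a ≤ 1) :
    (S⁻¹ * (B * Bᵀ)).trace ≤ N := by
  have h := alg_flux (C := B) hε hS hSS
  have h1 : (B * Bᵀ).trace ≤ N := by
    rw [Matrix.trace]
    calc ∑ i, (B * Bᵀ).diag i ≤ ∑ _i : Fin N, (1 : ℝ) := Finset.sum_le_sum fun i _ => hB i
      _ = N := by simp
  have hN : (0 : ℝ) ≤ N := Nat.cast_nonneg N
  have h2 : (S⁻¹ * (B * Bᵀ)).trace ^ 2 ≤ (N : ℝ) ^ 2 := by
    refine h.trans ?_
    rw [sq]
    exact mul_le_mul_of_nonneg_left h1 hN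
  exact (abs_le_of_sq_le_sq' h2 hN).2

end Pool.Agent.Helper73.HB
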