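import Pool.Agent.Helper73.HB.Sylv

/-! # Lower bound for `Bᵀ S⁻¹ B` (HB-4)

`S` is positive definite, `S² = B Bᵀ + ε`, `ε > 0`, and `|B v|² ≥ σ² |v|²` for all `v`.
PROOF. Let `A = Bᵀ B` (`n × n`) and let `T` be the positive definite square root of `A + ε`
(`exists_sqrt`). Then `S² B = (B Bᵀ + ε) B = B (A + ε) = B T²`, so `S B = B T` by
`sqrt_intertwine`, hence `B T⁻¹ = S⁻¹ B` and `Bᵀ S⁻¹ B = A T⁻¹ = (T² - ε) T⁻¹ = T - ε T⁻¹`.
The eigenvalues `t` of `T` are positive and `t² ≥ m² := σ² + ε` since `T² = A + ε ≥ σ² + ε`, so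
`t ≥ m` and `t - ε/t ≥ m - ε/m = σ²/m`. Hence `Bᵀ S⁻¹ B - (σ²/m) 1` is positive semidefinite; the
trace of its product with the positive semidefinite matrix `K` is nonnegative, and
`tr(S⁻¹ B K Bᵀ) = tr(Bᵀ S⁻¹ B K)`. -/

namespace Pool.Agent.Helper73.HB

open Matrix

variable {N n : ℕ}

open scoped MatrixOrder in
private theorem low_trace {G K : Matrix (Fin n) (Fin n) ℝ} (hG : G.PosSemidef)
    (hK : K.PosSemidef) : 0 ≤ (G * K).trace := by
  obtain ⟨C, rfl⟩ := CStarAlgebra.nonneg_iff_eq_star_mul_self.mp hK.nonneg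
  have h := (hG.mul_mul_conjTranspose_same C).trace_nonneg
  rw [Matrix.mul_assoc, Matrix.trace_mul_comm, Matrix.mul_assoc] at h
  rw [star_eq_conjTranspose]
  exact h

private theorem low_cancel {G P : Matrix (Fin n) (Fin n) ℝ} (hP : P.PosDef)
    (hc : P * G = G * P) (hM : (G * P).PosSemidef) : G.PosSemidef := by
  obtain ⟨Q, hQ, hQQ⟩ := exists_sqrt hP
  have h1 : Q * G = G * Q := sqrt_intertwine hQ hQ (by rw [hQQ, hc])
  have hQu : IsUnit Q.det := hQ.det_pos.ne'.isUnit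
  have h2 : G * P = Q * G * Q := by rw [← hQQ, ← Matrix.mul_assoc, ← h1]
  have hQh : (Q⁻¹)ᴴ = Q⁻¹ := by rw [Matrix.conjTranspose_nonsing_inv, hQ.isHermitian.eq]
  have h3 : G = Q⁻¹ * (G * P) * (Q⁻¹)ᴴ := by
    rw [hQh, h2]
    calc G = (Q⁻¹ * Q) * G * (Q * Q⁻¹) := by
          rw [Matrix.nonsing_inv_mul _ hQu, Matrix.mul_nonsing_inv _ hQu, Matrix.one_mul,
            Matrix.mul_one]
      _ = Q⁻¹ * (Q * G * Q) * Q⁻¹ := by simp only [Matrix.mul_assoc]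
  rw [h3]
  exact hM.mul_mul_conjTranspose_same Q⁻¹

theorem alg_low {S : Matrix (Fin N) (Fin N) ℝ} {B : Matrix (Fin N) (Fin n) ℝ}
    {K : Matrix (Fin n) (Fin n) ℝ} {ε σ : ℝ} (hε : 0 < ε) (hσ : 0 ≤ σ) (hS : S.PosDef)
    (hSS : S * S = B * Bᵀ + ε • (1 : Matrix (Fin N) (Fin N) ℝ)) (hK : K.PosSemidef)
    (hB : ∀ v : Fin n → ℝ, σ ^ 2 * (v ⬝ᵥ v) ≤ (B *ᵥ v) ⬝ᵥ (B *ᵥ v)) :
    σ ^ 2 / Real.sqrt (σ ^ 2 + ε) * K.trace ≤ (S⁻¹ * (B * K * Bᵀ)).trace := by
  have hA : (Bᵀ * B).PosSemidef := by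
    have := posSemidef_conjTranspose_mul_self B
    rwa [conjTranspose_eq_transpose_of_trivial] at this
  have h1p : ∀ c : ℝ, 0 < c → (c • (1 : Matrix (Fin n) (Fin n) ℝ)).PosDef := fun c hc =>
    Matrix.PosDef.one.smul hc
  obtain ⟨T, hT, hTT⟩ := exists_sqrt (Matrix.PosDef.posSemidef_add hA (h1p ε hε))
  set m : ℝ := Real.sqrt (σ ^ 2 + ε) with hm
  have hm0 : 0 < m := Real.sqrt_pos.2 (by positivity)
  have hm2 : m * m = σ ^ 2 + ε := Real.mul_self_sqrt (by positivity)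
  have hTu : IsUnit T.det := hT.det_pos.ne'.isUnit
  have hSu : IsUnit S.det := hS.det_pos.ne'.isUnit
  have hint : S * B = B * T := by
    refine sqrt_intertwine hS hT ?_
    rw [hSS, hTT, Matrix.add_mul, Matrix.mul_add, Matrix.mul_assoc, Matrix.smul_mul,
      Matrix.mul_smul, Matrix.one_mul, Matrix.mul_one]
  have hinv : S⁻¹ * B = B * T⁻¹ := by
    calc S⁻¹ * B = S⁻¹ * B * (T * T⁻¹) := by rw [Matrix.mul_nonsing_inv _ hTu, Matrix.mul_one]
      _ = S⁻¹ * (B * T) * T⁻¹ := by simp only [Matrix.mul_assoc]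
      _ = S⁻¹ * (S * B) * T⁻¹ := by rw [hint]
      _ = (S⁻¹ * S) * B * T⁻¹ := by simp only [Matrix.mul_assoc]
      _ = B * T⁻¹ := by rw [Matrix.nonsing_inv_mul _ hSu, Matrix.one_mul]
  -- `T - m` is positive semidefinite
  have hAσ : (Bᵀ * B - σ ^ 2 • (1 : Matrix (Fin n) (Fin n) ℝ)).PosSemidef := by
    refine Matrix.PosSemidef.of_dotProduct_mulVec_nonneg ?_ ?_
    · refine hA.isHermitian.sub ?_
      exact (Matrix.isHermitian_one).smul (IsSelfAdjoint.all _)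
    · intro x
      have h := hB x
      have h2 : (Bᵀ *ᵥ (B *ᵥ x)) = (B *ᵥ x) ᵥ* B := Matrix.mulVec_transpose _ _
      rw [Matrix.sub_mulVec, dotProduct_sub, ← Matrix.mulVec_mulVec, Matrix.smul_mulVec,
        Matrix.one_mulVec, dotProduct_smul, smul_eq_mul, star_trivial]
      have h3 : x ⬝ᵥ Bᵀ *ᵥ B *ᵥ x = (B *ᵥ x) ⬝ᵥ (B *ᵥ x) := by
        rw [Matrix.dotProduct_mulVec, Matrix.vecMul_transpose]
      rw [h3]
      linarith
  have hG1 : (T - m • (1 : Matrix (Fin n) (Fin n) ℝ)).PosSemidef := by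
    refine low_cancel (P := T + m • (1 : Matrix (Fin n) (Fin n) ℝ)) (hT.add (h1p m hm0)) ?_ ?_
    · simp only [Matrix.add_mul, Matrix.mul_sub, Matrix.sub_mul, Matrix.mul_add, Matrix.smul_mul,
        Matrix.mul_smul, Matrix.one_mul, Matrix.mul_one, smul_add, smul_sub, smul_smul]
      abel
    · have e : (T - m • (1 : Matrix (Fin n) (Fin n) ℝ)) * (T + m • (1 : Matrix (Fin n) (Fin n) ℝ)) =
          Bᵀ * B - σ ^ 2 • (1 : Matrix (Fin n) (Fin n) ℝ) := by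
        have e1 : (T - m • (1 : Matrix (Fin n) (Fin n) ℝ)) *
            (T + m • (1 : Matrix (Fin n) (Fin n) ℝ)) =
            T * T - (m * m) • (1 : Matrix (Fin n) (Fin n) ℝ) := by
          simp only [Matrix.mul_add, Matrix.sub_mul, Matrix.smul_mul,
            Matrix.mul_smul, Matrix.one_mul, Matrix.mul_one, smul_sub, smul_smul]
          abel
        rw [e1, hTT, hm2, add_smul]
        abel
      rw [e]
      exact hAσ
  have hG2 : (1 - m • T⁻¹).PosSemidef := by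
    have e1 : T * (1 - m • T⁻¹) = T - m • (1 : Matrix (Fin n) (Fin n) ℝ) := by
      rw [Matrix.mul_sub, Matrix.mul_one, Matrix.mul_smul, Matrix.mul_nonsing_inv _ hTu]
    have e2 : (1 - m • T⁻¹) * T = T - m • (1 : Matrix (Fin n) (Fin n) ℝ) := by
      rw [Matrix.sub_mul, Matrix.one_mul, Matrix.smul_mul, Matrix.nonsing_inv_mul _ hTu]
    refine low_cancel hT (by rw [e1, e2]) ?_
    rw [e2]
    exact hG1
  have htr : (S⁻¹ * (B * K * Bᵀ)).trace = ((T - ε • T⁻¹) * K).trace := by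
    have e1 : Bᵀ * B = T * T - ε • (1 : Matrix (Fin n) (Fin n) ℝ) := by rw [hTT]; abel
    have e2 : Bᵀ * (B * T⁻¹) = T - ε • T⁻¹ := by
      rw [← Matrix.mul_assoc, e1, Matrix.sub_mul, Matrix.mul_assoc,
        Matrix.mul_nonsing_inv _ hTu, Matrix.mul_one, Matrix.smul_mul, Matrix.one_mul]
    have e3 : S⁻¹ * (B * K * Bᵀ) = S⁻¹ * B * K * Bᵀ := by simp only [Matrix.mul_assoc]
    rw [e3, Matrix.trace_mul_comm, hinv, ← Matrix.mul_assoc, e2]
  have hdec : (T - ε • T⁻¹) * K = (σ ^ 2 / m) • K + (T - m • (1 : Matrix (Fin n) (Fin n) ℝ)) * K +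
      (ε / m) • ((1 - m • T⁻¹) * K) := by
    have e1 : T - ε • T⁻¹ = (σ ^ 2 / m) • (1 : Matrix (Fin n) (Fin n) ℝ) +
        (T - m • (1 : Matrix (Fin n) (Fin n) ℝ)) + (ε / m) • (1 - m • T⁻¹) := by
      have e2 : (σ ^ 2 / m) - m + ε / m = 0 := by
        field_simp
        nlinarith [hm2]
      have e3 : (ε / m) * m = ε := by field_simp
      have e4 : (σ ^ 2 / m) • (1 : Matrix (Fin n) (Fin n) ℝ) +
          (T - m • (1 : Matrix (Fin n) (Fin n) ℝ)) + (ε / m) • (1 - m • T⁻¹) =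
          ((σ ^ 2 / m) - m + ε / m) • (1 : Matrix (Fin n) (Fin n) ℝ) + T -
            ((ε / m) * m) • T⁻¹ := by
        rw [smul_sub, add_smul, sub_smul, smul_smul]
        abel
      rw [e4, e2, e3, zero_smul, zero_add]
    rw [e1, Matrix.add_mul, Matrix.add_mul, Matrix.smul_mul, Matrix.smul_mul, Matrix.one_mul]
  have t1 := low_trace hG1 hK
  have t2 := low_trace hG2 hK
  rw [htr, hdec, Matrix.trace_add, Matrix.trace_add, Matrix.trace_smul, Matrix.trace_smul,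
    smul_eq_mul, smul_eq_mul]
  have t3 : 0 ≤ ε / m * ((1 - m • T⁻¹) * K).trace := mul_nonneg (by positivity) t2
  linarith

end Pool.Agent.Helper73.HB
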