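import Pool.Agent.Helper73.HB.Frame
import Pool.Agent.Helper73.HB.Alg
import Pool.Agent.Helper73.HB.Low

/-! # Pointwise estimates (HB-13)

All statements are at one point `p ∈ U`. `E` denotes the square root of `(G p)⁻¹`
(`exists_sqrt`, `inv_posDef`), `B = Bm E u p`, `C_k = Cm E G u k p`; `S` is a positive definite
matrix with `S² = H + ε`, `H_ab = ip u_a u_b = (B Bᵀ)_ab` (`frame_ip`).
PROOFS.
`hh_nonneg`: `hh_aa = Σ_k (C_k C_kᵀ)_aa ≥ 0` (`frame_hh`).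
`flux_one`: by `frame_vv` with `N = 1`, `Σᵢ vvⁱ ξᵢ = Σ_k η_k (C_k Bᵀ)`, `η = E ξ`,
`|η|² = Σ gⁱʲ ξᵢ ξⱼ`, and `(C_k Bᵀ)² ≤ |C_k|² |B|²`; Cauchy-Schwarz.
`flux_ineq`: `Σ_ab (S⁻¹)_ab Σᵢ vvⁱ_ab ξᵢ = Σ_k η_k tr(S⁻¹ C_k Bᵀ)`, Cauchy-Schwarz and `alg_flux`:
`≤ |η| (Σ_k N tr(C_k C_kᵀ))^(1/2)`.
`rr_one_lower`: `rr u u = Ric(∇u,∇u)` and `G(∇u,∇u) = ip u u` (contract `grad` with the metric).
`rr_lower`: `K = ½ (R + Rᵀ) + λ` with `R = Rm E G p` is positive semidefinite (the Ricci condition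
for the vector `E v`, for which `G(Ev,Ev) = |v|²` by `frame_metric`), and `|B v|² ≥ σ² |v|²` is the
hypothesis on `u` for the vector `E v`. `Σ_ab (S⁻¹)_ab (rr_ab + λ ip_ab) = tr(S⁻¹ B (R + λ) Bᵀ) =
tr(S⁻¹ B K Bᵀ)` (transpose, `S⁻¹` symmetric). Use `alg_low` and `tr K = scal + n λ` (`frame_scal`).
`tr_upper`: `alg_trace`.
`cov_bound`: put `v = ` the vector `Σⱼ gⁱʲ ξⱼ` in the hypothesis: `(Σ gⁱʲξᵢξⱼ)² ≤ s² Σ gⁱʲξᵢξⱼ`. -/

namespace Pool.Agent.Helper73.HB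

open scoped ContDiff Topology
open Pool.Agent.Helper49.Ric MeasureTheory Filter Matrix

noncomputable section

variable {n N : ℕ} {U : Set (Fin n → ℝ)} {G : (Fin n → ℝ) → Matrix (Fin n) (Fin n) ℝ}
  {p : Fin n → ℝ} {u : Fin N → (Fin n → ℝ) → ℝ} {S : Matrix (Fin N) (Fin N) ℝ}
  {ε lam σ s : ℝ} {f : (Fin n → ℝ) → ℝ}

private theorem pt_frame (hG : IsMetricOn U G) (hp : p ∈ U) :
    ∃ E : Matrix (Fin n) (Fin n) ℝ, E.PosDef ∧ E * E = (G p)⁻¹ :=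
  exists_sqrt (inv_posDef hG hp)

private theorem pt_symm {m : ℕ} {E : Matrix (Fin m) (Fin m) ℝ} (hE : E.PosDef) (i j : Fin m) :
    E i j = E j i := by
  have h := hE.isHermitian.apply i j
  simpa using h.symm

private theorem pt_inv_symm {m : ℕ} {E : Matrix (Fin m) (Fin m) ℝ} (hE : E.PosDef)
    (i j : Fin m) : E⁻¹ i j = E⁻¹ j i := pt_symm hE.inv i j

private theorem pt_dot {m : ℕ} (A : Matrix (Fin m) (Fin m) ℝ) (ξ : Fin m → ℝ) :
    ξ ⬝ᵥ (A *ᵥ ξ) = ∑ i, ∑ j, A i j * ξ i * ξ j := by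
  simp only [dotProduct, mulVec, Finset.mul_sum]
  refine Finset.sum_congr rfl fun i _ => Finset.sum_congr rfl fun j _ => ?_
  ring

/-- squared norm of a covector in the frame -/
private theorem pt_norm {E : Matrix (Fin n) (Fin n) ℝ} (hE : E.PosDef)
    (hEE : E * E = (G p)⁻¹) (ξ : Fin n → ℝ) :
    ∑ k, (∑ i, E i k * ξ i) ^ 2 = ∑ i, ∑ j, (G p)⁻¹ i j * ξ i * ξ j := by
  have h1 : ∀ k, (∑ i, E i k * ξ i) ^ 2 = ∑ i, ∑ j, E i k * E j k * ξ i * ξ j := by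
    intro k
    rw [sq, Finset.sum_mul_sum]
    refine Finset.sum_congr rfl fun i _ => Finset.sum_congr rfl fun j _ => ?_
    ring
  rw [Finset.sum_congr rfl fun k _ => h1 k, Finset.sum_comm]
  refine Finset.sum_congr rfl fun i _ => ?_
  rw [Finset.sum_comm]
  refine Finset.sum_congr rfl fun j _ => ?_
  rw [← hEE, Matrix.mul_apply, Finset.sum_mul, Finset.sum_mul]
  refine Finset.sum_congr rfl fun k _ => ?_
  rw [pt_symm hE j k]

/-- Cauchy-Schwarz for a flux -/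
private theorem pt_flux {E : Matrix (Fin n) (Fin n) ℝ} (hE : E.PosDef)
    (hEE : E * E = (G p)⁻¹) (ξ c : Fin n → ℝ) :
    (∑ i, (∑ k, E i k * c k) * ξ i) ^ 2 ≤
      (∑ i, ∑ j, (G p)⁻¹ i j * ξ i * ξ j) * ∑ k, c k ^ 2 := by
  have h1 : ∑ i, (∑ k, E i k * c k) * ξ i = ∑ k, (∑ i, E i k * ξ i) * c k := by
    simp only [Finset.sum_mul]
    rw [Finset.sum_comm]
    refine Finset.sum_congr rfl fun k _ => Finset.sum_congr rfl fun i _ => ?_
    ring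
  rw [h1, ← pt_norm hE hEE]
  exact Finset.sum_mul_sq_le_sq_mul_sq _ _ _

private theorem pt_trace {S M : Matrix (Fin N) (Fin N) ℝ} (hS : S.PosDef) :
    ∑ a, ∑ b, S⁻¹ a b * M a b = (S⁻¹ * M).trace := by
  rw [Matrix.trace, Finset.sum_comm]
  refine Finset.sum_congr rfl fun b _ => ?_
  rw [Matrix.diag_apply, Matrix.mul_apply]
  refine Finset.sum_congr rfl fun a _ => ?_
  rw [pt_inv_symm hS]

private theorem pt_SS {E : Matrix (Fin n) (Fin n) ℝ} (hE : E.PosDef)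
    (hEE : E * E = (G p)⁻¹)
    (hSS : ∀ a b, (S * S) a b = ip G (u a) (u b) p + if a = b then ε else 0) :
    S * S = Bm E u p * (Bm E u p)ᵀ + ε • (1 : Matrix (Fin N) (Fin N) ℝ) := by
  ext a b
  rw [hSS, Matrix.add_apply, frame_ip hE hEE, Matrix.smul_apply, Matrix.one_apply]
  split_ifs <;> simp

private theorem pt_ip (hG : IsMetricOn U G) (hp : p ∈ U) :
    ∑ i, ∑ j, G p i j * grad G f i p * grad G f j p = ip G f f p := by
  have h1 : ∀ i, ∑ j, G p i j * grad G f j p = pd i f p := by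
    intro i
    unfold grad
    simp only [Finset.mul_sum]
    rw [Finset.sum_comm]
    have h2 : ∀ l, ∑ j, G p i j * ((G p)⁻¹ j l * pd l f p) =
        (if i = l then 1 else 0) * pd l f p := by
      intro l
      rw [← mul_inv_metric hG hp i l, Finset.sum_mul]
      refine Finset.sum_congr rfl fun j _ => ?_
      ring
    rw [Finset.sum_congr rfl fun l _ => h2 l]
    simp
  have h3 : ∀ i, ∑ j, G p i j * grad G f i p * grad G f j p = grad G f i p * pd i f p := by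
    intro i
    rw [← h1 i, Finset.mul_sum]
    refine Finset.sum_congr rfl fun j _ => ?_
    ring
  rw [Finset.sum_congr rfl fun i _ => h3 i]
  unfold grad ip
  refine Finset.sum_congr rfl fun i _ => ?_
  rw [Finset.sum_mul]
  refine Finset.sum_congr rfl fun j _ => ?_
  ring

/-- the symmetrised Ricci form plus `lam` in the frame is positive semidefinite -/
private theorem pt_K (hG : IsMetricOn U G) (hp : p ∈ U) {E : Matrix (Fin n) (Fin n) ℝ}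
    (hE : E.PosDef) (hEE : E * E = (G p)⁻¹)
    (hRic : ∀ v : Fin n → ℝ, -lam * ∑ i, ∑ j, G p i j * v i * v j ≤
      ∑ i, ∑ j, ricci G i j p * v i * v j) :
    ((1 / 2 : ℝ) • (Rm E G p + (Rm E G p)ᵀ) + lam • (1 : Matrix (Fin n) (Fin n) ℝ)).PosSemidef := by
  have hEt : Eᵀ = E := by
    ext i j
    rw [Matrix.transpose_apply, pt_symm hE]
  refine Matrix.PosSemidef.of_dotProduct_mulVec_nonneg ?_ ?_
  · rw [Matrix.IsHermitian, conjTranspose_eq_transpose_of_trivial]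
    simp [add_comm]
  · intro v
    have hst : star v = v := by ext i; simp
    rw [hst]
    have h1 : v ⬝ᵥ ((Rm E G p)ᵀ *ᵥ v) = v ⬝ᵥ (Rm E G p *ᵥ v) := by
      rw [Matrix.mulVec_transpose, dotProduct_comm, Matrix.dotProduct_mulVec]
    have h2 : v ⬝ᵥ (Rm E G p *ᵥ v) =
        (E *ᵥ v) ⬝ᵥ ((Matrix.of fun i j => ricci G i j p) *ᵥ (E *ᵥ v)) := by
      unfold Rm
      rw [← Matrix.mulVec_mulVec, ← Matrix.mulVec_mulVec, Matrix.dotProduct_mulVec,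
        ← Matrix.mulVec_transpose, hEt]
    have h3 : (E *ᵥ v) ⬝ᵥ (G p *ᵥ (E *ᵥ v)) = v ⬝ᵥ v := by
      have h4 : (E *ᵥ v) ⬝ᵥ (G p *ᵥ (E *ᵥ v)) = v ⬝ᵥ ((E * G p * E) *ᵥ v) := by
        rw [← Matrix.mulVec_mulVec, ← Matrix.mulVec_mulVec, Matrix.dotProduct_mulVec v E,
          ← Matrix.mulVec_transpose, hEt]
      rw [h4, frame_metric hG hp hE hEE, Matrix.one_mulVec]
    have h5 := hRic (E *ᵥ v)
    have h6 := pt_dot (G p) (E *ᵥ v)
    have h7 := pt_dot (Matrix.of fun i j => ricci G i j p) (E *ᵥ v)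
    simp only [Matrix.of_apply] at h7
    rw [← h6, ← h7, h3, ← h2] at h5
    rw [Matrix.add_mulVec, Matrix.smul_mulVec, Matrix.add_mulVec, Matrix.smul_mulVec,
      Matrix.one_mulVec, dotProduct_add, dotProduct_smul, dotProduct_add, dotProduct_smul, h1,
      smul_eq_mul, smul_eq_mul]
    linarith

private theorem pt_Ktrace {E : Matrix (Fin n) (Fin n) ℝ} (hE : E.PosDef)
    (hEE : E * E = (G p)⁻¹) :
    ((1 / 2 : ℝ) • (Rm E G p + (Rm E G p)ᵀ) + lam • (1 : Matrix (Fin n) (Fin n) ℝ)).trace =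
      scal G p + n * lam := by
  rw [Matrix.trace_add, Matrix.trace_smul, Matrix.trace_add, Matrix.trace_transpose,
    frame_scal hE hEE, Matrix.trace_smul, Matrix.trace_one, Fintype.card_fin, smul_eq_mul,
    smul_eq_mul]
  ring

theorem hh_nonneg (hU : IsOpen U) (hG : IsMetricOn U G) (hp : p ∈ U)
    (hf : ContDiffAt ℝ ∞ f p) : 0 ≤ hh G f f p := by
  obtain ⟨E, hE, hEE⟩ := pt_frame hG hp
  have h := frame_hh (N := 1) (u := fun _ => f) hU hG hp (fun _ => hf) hE hEE 0 0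
  rw [← h, Matrix.sum_apply]
  refine Finset.sum_nonneg fun k _ => ?_
  rw [Matrix.mul_apply]
  refine Finset.sum_nonneg fun i _ => ?_
  rw [Matrix.transpose_apply]
  exact mul_self_nonneg _

theorem ip_nonneg (hG : IsMetricOn U G) (hp : p ∈ U) : 0 ≤ ip G f f p := by
  obtain ⟨E, hE, hEE⟩ := pt_frame hG hp
  have h := frame_ip (N := 1) (u := fun _ => f) hE hEE 0 0
  rw [← h, Matrix.mul_apply]
  refine Finset.sum_nonneg fun i _ => ?_
  rw [Matrix.transpose_apply]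
  exact mul_self_nonneg _

theorem flux_one (hU : IsOpen U) (hG : IsMetricOn U G) (hp : p ∈ U)
    (hf : ContDiffAt ℝ ∞ f p) (ξ : Fin n → ℝ) :
    (∑ i, vv G f f i p * ξ i) ^ 2 ≤
      (∑ i, ∑ j, (G p)⁻¹ i j * ξ i * ξ j) * (hh G f f p * ip G f f p) := by
  obtain ⟨E, hE, hEE⟩ := pt_frame hG hp
  have hh1 := frame_hh (N := 1) (u := fun _ => f) hU hG hp (fun _ => hf) hE hEE 0 0
  have hip1 := frame_ip (N := 1) (u := fun _ => f) hE hEE 0 0
  have hvv := frame_vv (N := 1) (u := fun _ => f) hE hEE 0 0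
  set B := Bm (N := 1) E (fun _ => f) p with hB
  have h1 : ∀ i, vv G f f i p * ξ i =
      (∑ k, E i k * (Cm (N := 1) E G (fun _ => f) k p * Bᵀ) 0 0) * ξ i := fun i => by
    rw [hvv i]
  rw [Finset.sum_congr rfl fun i _ => h1 i]
  refine (pt_flux hE hEE ξ _).trans ?_
  have h0 : 0 ≤ ∑ i, ∑ j, (G p)⁻¹ i j * ξ i * ξ j := by
    rw [← pt_norm hE hEE]
    exact Finset.sum_nonneg fun k _ => sq_nonneg _
  refine mul_le_mul_of_nonneg_left ?_ h0
  rw [← hh1, ← hip1, Matrix.sum_apply, Finset.sum_mul]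
  refine Finset.sum_le_sum fun k _ => ?_
  rw [Matrix.mul_apply, Matrix.mul_apply, Matrix.mul_apply]
  simp only [Matrix.transpose_apply, ← sq]
  exact Finset.sum_mul_sq_le_sq_mul_sq _ _ _

theorem rr_one_lower (hG : IsMetricOn U G) (hp : p ∈ U)
    (hRic : ∀ v : Fin n → ℝ, -lam * ∑ i, ∑ j, G p i j * v i * v j ≤
      ∑ i, ∑ j, ricci G i j p * v i * v j) :
    -lam * ip G f f p ≤ rr G f f p := by
  have h := hRic (fun i => grad G f i p)
  rw [pt_ip hG hp] at h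
  exact h

theorem flux_ineq (hU : IsOpen U) (hG : IsMetricOn U G) (hp : p ∈ U)
    (hu : ∀ a, ContDiffAt ℝ ∞ (u a) p) (hε : 0 < ε) (hS : S.PosDef)
    (hSS : ∀ a b, (S * S) a b = ip G (u a) (u b) p + if a = b then ε else 0) (ξ : Fin n → ℝ) :
    (∑ a, ∑ b, S⁻¹ a b * ∑ i, vv G (u a) (u b) i p * ξ i) ^ 2 ≤
      N * (∑ i, ∑ j, (G p)⁻¹ i j * ξ i * ξ j) * ∑ a, hh G (u a) (u a) p := by
  obtain ⟨E, hE, hEE⟩ := pt_frame hG hp
  have hSS' := pt_SS hE hEE hSS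
  have h1 : ∑ a, ∑ b, S⁻¹ a b * ∑ i, vv G (u a) (u b) i p * ξ i =
      ∑ i, (∑ k, E i k * (S⁻¹ * (Cm E G u k p * (Bm E u p)ᵀ)).trace) * ξ i := by
    have h2 : ∀ k, (S⁻¹ * (Cm E G u k p * (Bm E u p)ᵀ)).trace =
        ∑ a, ∑ b, S⁻¹ a b * (Cm E G u k p * (Bm E u p)ᵀ) a b := fun k => (pt_trace hS).symm
    simp only [h2, frame_vv hE hEE, Finset.mul_sum, Finset.sum_mul]
    have h3 : ∀ F : Fin N → Fin N → Fin n → Fin n → ℝ,
        ∑ a, ∑ b, ∑ i, ∑ k, F a b i k = ∑ i, ∑ k, ∑ a, ∑ b, F a b i k := by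
      intro F
      calc ∑ a, ∑ b, ∑ i, ∑ k, F a b i k = ∑ a, ∑ i, ∑ b, ∑ k, F a b i k :=
            Finset.sum_congr rfl fun a _ => Finset.sum_comm
        _ = ∑ i, ∑ a, ∑ b, ∑ k, F a b i k := Finset.sum_comm
        _ = ∑ i, ∑ a, ∑ k, ∑ b, F a b i k :=
            Finset.sum_congr rfl fun i _ => Finset.sum_congr rfl fun a _ => Finset.sum_comm
        _ = ∑ i, ∑ k, ∑ a, ∑ b, F a b i k :=
            Finset.sum_congr rfl fun i _ => Finset.sum_comm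
    rw [h3]
    refine Finset.sum_congr rfl fun i _ => Finset.sum_congr rfl fun k _ =>
      Finset.sum_congr rfl fun a _ => Finset.sum_congr rfl fun b _ => ?_
    ring
  rw [h1]
  refine (pt_flux hE hEE ξ _).trans ?_
  have h0 : 0 ≤ ∑ i, ∑ j, (G p)⁻¹ i j * ξ i * ξ j := by
    rw [← pt_norm hE hEE]
    exact Finset.sum_nonneg fun k _ => sq_nonneg _
  have h4 : ∑ k, (S⁻¹ * (Cm E G u k p * (Bm E u p)ᵀ)).trace ^ 2 ≤
      N * ∑ a, hh G (u a) (u a) p := by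
    have h5 : ∑ a, hh G (u a) (u a) p = ∑ k, (Cm E G u k p * (Cm E G u k p)ᵀ).trace := by
      rw [← Matrix.trace_sum, Matrix.trace]
      exact Finset.sum_congr rfl fun a _ => (frame_hh hU hG hp hu hE hEE a a).symm
    rw [h5, Finset.mul_sum]
    exact Finset.sum_le_sum fun k _ => alg_flux hε.le hS hSS'
  calc (∑ i, ∑ j, (G p)⁻¹ i j * ξ i * ξ j) *
        ∑ k, (S⁻¹ * (Cm E G u k p * (Bm E u p)ᵀ)).trace ^ 2
      ≤ (∑ i, ∑ j, (G p)⁻¹ i j * ξ i * ξ j) * (N * ∑ a, hh G (u a) (u a) p) :=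
        mul_le_mul_of_nonneg_left h4 h0
    _ = N * (∑ i, ∑ j, (G p)⁻¹ i j * ξ i * ξ j) * ∑ a, hh G (u a) (u a) p := by ring

theorem tr_upper (hG : IsMetricOn U G) (hp : p ∈ U) (hε : 0 < ε) (hS : S.PosDef)
    (hSS : ∀ a b, (S * S) a b = ip G (u a) (u b) p + if a = b then ε else 0)
    (h1 : ∀ a, ip G (u a) (u a) p ≤ 1) :
    ∑ a, ∑ b, S⁻¹ a b * ip G (u a) (u b) p ≤ N := by
  obtain ⟨E, hE, hEE⟩ := pt_frame hG hp
  have hSS' := pt_SS hE hEE hSS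
  have h2 : ∑ a, ∑ b, S⁻¹ a b * ip G (u a) (u b) p =
      (S⁻¹ * (Bm E u p * (Bm E u p)ᵀ)).trace := by
    rw [← pt_trace hS]
    refine Finset.sum_congr rfl fun a _ => Finset.sum_congr rfl fun b _ => ?_
    rw [frame_ip hE hEE]
  rw [h2]
  refine alg_trace hε.le hS hSS' fun a => ?_
  rw [frame_ip hE hEE]
  exact h1 a

theorem rr_lower (hG : IsMetricOn U G) (hp : p ∈ U) (hε : 0 < ε) (hσ : 0 ≤ σ) (hS : S.PosDef)
    (hSS : ∀ a b, (S * S) a b = ip G (u a) (u b) p + if a = b then ε else 0)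
    (hRic : ∀ v : Fin n → ℝ, -lam * ∑ i, ∑ j, G p i j * v i * v j ≤
      ∑ i, ∑ j, ricci G i j p * v i * v j)
    (hdu : ∀ v : Fin n → ℝ, σ ^ 2 * ∑ i, ∑ j, G p i j * v i * v j ≤
      ∑ a, (∑ i, pd i (u a) p * v i) ^ 2) :
    σ ^ 2 / Real.sqrt (σ ^ 2 + ε) * (scal G p + n * lam) ≤
      ∑ a, ∑ b, S⁻¹ a b * (rr G (u a) (u b) p + lam * ip G (u a) (u b) p) := by
  obtain ⟨E, hE, hEE⟩ := pt_frame hG hp
  have hSS' := pt_SS hE hEE hSS
  have hK := pt_K hG hp hE hEE hRic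
  have hB : ∀ v : Fin n → ℝ, σ ^ 2 * (v ⬝ᵥ v) ≤ (Bm E u p *ᵥ v) ⬝ᵥ (Bm E u p *ᵥ v) := by
    intro v
    have hEt : Eᵀ = E := by
      ext i j
      rw [Matrix.transpose_apply, pt_symm hE]
    have h3 : ∑ i, ∑ j, G p i j * (E *ᵥ v) i * (E *ᵥ v) j = v ⬝ᵥ v := by
      rw [← pt_dot (G p) (E *ᵥ v)]
      have h4 : (E *ᵥ v) ⬝ᵥ (G p *ᵥ (E *ᵥ v)) = v ⬝ᵥ ((E * G p * E) *ᵥ v) := by
        rw [← Matrix.mulVec_mulVec, ← Matrix.mulVec_mulVec, Matrix.dotProduct_mulVec v E,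
          ← Matrix.mulVec_transpose, hEt]
      rw [h4, frame_metric hG hp hE hEE, Matrix.one_mulVec]
    have h5 := hdu (E *ᵥ v)
    rw [h3] at h5
    refine h5.trans (le_of_eq ?_)
    rw [dotProduct]
    refine Finset.sum_congr rfl fun a _ => ?_
    rw [← sq]
    congr 1
    simp only [Matrix.mulVec, dotProduct, Bm, Matrix.of_apply, Finset.mul_sum, Finset.sum_mul]
    rw [Finset.sum_comm]
    refine Finset.sum_congr rfl fun i _ => Finset.sum_congr rfl fun j _ => ?_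
    ring
  have h6 := alg_low hε hσ hS hSS' hK hB
  rw [pt_Ktrace hE hEE] at h6
  refine h6.trans (le_of_eq ?_)
  have h7 : ∑ a, ∑ b, S⁻¹ a b * (rr G (u a) (u b) p + lam * ip G (u a) (u b) p) =
      (S⁻¹ * (Bm E u p * Rm E G p * (Bm E u p)ᵀ + lam • (Bm E u p * (Bm E u p)ᵀ))).trace := by
    rw [← pt_trace hS]
    refine Finset.sum_congr rfl fun a _ => Finset.sum_congr rfl fun b _ => ?_
    rw [frame_rr hE hEE, ← frame_ip hE hEE, Matrix.add_apply, Matrix.smul_apply, smul_eq_mul]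
  have hSt : (S⁻¹)ᵀ = S⁻¹ := by
    ext i j
    rw [Matrix.transpose_apply, pt_inv_symm hS]
  have h8 : (S⁻¹ * (Bm E u p * (Rm E G p)ᵀ * (Bm E u p)ᵀ)).trace =
      (S⁻¹ * (Bm E u p * Rm E G p * (Bm E u p)ᵀ)).trace := by
    rw [← Matrix.trace_transpose, Matrix.transpose_mul, hSt, Matrix.trace_mul_comm,
      Matrix.transpose_mul, Matrix.transpose_mul, Matrix.transpose_transpose,
      Matrix.transpose_transpose, Matrix.mul_assoc]
  rw [h7]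
  simp only [Matrix.mul_add, Matrix.add_mul, Matrix.mul_smul, Matrix.smul_mul, Matrix.mul_one,
    Matrix.trace_add, Matrix.trace_smul, h8, smul_add, smul_eq_mul]
  ring

/-- scalar curvature is bounded below -/
theorem scal_lower (hG : IsMetricOn U G) (hp : p ∈ U)
    (hRic : ∀ v : Fin n → ℝ, -lam * ∑ i, ∑ j, G p i j * v i * v j ≤
      ∑ i, ∑ j, ricci G i j p * v i * v j) : 0 ≤ scal G p + n * lam := by
  obtain ⟨E, hE, hEE⟩ := pt_frame hG hp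
  rw [← pt_Ktrace hE hEE]
  exact (pt_K hG hp hE hEE hRic).trace_nonneg

theorem cov_bound (hG : IsMetricOn U G) (hp : p ∈ U) {ξ : Fin n → ℝ}
    (h : ∀ v : Fin n → ℝ, (∑ i, ξ i * v i) ^ 2 ≤ s ^ 2 * ∑ i, ∑ j, G p i j * v i * v j) :
    ∑ i, ∑ j, (G p)⁻¹ i j * ξ i * ξ j ≤ s ^ 2 := by
  have h1 := h ((G p)⁻¹ *ᵥ ξ)
  have h2 : ∑ i, ξ i * ((G p)⁻¹ *ᵥ ξ) i = ∑ i, ∑ j, (G p)⁻¹ i j * ξ i * ξ j := by
    rw [← pt_dot]
    rfl
  have h3 : ∑ i, ∑ j, G p i j * ((G p)⁻¹ *ᵥ ξ) i * ((G p)⁻¹ *ᵥ ξ) j =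
      ∑ i, ∑ j, (G p)⁻¹ i j * ξ i * ξ j := by
    rw [← pt_dot, ← pt_dot, Matrix.mulVec_mulVec,
      Matrix.mul_nonsing_inv _ (det_pos hG hp).ne'.isUnit, Matrix.one_mulVec, dotProduct_comm]
  rw [h2, h3] at h1
  have h0 : 0 ≤ ∑ i, ∑ j, (G p)⁻¹ i j * ξ i * ξ j := by
    obtain ⟨E, hE, hEE⟩ := pt_frame hG hp
    rw [← pt_norm hE hEE]
    exact Finset.sum_nonneg fun k _ => sq_nonneg _
  rcases h0.eq_or_lt with h4 | h4
  · rw [← h4]
    positivity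
  · rw [sq] at h1
    exact le_of_mul_le_mul_right h1 h4

end

end Pool.Agent.Helper73.HB
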