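import Pool.Agent.Helper73.HB.Conc
import Pool.Agent.Helper73.HB.Point

/-! # Lipschitz cutoff functions on geodesic balls (HB-16)

PROOF. Let `d p = sInf (insert R {r | 0 < r ∧ p ∈ gball U G x r})` (distance to `x` truncated at
`R`); `0 ≤ d ≤ R`, and for `0 < r ≤ R`: `d p < r ↔ p ∈ gball U G x r` (`gball_mono`, `gball_lt`).
(1) step: if the segment from `p` to `q` lies in `U` and `√G(q-p,q-p) ≤ c` along it, then
`d q ≤ d p + c` (if `d p = R` it is clear since `d q ≤ R`; otherwise `gball_step` for all `r > d p`).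
(2) `d` is Lipschitz for the norm of `ℝⁿ`. `K` is compact, `U` open: there is `δ > 0` with the closed
`δ`-neighbourhood `K'` of `K` compact and contained in `U`
(`IsCompact.exists_cthickening_subset_open`), and `C` with `√G(z)(v,v) ≤ C ‖v‖` for `z ∈ K'`
(continuity of the entries of `G` on `K'`). Let `d p ≤ d q`. If `d p = R` then `d q = R`. If
`d p < R` then `p ∈ gball R ⊆ K`; if `‖p - q‖ ≤ δ` the segment lies in `K'` and
`d q ≤ d p + C ‖q - p‖`; if `‖p - q‖ > δ`, `d q - d p ≤ R ≤ (R/δ) ‖q - p‖`.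
(3) `η p = max 0 (min 1 ((r₂ - d p)/(r₂ - r₁)))` is Lipschitz with values in `[0,1]`, it is `1`
where `d < r₁` and `0` where `d ≥ r₂`. If `η p ≠ 0` then `d p < r₂`; so `tsupport η` is contained in
`{d ≤ r₂} ⊆ {d < R} = gball R ⊆ K`; it is closed in a compact set, hence compact.
(4) gradient: `η` is differentiable a.e. (`LipschitzWith.ae_differentiableAt`). At such `p ∈ U`, for
`v` and small `t > 0`, `|η(p+tv) - η(p)| ≤ |d(p+tv) - d p|/(r₂-r₁) ≤ (t/(r₂-r₁)) sup √G(z)(v,v)`, the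
sup over `z` in the segment from `p` to `p+tv`, by (1) used in both directions; let `t → 0`:
`(Dη(p) v)² ≤ G(p)(v,v)/(r₂-r₁)²`. Since `pd i η p = Dη(p) eᵢ`, `cov_bound` gives the claim. -/

namespace Pool.Agent.Helper73.HB

open scoped ContDiff Topology NNReal
open Pool.Agent.Helper49.Ric MeasureTheory Filter

noncomputable section

variable {n : ℕ} {U : Set (Fin n → ℝ)} {G : (Fin n → ℝ) → Matrix (Fin n) (Fin n) ℝ}
  {x : Fin n → ℝ} {r r₁ r₂ R : ℝ}

/-- the quadratic form of the metric -/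
private def cutQ (G : (Fin n → ℝ) → Matrix (Fin n) (Fin n) ℝ) (z v : Fin n → ℝ) : ℝ :=
  ∑ i, ∑ j, G z i j * v i * v j

private theorem cutQ_smul (z v : Fin n → ℝ) (t : ℝ) :
    cutQ G z (t • v) = t ^ 2 * cutQ G z v := by
  unfold cutQ
  rw [Finset.mul_sum]
  refine Finset.sum_congr rfl fun i _ => ?_
  rw [Finset.mul_sum]
  refine Finset.sum_congr rfl fun j _ => ?_
  simp only [Pi.smul_apply, smul_eq_mul]
  ring

private theorem cutQ_neg (z v : Fin n → ℝ) : cutQ G z (-v) = cutQ G z v := by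
  have h := cutQ_smul (G := G) z v (-1)
  rw [neg_one_smul] at h
  rw [h]
  norm_num

private theorem cutQ_le (z v : Fin n → ℝ) :
    cutQ G z v ≤ (∑ i, ∑ j, |G z i j|) * ‖v‖ ^ 2 := by
  unfold cutQ
  rw [Finset.sum_mul]
  refine Finset.sum_le_sum fun i _ => ?_
  rw [Finset.sum_mul]
  refine Finset.sum_le_sum fun j _ => ?_
  have h1 : |v i| ≤ ‖v‖ := norm_le_pi_norm v i
  have h2 : |v j| ≤ ‖v‖ := norm_le_pi_norm v j
  calc G z i j * v i * v j ≤ |G z i j * v i * v j| := le_abs_self _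
    _ = |G z i j| * (|v i| * |v j|) := by rw [abs_mul, abs_mul, mul_assoc]
    _ ≤ |G z i j| * (‖v‖ * ‖v‖) := by
        refine mul_le_mul_of_nonneg_left ?_ (abs_nonneg _)
        exact mul_le_mul h1 h2 (abs_nonneg _) (norm_nonneg _)
    _ = |G z i j| * ‖v‖ ^ 2 := by rw [sq]

private theorem cut_contAt (hG : IsMetricOn U G) {z : Fin n → ℝ} (hz : z ∈ U) (i j : Fin n) :
    ContinuousAt (fun q => G q i j) z := (hG.smooth z hz i j).continuousAt

/-- a uniform bound of the speed on compact sets -/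
private theorem cut_bound (hG : IsMetricOn U G) {K' : Set (Fin n → ℝ)} (hK : IsCompact K')
    (hKU : K' ⊆ U) :
    ∃ C : ℝ, 0 ≤ C ∧ ∀ z ∈ K', ∀ v, Real.sqrt (cutQ G z v) ≤ C * ‖v‖ := by
  have hc : ContinuousOn (fun z => ∑ i, ∑ j, |G z i j|) K' := by
    refine continuousOn_finsetSum _ fun i _ => continuousOn_finsetSum _ fun j _ => ?_
    intro z hz
    exact ((cut_contAt hG (hKU hz) i j).abs).continuousWithinAt
  obtain ⟨M, hM⟩ := hK.exists_bound_of_continuousOn hc
  refine ⟨Real.sqrt |M|, Real.sqrt_nonneg _, fun z hz v => ?_⟩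
  have h1 : ∑ i, ∑ j, |G z i j| ≤ |M| := by
    have h := hM z hz
    rw [Real.norm_eq_abs] at h
    exact (le_abs_self _).trans (h.trans (le_abs_self _))
  have h2 : cutQ G z v ≤ |M| * ‖v‖ ^ 2 :=
    (cutQ_le z v).trans (mul_le_mul_of_nonneg_right h1 (sq_nonneg _))
  calc Real.sqrt (cutQ G z v) ≤ Real.sqrt (|M| * ‖v‖ ^ 2) := Real.sqrt_le_sqrt h2
    _ = Real.sqrt |M| * ‖v‖ := by
        rw [Real.sqrt_mul (abs_nonneg _), Real.sqrt_sq (norm_nonneg _)]

private theorem cut_seg {p q : Fin n → ℝ} {t : ℝ} (ht : t ∈ Set.Icc (0 : ℝ) 1) :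
    p + t • (q - p) ∈ Metric.closedBall p (dist q p) := by
  rw [Metric.mem_closedBall, dist_eq_norm, add_sub_cancel_left, norm_smul, Real.norm_eq_abs,
    abs_of_nonneg ht.1, dist_eq_norm]
  exact mul_le_of_le_one_left (norm_nonneg _) ht.2

/-- geodesic balls are open -/
theorem isOpen_gball (hU : IsOpen U) (hG : IsMetricOn U G) : IsOpen (gball U G x r) := by
  rw [Metric.isOpen_iff]
  intro p hp
  obtain ⟨r', hr', hp'⟩ := gball_lt hp
  have hpU : p ∈ U := gball_subset hp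
  obtain ⟨δ, hδ, hδU⟩ := Metric.isOpen_iff.mp hU p hpU
  have hK' : Metric.closedBall p (δ / 2) ⊆ U :=
    (Metric.closedBall_subset_ball (by linarith)).trans hδU
  obtain ⟨C, hC0, hC⟩ := cut_bound hG (isCompact_closedBall p (δ / 2)) hK'
  refine ⟨min (δ / 2) ((r - r') / (C + 1)), lt_min (by linarith)
    (div_pos (by linarith) (by linarith)), fun q hq => ?_⟩
  have hq1 : dist q p < δ / 2 := lt_of_lt_of_le hq (min_le_left _ _)
  have hq2 : dist q p < (r - r') / (C + 1) := lt_of_lt_of_le hq (min_le_right _ _)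
  have hsegK : ∀ t ∈ Set.Icc (0 : ℝ) 1, p + t • (q - p) ∈ Metric.closedBall p (δ / 2) :=
    fun t ht => Metric.closedBall_subset_closedBall hq1.le (cut_seg ht)
  have h := gball_step (c := C * dist q p) hU hG hp' (fun t ht => hK' (hsegK t ht))
    (fun t ht => by
      have h := hC _ (hsegK t ht) (q - p)
      rw [← dist_eq_norm] at h
      exact h)
  refine gball_mono ?_ h
  have h3 : dist q p * (C + 1) < r - r' := (lt_div_iff₀ (by linarith)).mp hq2
  nlinarith [dist_nonneg (x := q) (y := p)]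

/-- the distance to `x` truncated at `R` -/
private def cutD (U : Set (Fin n → ℝ)) (G : (Fin n → ℝ) → Matrix (Fin n) (Fin n) ℝ)
    (x : Fin n → ℝ) (R : ℝ) (p : Fin n → ℝ) : ℝ :=
  sInf (insert R {r | 0 < r ∧ p ∈ gball U G x r})

private theorem cutD_bdd (hR : 0 < R) (p : Fin n → ℝ) :
    BddBelow (insert R {r | 0 < r ∧ p ∈ gball U G x r}) := by
  refine ⟨0, ?_⟩
  rintro s (rfl | hs)
  · exact hR.le
  · exact hs.1.le

private theorem cutD_nonneg (hR : 0 < R) (p : Fin n → ℝ) : 0 ≤ cutD U G x R p := by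
  refine le_csInf ⟨R, Set.mem_insert _ _⟩ ?_
  rintro s (rfl | hs)
  · exact hR.le
  · exact hs.1.le

private theorem cutD_le (hR : 0 < R) (p : Fin n → ℝ) : cutD U G x R p ≤ R :=
  csInf_le (cutD_bdd hR p) (Set.mem_insert _ _)

private theorem cutD_le_of_mem (hR : 0 < R) {p : Fin n → ℝ} {s : ℝ} (hp : p ∈ gball U G x s) :
    cutD U G x R p ≤ s :=
  csInf_le (cutD_bdd hR p) (Set.mem_insert_of_mem _ ⟨pos_of_mem_gball hp, hp⟩)

private theorem cutD_lt_iff (hR : 0 < R) {p : Fin n → ℝ} {s : ℝ} (hs : s ≤ R) :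
    cutD U G x R p < s ↔ p ∈ gball U G x s := by
  constructor
  · intro h
    obtain ⟨a, ha, has⟩ := exists_lt_of_csInf_lt ⟨R, Set.mem_insert _ _⟩ h
    rcases ha with rfl | ha
    · exact absurd has (not_lt.mpr hs)
    · exact gball_mono has.le ha.2
  · intro h
    obtain ⟨a, ha, hp⟩ := gball_lt h
    exact (cutD_le_of_mem hR hp).trans_lt ha

private theorem cutD_step (hU : IsOpen U) (hG : IsMetricOn U G) (hR : 0 < R)
    {p q : Fin n → ℝ} {c : ℝ}
    (hseg : ∀ t ∈ Set.Icc (0 : ℝ) 1, p + t • (q - p) ∈ U)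
    (hc : ∀ t ∈ Set.Icc (0 : ℝ) 1, Real.sqrt (cutQ G (p + t • (q - p)) (q - p)) ≤ c) :
    cutD U G x R q ≤ cutD U G x R p + c := by
  by_contra hcon
  rw [not_le] at hcon
  have hc0 : 0 ≤ c := (Real.sqrt_nonneg _).trans (hc 0 ⟨le_rfl, zero_le_one⟩)
  obtain ⟨s, hs1, hs2⟩ := exists_between (show cutD U G x R p < cutD U G x R q - c by linarith)
  have hsR : s ≤ R := by
    have := cutD_le (U := U) (G := G) (x := x) hR q
    linarith
  have hp : p ∈ gball U G x s := (cutD_lt_iff hR hsR).mp hs1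
  have hq : q ∈ gball U G x (s + c) := gball_step hU hG hp hseg hc
  have := cutD_le_of_mem hR hq
  linarith

private theorem cutD_abs (hU : IsOpen U) (hG : IsMetricOn U G) (hR : 0 < R)
    {p q : Fin n → ℝ} {c : ℝ}
    (hseg : ∀ t ∈ Set.Icc (0 : ℝ) 1, p + t • (q - p) ∈ U)
    (hc : ∀ t ∈ Set.Icc (0 : ℝ) 1, Real.sqrt (cutQ G (p + t • (q - p)) (q - p)) ≤ c) :
    |cutD U G x R q - cutD U G x R p| ≤ c := by
  have h1 := cutD_step (x := x) hU hG hR hseg hc
  have e : ∀ t : ℝ, q + t • (p - q) = p + (1 - t) • (q - p) := by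
    intro t
    rw [sub_smul, one_smul, ← neg_sub q p, smul_neg]
    abel
  have ht' : ∀ t ∈ Set.Icc (0 : ℝ) 1, 1 - t ∈ Set.Icc (0 : ℝ) 1 := fun t ht =>
    ⟨by linarith [ht.2], by linarith [ht.1]⟩
  have h2 : cutD U G x R p ≤ cutD U G x R q + c := by
    refine cutD_step hU hG hR (fun t ht => ?_) (fun t ht => ?_)
    · rw [e]
      exact hseg _ (ht' t ht)
    · rw [e, ← neg_sub q p, cutQ_neg]
      exact hc _ (ht' t ht)
  rw [abs_le]
  constructor <;> linarith

private theorem cutD_lipschitz (hU : IsOpen U) (hG : IsMetricOn U G) (hR : 0 < R)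
    {K : Set (Fin n → ℝ)} (hK : IsCompact K) (hKU : K ⊆ U) (hRK : gball U G x R ⊆ K) :
    ∃ L : ℝ≥0, LipschitzWith L (cutD U G x R) := by
  obtain ⟨δ, hδ, hδU⟩ := hK.exists_cthickening_subset_open hU hKU
  obtain ⟨C, hC0, hC⟩ := cut_bound hG (hK.cthickening (r := δ)) hδU
  have hL0 : 0 ≤ max C (R / δ) := hC0.trans (le_max_left _ _)
  refine ⟨⟨max C (R / δ), hL0⟩, LipschitzWith.of_le_add_mul _ fun q p => ?_⟩
  show cutD U G x R q ≤ cutD U G x R p + max C (R / δ) * dist q p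
  have hd : 0 ≤ dist q p := dist_nonneg
  have hp0 : 0 ≤ cutD U G x R p := cutD_nonneg hR p
  have hqR : cutD U G x R q ≤ R := cutD_le hR q
  by_cases hpR : cutD U G x R p < R
  · have hpK : p ∈ K := hRK ((cutD_lt_iff hR le_rfl).mp hpR)
    rcases le_or_gt (dist q p) δ with hle | hgt
    · have hsegK : ∀ t ∈ Set.Icc (0 : ℝ) 1, p + t • (q - p) ∈ Metric.cthickening δ K :=
        fun t ht => Metric.closedBall_subset_cthickening hpK δ
          (Metric.closedBall_subset_closedBall hle (cut_seg ht))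
      have h := cutD_step (x := x) (c := C * dist q p) hU hG hR
        (fun t ht => hδU (hsegK t ht)) (fun t ht => by
          have h := hC _ (hsegK t ht) (q - p)
          rw [← dist_eq_norm] at h
          exact h)
      have h2 : C * dist q p ≤ max C (R / δ) * dist q p :=
        mul_le_mul_of_nonneg_right (le_max_left _ _) hd
      linarith
    · have h1 : R ≤ R / δ * dist q p := by
        rw [div_mul_eq_mul_div, le_div_iff₀ hδ]
        exact mul_le_mul_of_nonneg_left hgt.le hR.le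
      have h2 : R / δ * dist q p ≤ max C (R / δ) * dist q p :=
        mul_le_mul_of_nonneg_right (le_max_right _ _) hd
      linarith
  · have h2 : 0 ≤ max C (R / δ) * dist q p := mul_nonneg hL0 hd
    linarith [not_lt.mp hpR]

/-- the profile of the cutoff function -/
private def cutP (r₁ r₂ s : ℝ) : ℝ := max 0 (min 1 ((r₂ - s) / (r₂ - r₁)))

private theorem cutP_lip (h1 : r₁ < r₂) (a b : ℝ) :
    |cutP r₁ r₂ a - cutP r₁ r₂ b| ≤ 1 / (r₂ - r₁) * |a - b| := by
  have hpos : 0 < r₂ - r₁ := by linarith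
  have e : (r₂ - a) / (r₂ - r₁) - (r₂ - b) / (r₂ - r₁) = 1 / (r₂ - r₁) * (b - a) := by
    field_simp
    ring
  calc |cutP r₁ r₂ a - cutP r₁ r₂ b|
      ≤ |min 1 ((r₂ - a) / (r₂ - r₁)) - min 1 ((r₂ - b) / (r₂ - r₁))| := by
        have h := abs_max_sub_max_le_abs (min 1 ((r₂ - a) / (r₂ - r₁)))
          (min 1 ((r₂ - b) / (r₂ - r₁))) 0
        unfold cutP
        rw [max_comm 0, max_comm 0]
        exact h
    _ ≤ |(r₂ - a) / (r₂ - r₁) - (r₂ - b) / (r₂ - r₁)| := by
        have h := abs_min_sub_min_le_max 1 ((r₂ - a) / (r₂ - r₁)) 1 ((r₂ - b) / (r₂ - r₁))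
        rw [sub_self, abs_zero, max_eq_right (abs_nonneg _)] at h
        exact h
    _ = 1 / (r₂ - r₁) * |a - b| := by
        rw [e, abs_mul, abs_of_pos (one_div_pos.mpr hpos), abs_sub_comm]

/-- the derivative of the cutoff function -/
private theorem cut_grad (hU : IsOpen U) (hG : IsMetricOn U G) (hR : 0 < R) (h1 : r₁ < r₂)
    {p : Fin n → ℝ} (hp : p ∈ U)
    (hd : DifferentiableAt ℝ (fun q => cutP r₁ r₂ (cutD U G x R q)) p) (v : Fin n → ℝ) :
    |fderiv ℝ (fun q => cutP r₁ r₂ (cutD U G x R q)) p v| ≤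
      1 / (r₂ - r₁) * Real.sqrt (cutQ G p v) := by
  have hs : 0 < 1 / (r₂ - r₁) := one_div_pos.mpr (by linarith)
  set η : (Fin n → ℝ) → ℝ := fun q => cutP r₁ r₂ (cutD U G x R q) with hη
  set c₀ : ℝ := Real.sqrt (cutQ G p v) with hc₀
  have hc0 : 0 ≤ c₀ := Real.sqrt_nonneg _
  have key : ∀ ε > 0, |fderiv ℝ η p v| ≤ 1 / (r₂ - r₁) * (c₀ + ε) := by
    intro ε hε
    have hline : HasDerivAt (fun t : ℝ => η (p + t • v)) (fderiv ℝ η p v) 0 :=
      hd.hasFDerivAt.hasLineDerivAt v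
    have hcont : ContinuousAt (fun z => Real.sqrt (cutQ G z v)) p := by
      refine ContinuousAt.sqrt ?_
      unfold cutQ
      refine tendsto_finsetSum _ fun i _ => tendsto_finsetSum _ fun j _ => ?_
      exact ((cut_contAt hG hp i j).mul_const (v i)).mul_const (v j)
    have hev : ∀ᶠ z in 𝓝 p, z ∈ U ∧ Real.sqrt (cutQ G z v) < c₀ + ε :=
      Filter.Eventually.and (IsOpen.mem_nhds hU hp) (hcont.eventually (gt_mem_nhds (by linarith)))
    obtain ⟨ρ, hρ, hball⟩ := Metric.eventually_nhds_iff_ball.mp hev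
    have hC : 0 ≤ 1 / (r₂ - r₁) * (c₀ + ε) := mul_nonneg hs.le (by linarith)
    have hlip : ∀ᶠ t : ℝ in 𝓝 0, ‖η (p + t • v) - η (p + (0 : ℝ) • v)‖ ≤
        1 / (r₂ - r₁) * (c₀ + ε) * ‖t - 0‖ := by
      have hsm : ∀ᶠ t : ℝ in 𝓝 0, ‖t • v‖ < ρ := by
        have hc : ContinuousAt (fun t : ℝ => ‖t • v‖) 0 := by fun_prop
        refine hc.eventually (gt_mem_nhds ?_)
        show ‖(0 : ℝ) • v‖ < ρ
        rw [zero_smul, norm_zero]
        exact hρ
      refine hsm.mono fun t ht => ?_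
      rw [zero_smul, add_zero, sub_zero, Real.norm_eq_abs, Real.norm_eq_abs]
      have hq : ∀ τ ∈ Set.Icc (0 : ℝ) 1, p + τ • (p + t • v - p) ∈ Metric.ball p ρ := by
        intro τ hτ
        have h := cut_seg (p := p) (q := p + t • v) hτ
        refine lt_of_le_of_lt (Metric.mem_closedBall.mp h) ?_
        rw [dist_eq_norm, add_sub_cancel_left]
        exact ht
      have habs : |cutD U G x R (p + t • v) - cutD U G x R p| ≤ |t| * (c₀ + ε) := by
        refine cutD_abs hU hG hR (fun τ hτ => (hball _ (hq τ hτ)).1) (fun τ hτ => ?_)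
        have h2 := (hball _ (hq τ hτ)).2
        rw [show p + t • v - p = t • v from add_sub_cancel_left _ _] at h2 ⊢
        rw [cutQ_smul, Real.sqrt_mul (sq_nonneg t), Real.sqrt_sq_eq_abs]
        exact mul_le_mul_of_nonneg_left h2.le (abs_nonneg t)
      calc |η (p + t • v) - η p|
          ≤ 1 / (r₂ - r₁) * |cutD U G x R (p + t • v) - cutD U G x R p| := cutP_lip h1 _ _
        _ ≤ 1 / (r₂ - r₁) * (|t| * (c₀ + ε)) := mul_le_mul_of_nonneg_left habs hs.le
        _ = 1 / (r₂ - r₁) * (c₀ + ε) * |t| := by ring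
    have h := hline.le_of_lip' hC hlip
    rwa [Real.norm_eq_abs] at h
  refine le_of_forall_pos_le_add fun ε hε => ?_
  have h := key (ε * (r₂ - r₁)) (mul_pos hε (by linarith))
  refine h.trans (le_of_eq ?_)
  have : r₂ - r₁ ≠ 0 := by
    have : 0 < r₂ - r₁ := by linarith
    exact this.ne'
  field_simp

theorem exists_cutoff (hU : IsOpen U) (hG : IsMetricOn U G) {K : Set (Fin n → ℝ)}
    (hK : IsCompact K) (hKU : K ⊆ U) (hR : gball U G x R ⊆ K) (h0 : 0 < r₁) (h1 : r₁ < r₂)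
    (h2 : r₂ < R) :
    ∃ (η : (Fin n → ℝ) → ℝ) (L : ℝ≥0), LipschitzWith L η ∧ HasCompactSupport η ∧
      tsupport η ⊆ gball U G x R ∧ (∀ p, 0 ≤ η p) ∧ (∀ p, η p ≤ 1) ∧
      (∀ p ∈ gball U G x r₁, η p = 1) ∧ (∀ p, p ∉ gball U G x r₂ → η p = 0) ∧
      ∀ᵐ p, p ∈ U → ∑ i, ∑ j, (G p)⁻¹ i j * pd i η p * pd j η p ≤ (1 / (r₂ - r₁)) ^ 2 := by
  have hR0 : 0 < R := by linarith
  have hpos : 0 < r₂ - r₁ := by linarith
  obtain ⟨L, hL⟩ := cutD_lipschitz hU hG hR0 hK hKU hR
  set d := cutD U G x R with hd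
  have hlip : LipschitzWith (Real.toNNReal (1 / (r₂ - r₁)) * L)
      (fun p => cutP r₁ r₂ (d p)) := by
    have hP : LipschitzWith (Real.toNNReal (1 / (r₂ - r₁))) (cutP r₁ r₂) := by
      refine LipschitzWith.of_dist_le_mul fun a b => ?_
      rw [Real.dist_eq, Real.dist_eq, Real.coe_toNNReal _ (one_div_pos.mpr hpos).le]
      exact cutP_lip h1 a b
    exact hP.comp hL
  have hzero : ∀ p, r₂ ≤ d p → cutP r₁ r₂ (d p) = 0 := by
    intro p hp
    have h3 : (r₂ - d p) / (r₂ - r₁) ≤ 0 := div_nonpos_of_nonpos_of_nonneg (by linarith) hpos.le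
    exact max_eq_left ((min_le_right _ _).trans h3)
  have hts : tsupport (fun p => cutP r₁ r₂ (d p)) ⊆ gball U G x R := by
    have hcl : IsClosed {p | d p ≤ r₂} := isClosed_le hL.continuous continuous_const
    have hsub : Function.support (fun p => cutP r₁ r₂ (d p)) ⊆ {p | d p ≤ r₂} := by
      intro p hp
      by_contra hcon
      exact hp (hzero p (not_le.mp hcon).le)
    intro p hp
    have h3 : d p ≤ r₂ := closure_minimal hsub hcl hp
    exact (cutD_lt_iff hR0 le_rfl).mp (lt_of_le_of_lt h3 h2)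
  refine ⟨fun p => cutP r₁ r₂ (d p), _, hlip, ?_, hts, fun p => le_max_left _ _, fun p => ?_,
    fun p hp => ?_, fun p hp => ?_, ?_⟩
  · exact hK.of_isClosed_subset (isClosed_tsupport _) (hts.trans hR)
  · exact max_le zero_le_one (min_le_left _ _)
  · have h3 : d p < r₁ := (cutD_lt_iff hR0 (by linarith)).mpr hp
    have h4 : 1 ≤ (r₂ - d p) / (r₂ - r₁) := by
      rw [le_div_iff₀ hpos]
      linarith
    show max 0 (min 1 ((r₂ - d p) / (r₂ - r₁))) = 1
    rw [min_eq_left h4, max_eq_right zero_le_one]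
  · apply hzero
    by_contra hcon
    exact hp ((cutD_lt_iff hR0 h2.le).mp (not_le.mp hcon))
  · filter_upwards [hlip.ae_differentiableAt (μ := volume)] with p hdp hpU
    refine cov_bound hG hpU fun v => ?_
    have hpd : ∀ i, pd i (fun p => cutP r₁ r₂ (d p)) p =
        fderiv ℝ (fun p => cutP r₁ r₂ (d p)) p (Pi.single i 1) := by
      intro i
      exact hdp.lineDeriv_eq_fderiv
    have hsum : ∑ i, pd i (fun p => cutP r₁ r₂ (d p)) p * v i =
        fderiv ℝ (fun p => cutP r₁ r₂ (d p)) p v := by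
      conv_rhs => rw [show v = ∑ i, v i • (Pi.single i (1 : ℝ) : Fin n → ℝ) from by
        ext k
        simp [Finset.sum_apply, Pi.single_apply]]
      rw [map_sum]
      refine Finset.sum_congr rfl fun i _ => ?_
      rw [map_smul, hpd, smul_eq_mul, mul_comm]
    rw [hsum]
    have hQ : 0 ≤ cutQ G p v := by
      by_cases hv : v = 0
      · rw [hv]
        unfold cutQ
        simp
      · exact (hG.pos p hpU v hv).le
    have h3 := cut_grad (x := x) hU hG hR0 h1 hpU hdp v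
    calc (fderiv ℝ (fun p => cutP r₁ r₂ (d p)) p v) ^ 2
        = |fderiv ℝ (fun p => cutP r₁ r₂ (d p)) p v| ^ 2 := (sq_abs _).symm
      _ ≤ (1 / (r₂ - r₁) * Real.sqrt (cutQ G p v)) ^ 2 := by
          exact pow_le_pow_left₀ (abs_nonneg _) h3 2
      _ = (1 / (r₂ - r₁)) ^ 2 * cutQ G p v := by rw [mul_pow, Real.sq_sqrt hQ]

end

end Pool.Agent.Helper73.HB
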