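import Pool.Agent.Helper73.HB.Point

/-! # Pointwise estimates for the term with the gradient of the Laplacian (HB-20) -/

namespace Pool.Agent.Helper73.HB

open scoped ContDiff Topology
open Pool.Agent.Helper49.Ric MeasureTheory Filter Matrix

noncomputable section

variable {n N : ℕ} {U : Set (Fin n → ℝ)} {G : (Fin n → ℝ) → Matrix (Fin n) (Fin n) ℝ}
  {p : Fin n → ℝ} {u w : Fin N → (Fin n → ℝ) → ℝ} {S : Matrix (Fin N) (Fin N) ℝ}
  {E : Matrix (Fin n) (Fin n) ℝ} {ε : ℝ} {f h : (Fin n → ℝ) → ℝ}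

theorem frame_ip₂ (hE : E.PosDef) (hEE : E * E = (G p)⁻¹) (a b : Fin N) :
    (Bm E w p * (Bm E u p)ᵀ) a b = ip G (w a) (u b) p := by
  have h1 : (Bm E w p * (Bm E u p)ᵀ) a b =
      (E *ᵥ (Dv (w a) p)) ⬝ᵥ (E *ᵥ (Dv (u b) p)) := by
    rw [← Bm_row (u := w) hE a, ← Bm_row (u := u) hE b]
    rfl
  have h2 : (E *ᵥ (Dv (w a) p)) ⬝ᵥ (E *ᵥ (Dv (u b) p)) =
      (Dv (w a) p) ⬝ᵥ ((G p)⁻¹ *ᵥ (Dv (u b) p)) := by
    rw [← hEE, ← Matrix.mulVec_mulVec, Matrix.dotProduct_mulVec (Dv (w a) p) E,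
      ← Matrix.mulVec_transpose, E_symm hE]
  rw [h1, h2]
  simp only [dotProduct, Matrix.mulVec, Dv, ip, Finset.mul_sum]
  refine Finset.sum_congr rfl fun i _ => Finset.sum_congr rfl fun j _ => by ring

/-- Cauchy-Schwarz for the inner product of gradients -/
theorem ip_cs (hG : IsMetricOn U G) (hp : p ∈ U) :
    ip G f h p ^ 2 ≤ ip G f f p * ip G h h p := by
  obtain ⟨E, hE, hEE⟩ := exists_sqrt (inv_posDef hG hp)
  have k : ∀ f h : (Fin n → ℝ) → ℝ, ip G f h p =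
      ∑ i, Bm E (fun _ : Fin 1 => f) p 0 i * Bm E (fun _ : Fin 1 => h) p 0 i := by
    intro f h
    rw [← frame_ip₂ (w := fun _ : Fin 1 => f) (u := fun _ : Fin 1 => h) hE hEE 0 0,
      Matrix.mul_apply]
    rfl
  rw [k f h, k f f, k h h]
  have := Finset.sum_mul_sq_le_sq_mul_sq Finset.univ
    (fun i => Bm E (fun _ : Fin 1 => f) p 0 i) (fun i => Bm E (fun _ : Fin 1 => h) p 0 i)
  simpa only [pow_two] using this

theorem flux_ip (hG : IsMetricOn U G) (hp : p ∈ U) (hε : 0 < ε) (hS : S.PosDef)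
    (hSS : ∀ a b, (S * S) a b = ip G (u a) (u b) p + if a = b then ε else 0) :
    (∑ a, ∑ b, S⁻¹ a b * ip G (w a) (u b) p) ^ 2 ≤ N * ∑ a, ip G (w a) (w a) p := by
  obtain ⟨E, hE, hEE⟩ := exists_sqrt (inv_posDef hG hp)
  have h1 : S * S = Bm E u p * (Bm E u p)ᵀ + ε • (1 : Matrix (Fin N) (Fin N) ℝ) := by
    ext a b
    rw [hSS, Matrix.add_apply, frame_ip hE hEE]
    simp [Matrix.one_apply]
  have h2 := alg_flux (C := Bm E w p) hε.le hS h1
  have hSs : ∀ a b, S⁻¹ a b = S⁻¹ b a := by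
    intro a b
    have := hS.inv.isHermitian
    have h3 := congrFun (congrFun this a) b
    simpa [Matrix.conjTranspose_apply] using h3.symm
  have e1 : (S⁻¹ * (Bm E w p * (Bm E u p)ᵀ)).trace = ∑ a, ∑ b, S⁻¹ a b * ip G (w a) (u b) p := by
    simp only [Matrix.trace, Matrix.diag, Matrix.mul_apply (M := S⁻¹), frame_ip₂ hE hEE]
    rw [Finset.sum_comm]
    refine Finset.sum_congr rfl fun a _ => Finset.sum_congr rfl fun b _ => ?_
    rw [hSs b a]
  have e2 : (Bm E w p * (Bm E w p)ᵀ).trace = ∑ a, ip G (w a) (w a) p := by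
    simp only [Matrix.trace, Matrix.diag, frame_ip₂ hE hEE]
  rw [e1, e2] at h2
  exact h2

end

end Pool.Agent.Helper73.HB
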