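import Pool.Agent.Helper73.HB.Chr

/-! # Gradient and Hessian (HB-8)

PROOFS. `hess_symm`: `pd_comm` and `christoffel_symm`. Smoothness: sums and products of
`smooth_inv`, `smooth_pd`, `smooth_christoffel`, `smooth_dens`.
`cov_grad`: `∂ⱼ(gⁱˡ ∂ₗu) + Γⁱⱼₖ gᵏˡ ∂ₗu`; with `compat_inv` the terms `Γⁱⱼₘ gᵐˡ ∂ₗu` cancel and there
remains `gⁱˡ ∂ⱼ∂ₗu - Σₗₘ Γˡⱼₘ gⁱᵐ ∂ₗu = Σₖ gⁱᵏ (∂ₖ∂ⱼu - Σₗ Γˡₖⱼ ∂ₗu)`.
`sum_hup`: definition (and symmetry of the Hessian or of the inverse metric).
`pd_ip`: differentiate `gⁱʲ ∂ᵢu ∂ⱼw` and use `compat_inv`; the Christoffel terms complete the second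
derivatives to the two Hessians. -/

namespace Pool.Agent.Helper73.HB

open scoped ContDiff Topology
open Pool.Agent.Helper49.Ric MeasureTheory Filter

noncomputable section

variable {n : ℕ} {U : Set (Fin n → ℝ)} {G : (Fin n → ℝ) → Matrix (Fin n) (Fin n) ℝ}
  {p : Fin n → ℝ} {u w : (Fin n → ℝ) → ℝ}

theorem hess_symm (hU : IsOpen U) (hG : IsMetricOn U G) (hp : p ∈ U)
    (hu : ContDiffAt ℝ ∞ u p) (i j : Fin n) : hess G u i j p = hess G u j i p := by
  unfold hess
  rw [pd_comm hu i j]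
  congr 1
  refine Finset.sum_congr rfl fun m _ => ?_
  rw [christoffel_symm hU hG hp m i j]

theorem smooth_grad (hG : IsMetricOn U G) (hp : p ∈ U) (hu : ContDiffAt ℝ ∞ u p) (i : Fin n) :
    ContDiffAt ℝ ∞ (grad G u i) p := by
  change ContDiffAt ℝ ∞ (fun q => ∑ j, (G q)⁻¹ i j * pd j u q) p
  exact ContDiffAt.sum fun j _ => (smooth_inv hG hp i j).mul (smooth_pd hu j)

theorem smooth_hess (hG : IsMetricOn U G) (hp : p ∈ U) (hu : ContDiffAt ℝ ∞ u p) (i j : Fin n) :
    ContDiffAt ℝ ∞ (hess G u i j) p := by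
  change ContDiffAt ℝ ∞
    (fun q => pd i (pd j u) q - ∑ m, christoffel G m i j q * pd m u q) p
  exact (smooth_pd (smooth_pd hu j) i).sub
    (ContDiffAt.sum fun m _ => (smooth_christoffel hG hp m i j).mul (smooth_pd hu m))

theorem smooth_hup (hG : IsMetricOn U G) (hp : p ∈ U) (hu : ContDiffAt ℝ ∞ u p) (i j : Fin n) :
    ContDiffAt ℝ ∞ (hup G u i j) p := by
  change ContDiffAt ℝ ∞ (fun q => ∑ k, (G q)⁻¹ i k * hess G u k j q) p
  exact ContDiffAt.sum fun k _ => (smooth_inv hG hp i k).mul (smooth_hess hG hp hu k j)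

theorem smooth_vv (hG : IsMetricOn U G) (hp : p ∈ U) (hu : ContDiffAt ℝ ∞ u p)
    (hw : ContDiffAt ℝ ∞ w p) (i : Fin n) : ContDiffAt ℝ ∞ (vv G u w i) p := by
  change ContDiffAt ℝ ∞ (fun q => ∑ j, hup G u i j q * grad G w j q) p
  exact ContDiffAt.sum fun j _ => (smooth_hup hG hp hu i j).mul (smooth_grad hG hp hw j)

theorem smooth_ip (hG : IsMetricOn U G) (hp : p ∈ U) (hu : ContDiffAt ℝ ∞ u p)
    (hw : ContDiffAt ℝ ∞ w p) : ContDiffAt ℝ ∞ (ip G u w) p := by
  change ContDiffAt ℝ ∞ (fun q => ∑ i, ∑ j, (G q)⁻¹ i j * pd i u q * pd j w q) p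
  exact ContDiffAt.sum fun i _ => ContDiffAt.sum fun j _ =>
    ((smooth_inv hG hp i j).mul (smooth_pd hu i)).mul (smooth_pd hw j)

theorem smooth_hh (hG : IsMetricOn U G) (hp : p ∈ U) (hu : ContDiffAt ℝ ∞ u p)
    (hw : ContDiffAt ℝ ∞ w p) : ContDiffAt ℝ ∞ (hh G u w) p := by
  change ContDiffAt ℝ ∞ (fun q => ∑ i, ∑ j, hup G u i j q * hup G w j i q) p
  exact ContDiffAt.sum fun i _ => ContDiffAt.sum fun j _ =>
    (smooth_hup hG hp hu i j).mul (smooth_hup hG hp hw j i)

theorem smooth_ricci (hG : IsMetricOn U G) (hp : p ∈ U) (i j : Fin n) :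
    ContDiffAt ℝ ∞ (ricci G i j) p := by
  change ContDiffAt ℝ ∞ (fun q => ∑ m, (pd m (christoffel G m i j) q
    - pd j (christoffel G m i m) q
    + ∑ l, (christoffel G m m l q * christoffel G l i j q
        - christoffel G m j l q * christoffel G l i m q))) p
  refine ContDiffAt.sum fun m _ => ?_
  refine ((smooth_pd (smooth_christoffel hG hp m i j) m).sub
    (smooth_pd (smooth_christoffel hG hp m i m) j)).add (ContDiffAt.sum fun l _ => ?_)
  exact ((smooth_christoffel hG hp m m l).mul (smooth_christoffel hG hp l i j)).sub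
    ((smooth_christoffel hG hp m j l).mul (smooth_christoffel hG hp l i m))

theorem smooth_scal (hG : IsMetricOn U G) (hp : p ∈ U) : ContDiffAt ℝ ∞ (scal G) p := by
  change ContDiffAt ℝ ∞ (fun q => ∑ i, ∑ j, (G q)⁻¹ i j * ricci G i j q) p
  exact ContDiffAt.sum fun i _ => ContDiffAt.sum fun j _ =>
    (smooth_inv hG hp i j).mul (smooth_ricci hG hp i j)

theorem smooth_rr (hG : IsMetricOn U G) (hp : p ∈ U) (hu : ContDiffAt ℝ ∞ u p)
    (hw : ContDiffAt ℝ ∞ w p) : ContDiffAt ℝ ∞ (rr G u w) p := by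
  change ContDiffAt ℝ ∞
    (fun q => ∑ k, ∑ j, ricci G k j q * grad G u k q * grad G w j q) p
  exact ContDiffAt.sum fun k _ => ContDiffAt.sum fun j _ =>
    ((smooth_ricci hG hp k j).mul (smooth_grad hG hp hu k)).mul (smooth_grad hG hp hw j)

private theorem cov_alg (I B : Fin n → Fin n → ℝ) (A D H : Fin n → ℝ) (i : Fin n) :
    ∑ l, ((-(∑ m, (A m * I m l + B l m * I i m))) * D l + I i l * H l)
        + ∑ k, A k * ∑ l, I k l * D l
      = ∑ k, I i k * (H k - ∑ m, B m k * D m) := by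
  have e1 : ∑ k, A k * ∑ l, I k l * D l = ∑ l, (∑ m, A m * I m l) * D l := by
    calc ∑ k, A k * ∑ l, I k l * D l = ∑ k, ∑ l, A k * I k l * D l := by
          refine Finset.sum_congr rfl fun k _ => ?_
          rw [Finset.mul_sum]
          exact Finset.sum_congr rfl fun l _ => by ring
      _ = ∑ l, ∑ k, A k * I k l * D l := Finset.sum_comm
      _ = ∑ l, (∑ m, A m * I m l) * D l :=
          Finset.sum_congr rfl fun l _ => (Finset.sum_mul _ _ _).symm
  have e2 : ∑ k, I i k * ∑ m, B m k * D m = ∑ l, (∑ m, B l m * I i m) * D l := by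
    calc ∑ k, I i k * ∑ m, B m k * D m = ∑ k, ∑ m, B m k * I i k * D m := by
          refine Finset.sum_congr rfl fun k _ => ?_
          rw [Finset.mul_sum]
          exact Finset.sum_congr rfl fun l _ => by ring
      _ = ∑ m, ∑ k, B m k * I i k * D m := Finset.sum_comm
      _ = ∑ l, (∑ m, B l m * I i m) * D l :=
          Finset.sum_congr rfl fun l _ => (Finset.sum_mul _ _ _).symm
  have e3 : ∀ l, (-(∑ m, (A m * I m l + B l m * I i m))) * D l + I i l * H l
      = I i l * H l - (∑ m, A m * I m l) * D l - (∑ m, B l m * I i m) * D l := by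
    intro l
    rw [Finset.sum_add_distrib]
    ring
  have e4 : ∀ k, I i k * (H k - ∑ m, B m k * D m)
      = I i k * H k - I i k * ∑ m, B m k * D m := fun k => mul_sub _ _ _
  rw [Finset.sum_congr rfl fun l _ => e3 l, Finset.sum_congr rfl fun k _ => e4 k,
    Finset.sum_sub_distrib, Finset.sum_sub_distrib, Finset.sum_sub_distrib, e1, e2]
  ring

theorem cov_grad (hU : IsOpen U) (hG : IsMetricOn U G) (hp : p ∈ U) (hu : ContDiffAt ℝ ∞ u p)
    (i j : Fin n) :
    pd j (grad G u i) p + ∑ k, christoffel G i j k p * grad G u k p = hup G u i j p := by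
  have h1 : pd j (grad G u i) p
      = ∑ l, ((-(∑ m, (christoffel G i j m p * (G p)⁻¹ m l
          + christoffel G l j m p * (G p)⁻¹ i m))) * pd l u p
          + (G p)⁻¹ i l * pd j (pd l u) p) := by
    refine (pd_sum (F := fun l q => (G q)⁻¹ i l * pd l u q) (fun l _ =>
      (diff_of_smooth (smooth_inv hG hp i l)).fun_mul (diff_of_smooth (smooth_pd hu l))) j).trans ?_
    refine Finset.sum_congr rfl fun l _ => ?_
    rw [pd_mul (diff_of_smooth (smooth_inv hG hp i l)) (diff_of_smooth (smooth_pd hu l)),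
      compat_inv hU hG hp j i l]
  have h2 := cov_alg (fun a b => (G p)⁻¹ a b) (fun l m => christoffel G l j m p)
    (fun m => christoffel G i j m p) (fun l => pd l u p) (fun l => pd j (pd l u) p) i
  rw [h1]
  refine h2.trans ?_
  change _ = ∑ k, (G p)⁻¹ i k * (pd k (pd j u) p - ∑ m, christoffel G m k j p * pd m u p)
  refine Finset.sum_congr rfl fun k _ => ?_
  rw [pd_comm hu j k]
  congr 2
  refine Finset.sum_congr rfl fun m _ => ?_
  rw [christoffel_symm hU hG hp m j k]

theorem sum_hup (hG : IsMetricOn U G) (hp : p ∈ U) : ∑ i, hup G u i i p = lap G u p := by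
  unfold hup lap
  rw [Finset.sum_comm]
  refine Finset.sum_congr rfl fun k _ => Finset.sum_congr rfl fun i _ => ?_
  rw [inv_symm hG hp i k]

private theorem ip_alg (I C : Fin n → Fin n → ℝ) (hI : ∀ i j, I i j = I j i)
    (V W HV HW : Fin n → ℝ) :
    ∑ i, ∑ j, (((-(∑ m, (C i m * I m j + C j m * I i m))) * V i + I i j * HV i) * W j
        + I i j * V i * HW j)
      = ∑ j, (HV j - ∑ m, C m j * V m) * ∑ l, I j l * W l
        + ∑ j, (HW j - ∑ m, C m j * W m) * ∑ l, I j l * V l := by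
  have e1 : ∑ j, (∑ m, C m j * V m) * ∑ l, I j l * W l
      = ∑ i, ∑ j, (∑ m, C i m * I m j) * V i * W j := by
    calc ∑ j, (∑ m, C m j * V m) * ∑ l, I j l * W l
        = ∑ j, ∑ m, ∑ l, C m j * I j l * V m * W l := by
          refine Finset.sum_congr rfl fun j _ => ?_
          rw [Finset.sum_mul]
          refine Finset.sum_congr rfl fun m _ => ?_
          rw [Finset.mul_sum]
          exact Finset.sum_congr rfl fun l _ => by ring
      _ = ∑ m, ∑ j, ∑ l, C m j * I j l * V m * W l := Finset.sum_comm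
      _ = ∑ m, ∑ l, ∑ j, C m j * I j l * V m * W l :=
          Finset.sum_congr rfl fun m _ => Finset.sum_comm
      _ = ∑ i, ∑ j, (∑ m, C i m * I m j) * V i * W j := by
          refine Finset.sum_congr rfl fun i _ => Finset.sum_congr rfl fun j _ => ?_
          rw [mul_assoc, Finset.sum_mul]
          exact Finset.sum_congr rfl fun l _ => by ring
  have e2 : ∑ j, (∑ m, C m j * W m) * ∑ l, I j l * V l
      = ∑ i, ∑ j, (∑ m, C j m * I i m) * V i * W j := by
    calc ∑ j, (∑ m, C m j * W m) * ∑ l, I j l * V l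
        = ∑ j, ∑ l, ∑ m, C m j * I l j * V l * W m := by
          refine Finset.sum_congr rfl fun j _ => ?_
          rw [mul_comm, Finset.sum_mul]
          refine Finset.sum_congr rfl fun l _ => ?_
          rw [Finset.mul_sum, hI j l]
          exact Finset.sum_congr rfl fun m _ => by ring
      _ = ∑ l, ∑ j, ∑ m, C m j * I l j * V l * W m := Finset.sum_comm
      _ = ∑ l, ∑ m, ∑ j, C m j * I l j * V l * W m :=
          Finset.sum_congr rfl fun m _ => Finset.sum_comm
      _ = ∑ i, ∑ j, (∑ m, C j m * I i m) * V i * W j := by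
          refine Finset.sum_congr rfl fun i _ => Finset.sum_congr rfl fun j _ => ?_
          rw [mul_assoc, Finset.sum_mul]
          exact Finset.sum_congr rfl fun l _ => by ring
  have e3 : ∑ j, HV j * ∑ l, I j l * W l = ∑ i, ∑ j, I i j * HV i * W j := by
    refine Finset.sum_congr rfl fun i _ => ?_
    rw [Finset.mul_sum]
    exact Finset.sum_congr rfl fun l _ => by ring
  have e4 : ∑ j, HW j * ∑ l, I j l * V l = ∑ i, ∑ j, I i j * V i * HW j := by
    calc ∑ j, HW j * ∑ l, I j l * V l = ∑ j, ∑ l, I l j * V l * HW j := by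
          refine Finset.sum_congr rfl fun j _ => ?_
          rw [Finset.mul_sum]
          refine Finset.sum_congr rfl fun l _ => ?_
          rw [hI j l]
          ring
      _ = ∑ i, ∑ j, I i j * V i * HW j := Finset.sum_comm
  have e5 : ∀ i j, ((-(∑ m, (C i m * I m j + C j m * I i m))) * V i + I i j * HV i) * W j
        + I i j * V i * HW j
      = I i j * HV i * W j + I i j * V i * HW j - (∑ m, C i m * I m j) * V i * W j
        - (∑ m, C j m * I i m) * V i * W j := by
    intro i j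
    rw [Finset.sum_add_distrib]
    ring
  have e6 : ∑ j, (HV j - ∑ m, C m j * V m) * ∑ l, I j l * W l
      = ∑ j, HV j * (∑ l, I j l * W l) - ∑ j, (∑ m, C m j * V m) * ∑ l, I j l * W l := by
    rw [← Finset.sum_sub_distrib]
    exact Finset.sum_congr rfl fun j _ => sub_mul _ _ _
  have e7 : ∑ j, (HW j - ∑ m, C m j * W m) * ∑ l, I j l * V l
      = ∑ j, HW j * (∑ l, I j l * V l) - ∑ j, (∑ m, C m j * W m) * ∑ l, I j l * V l := by
    rw [← Finset.sum_sub_distrib]
    exact Finset.sum_congr rfl fun j _ => sub_mul _ _ _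
  rw [e6, e7, e1, e2, e3, e4, Finset.sum_congr rfl fun i _ => Finset.sum_congr rfl fun j _ => e5 i j]
  simp only [Finset.sum_sub_distrib, Finset.sum_add_distrib]
  ring

theorem pd_ip (hU : IsOpen U) (hG : IsMetricOn U G) (hp : p ∈ U) (hu : ContDiffAt ℝ ∞ u p)
    (hw : ContDiffAt ℝ ∞ w p) (k : Fin n) :
    pd k (ip G u w) p =
      ∑ j, hess G u k j p * grad G w j p + ∑ j, hess G w k j p * grad G u j p := by
  have dI : ∀ i j, DifferentiableAt ℝ (fun q => (G q)⁻¹ i j) p := fun i j =>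
    diff_of_smooth (smooth_inv hG hp i j)
  have du : ∀ i, DifferentiableAt ℝ (pd i u) p := fun i => diff_of_smooth (smooth_pd hu i)
  have dw : ∀ i, DifferentiableAt ℝ (pd i w) p := fun i => diff_of_smooth (smooth_pd hw i)
  have h1 : pd k (ip G u w) p
      = ∑ i, ∑ j, (((-(∑ m, (christoffel G i k m p * (G p)⁻¹ m j
          + christoffel G j k m p * (G p)⁻¹ i m))) * pd i u p
          + (G p)⁻¹ i j * pd k (pd i u) p) * pd j w p
          + (G p)⁻¹ i j * pd i u p * pd k (pd j w) p) := by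
    have dd : ∀ i j, DifferentiableAt ℝ (fun q => (G q)⁻¹ i j * pd i u q * pd j w q) p :=
      fun i j => ((dI i j).fun_mul (du i)).fun_mul (dw j)
    refine (pd_sum (F := fun i q => ∑ j, (G q)⁻¹ i j * pd i u q * pd j w q) (fun i _ =>
      DifferentiableAt.fun_sum fun j _ => dd i j) k).trans ?_
    refine Finset.sum_congr rfl fun i _ => ?_
    refine (pd_sum (F := fun j q => (G q)⁻¹ i j * pd i u q * pd j w q) (fun j _ =>
      dd i j) k).trans ?_
    refine Finset.sum_congr rfl fun j _ => ?_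
    rw [pd_mul ((dI i j).fun_mul (du i)) (dw j), pd_mul (dI i j) (du i),
      compat_inv hU hG hp k i j]
  rw [h1]
  exact ip_alg (fun a b => (G p)⁻¹ a b) (fun a b => christoffel G a k b p)
    (fun i j => inv_symm hG hp i j) (fun i => pd i u p) (fun i => pd i w p)
    (fun i => pd k (pd i u) p) (fun i => pd k (pd i w) p)

end

end Pool.Agent.Helper73.HB
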