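import Pool.Agent.Helper73.HB.RicId
import Pool.Agent.Helper73.HB.Hup

/-! # The divergence of `(∇²u)(∇w, ·)` (HB-9)

PROOF. `Σᵢ ∂ᵢ(√g Vⁱ) = √g (Σᵢ ∂ᵢVⁱ + Σᵢₗ Γⁱᵢₗ Vˡ)` by `pd_mul`, `pd_dens`. With `Yⁱⱼ = hup G u i j`,
`Zʲ = grad G w j`, `Vⁱ = Σⱼ Yⁱⱼ Zʲ`: `Σᵢ ∂ᵢVⁱ + Σᵢₗ Γⁱᵢₗ Vˡ =
Σᵢⱼ (∂ᵢYⁱⱼ + Σₗ Γⁱᵢₗ Yˡⱼ - Σₗ Γˡᵢⱼ Yⁱₗ) Zʲ + Σᵢⱼ Yⁱⱼ (∂ᵢZʲ + Σₗ Γʲᵢₗ Zˡ)` (the two added terms cancel
after renaming). By `cov_grad` for `w` the second sum is `Σᵢⱼ Yⁱⱼ hup G w j i = hh G u w`. By
`cov_grad` for `u` (which holds at all points of the open set `U`, so the functions agree near `p`,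
`pd_congr`) and `ricci_identity` with `X = grad G u` the bracket is
`∂ⱼ(Σᵢ hup G u i i) + Σₖ ricci G k j Xᵏ`, and `Σᵢ hup G u i i = lap G u` on `U`. -/

namespace Pool.Agent.Helper73.HB

open scoped ContDiff Topology
open Pool.Agent.Helper49.Ric MeasureTheory Filter

noncomputable section

variable {n : ℕ} {U : Set (Fin n → ℝ)} {G : (Fin n → ℝ) → Matrix (Fin n) (Fin n) ℝ}
  {p : Fin n → ℝ} {u w : (Fin n → ℝ) → ℝ}

private theorem div_alg (Γ : Fin n → Fin n → Fin n → ℝ) (Y D W : Fin n → Fin n → ℝ)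
    (Z R : Fin n → ℝ)
    (hR : ∀ j, ∑ i, (D i j + ∑ l, Γ i i l * Y l j - ∑ l, Γ l i j * Y i l) = R j) :
    ∑ i, ((∑ l, Γ l l i) * (∑ j, Y i j * Z j)
        + ∑ j, (D i j * Z j + Y i j * (W j i - ∑ k, Γ j i k * Z k)))
      = ∑ i, ∑ j, Y i j * W j i + ∑ j, R j * Z j := by
  have h1 : ∑ i, (∑ l, Γ l l i) * (∑ j, Y i j * Z j)
      = ∑ j, (∑ i, ∑ l, Γ i i l * Y l j) * Z j := by
    calc ∑ i, (∑ l, Γ l l i) * (∑ j, Y i j * Z j)
        = ∑ i, ∑ j, ∑ l, Γ l l i * Y i j * Z j := by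
          refine Finset.sum_congr rfl fun i _ => ?_
          rw [Finset.mul_sum]
          refine Finset.sum_congr rfl fun j _ => ?_
          rw [Finset.sum_mul]
          exact Finset.sum_congr rfl fun l _ => by ring
      _ = ∑ j, ∑ i, ∑ l, Γ l l i * Y i j * Z j := Finset.sum_comm
      _ = ∑ j, ∑ l, ∑ i, Γ l l i * Y i j * Z j :=
          Finset.sum_congr rfl fun j _ => Finset.sum_comm
      _ = ∑ j, (∑ i, ∑ l, Γ i i l * Y l j) * Z j := by
          refine Finset.sum_congr rfl fun j _ => ?_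
          rw [Finset.sum_mul]
          refine Finset.sum_congr rfl fun l _ => ?_
          rw [Finset.sum_mul]
  have h2 : ∑ i, ∑ j, D i j * Z j = ∑ j, (∑ i, D i j) * Z j := by
    rw [Finset.sum_comm]
    exact Finset.sum_congr rfl fun j _ => (Finset.sum_mul _ _ _).symm
  have h3 : ∑ i, ∑ j, Y i j * ∑ k, Γ j i k * Z k
      = ∑ j, (∑ i, ∑ l, Γ l i j * Y i l) * Z j := by
    calc ∑ i, ∑ j, Y i j * ∑ k, Γ j i k * Z k
        = ∑ i, ∑ j, ∑ k, Γ j i k * Y i j * Z k := by
          refine Finset.sum_congr rfl fun i _ => Finset.sum_congr rfl fun j _ => ?_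
          rw [Finset.mul_sum]
          exact Finset.sum_congr rfl fun k _ => by ring
      _ = ∑ i, ∑ k, ∑ j, Γ j i k * Y i j * Z k :=
          Finset.sum_congr rfl fun i _ => Finset.sum_comm
      _ = ∑ k, ∑ i, ∑ j, Γ j i k * Y i j * Z k := Finset.sum_comm
      _ = ∑ j, (∑ i, ∑ l, Γ l i j * Y i l) * Z j := by
          refine Finset.sum_congr rfl fun j _ => ?_
          rw [Finset.sum_mul]
          refine Finset.sum_congr rfl fun l _ => ?_
          rw [Finset.sum_mul]
  have h4 : ∑ j, R j * Z j = ∑ j, (∑ i, D i j) * Z j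
      + ∑ j, (∑ i, ∑ l, Γ i i l * Y l j) * Z j - ∑ j, (∑ i, ∑ l, Γ l i j * Y i l) * Z j := by
    rw [← Finset.sum_add_distrib, ← Finset.sum_sub_distrib]
    refine Finset.sum_congr rfl fun j _ => ?_
    rw [← hR j, Finset.sum_sub_distrib, Finset.sum_add_distrib]
    ring
  have h5 : ∑ i, ∑ j, (D i j * Z j + Y i j * (W j i - ∑ k, Γ j i k * Z k))
      = ∑ i, ∑ j, D i j * Z j + (∑ i, ∑ j, Y i j * W j i
        - ∑ i, ∑ j, Y i j * ∑ k, Γ j i k * Z k) := by
    rw [← Finset.sum_sub_distrib, ← Finset.sum_add_distrib]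
    refine Finset.sum_congr rfl fun i _ => ?_
    rw [← Finset.sum_sub_distrib, ← Finset.sum_add_distrib]
    refine Finset.sum_congr rfl fun j _ => ?_
    ring
  rw [Finset.sum_add_distrib, h5, h1, h2, h3, h4]
  ring

theorem div_vv (hU : IsOpen U) (hG : IsMetricOn U G) (hu : ∀ q ∈ U, ContDiffAt ℝ ∞ u q)
    (hw : ∀ q ∈ U, ContDiffAt ℝ ∞ w q) (hp : p ∈ U) :
    ∑ i, pd i (fun q => dens G q * vv G u w i q) p =
      dens G p * (hh G u w p + rr G u w p + ip G (lap G u) w p) := by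
  have hUp : U ∈ 𝓝 p := hU.mem_nhds hp
  have hcu : ∀ q ∈ U, ∀ i j, pd j (grad G u i) q + ∑ k, christoffel G i j k q * grad G u k q
      = hup G u i j q := fun q hq i j => cov_grad hU hG hq (hu q hq) i j
  have hcw : ∀ i j, pd j (grad G w i) p
      = hup G w i j p - ∑ k, christoffel G i j k p * grad G w k p := fun i j => by
    rw [← cov_grad hU hG hp (hw p hp) i j]; ring
  -- the contracted Ricci identity
  have hR : ∀ j, ∑ i, (pd i (hup G u i j) p + ∑ l, christoffel G i i l p * hup G u l j p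
      - ∑ l, christoffel G l i j p * hup G u i l p) =
        ∑ k, ricci G k j p * grad G u k p + pd j (lap G u) p := by
    intro j
    rw [← ricci_identity hU hG hp (X := grad G u)
      (fun k => smooth_grad hG hp (hu p hp) k) j]
    have e0 : pd j (fun q => ∑ i, (pd i (grad G u i) q
        + ∑ k, christoffel G i i k q * grad G u k q)) p = pd j (lap G u) p := by
      have e1 : (fun q => ∑ i, (pd i (grad G u i) q
          + ∑ k, christoffel G i i k q * grad G u k q)) =ᶠ[𝓝 p] lap G u := by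
        filter_upwards [hUp] with q hq
        rw [Finset.sum_congr rfl fun i _ => hcu q hq i i, sum_hup hG hq]
      exact pd_congr e1 j
    rw [e0, sub_add_cancel]
    refine Finset.sum_congr rfl fun i _ => ?_
    have e2 : pd i (fun q => pd j (grad G u i) q
        + ∑ k, christoffel G i j k q * grad G u k q) p = pd i (hup G u i j) p := by
      refine pd_congr ?_ i
      filter_upwards [hUp] with q hq
      exact hcu q hq i j
    rw [e2]
    congr 1
    · congr 1
      exact Finset.sum_congr rfl fun l _ => by rw [hcu p hp l j]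
    · exact Finset.sum_congr rfl fun l _ => by rw [hcu p hp i l]
  have hd : ∀ i, pd i (fun q => dens G q * vv G u w i q) p
      = dens G p * ((∑ l, christoffel G l l i p) * (∑ j, hup G u i j p * grad G w j p)
        + ∑ j, (pd i (hup G u i j) p * grad G w j p
          + hup G u i j p * (hup G w j i p - ∑ k, christoffel G j i k p * grad G w k p))) := by
    intro i
    rw [pd_mul (diff_of_smooth (smooth_dens hG hp))
      (diff_of_smooth (smooth_vv hG hp (hu p hp) (hw p hp) i)), pd_dens hU hG hp i]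
    have e3 : pd i (vv G u w i) p = ∑ j, (pd i (hup G u i j) p * grad G w j p
        + hup G u i j p * (hup G w j i p - ∑ k, christoffel G j i k p * grad G w k p)) := by
      have e4 : pd i (vv G u w i) p
          = pd i (fun q => ∑ j, hup G u i j q * grad G w j q) p := rfl
      rw [e4, pd_sum (F := fun j q => hup G u i j q * grad G w j q)]
      · refine Finset.sum_congr rfl fun j _ => ?_
        rw [← hcw j i]
        exact pd_mul (diff_of_smooth (smooth_hup hG hp (hu p hp) i j))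
          (diff_of_smooth (smooth_grad hG hp (hw p hp) j)) i
      · intro j _
        exact (diff_of_smooth (smooth_hup hG hp (hu p hp) i j)).fun_mul
          (diff_of_smooth (smooth_grad hG hp (hw p hp) j))
    rw [e3]
    unfold vv
    ring
  rw [Finset.sum_congr rfl fun i _ => hd i, ← Finset.mul_sum,
    div_alg (fun i a b => christoffel G i a b p) (fun i j => hup G u i j p)
      (fun i j => pd i (hup G u i j) p) (fun i j => hup G w i j p) (fun j => grad G w j p)
      (fun j => ∑ k, ricci G k j p * grad G u k p + pd j (lap G u) p) hR]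
  congr 1
  have e5 : ip G (lap G u) w p = ∑ j, pd j (lap G u) p * grad G w j p := by
    unfold ip grad
    refine Finset.sum_congr rfl fun i _ => ?_
    rw [Finset.mul_sum]
    exact Finset.sum_congr rfl fun j _ => by ring
  rw [e5]
  unfold hh rr
  simp only [add_mul, Finset.sum_add_distrib]
  rw [add_assoc]
  congr 2
  rw [Finset.sum_comm]
  exact Finset.sum_congr rfl fun j _ => Finset.sum_mul _ _ _

theorem smooth_lap (hG : IsMetricOn U G) (hp : p ∈ U) (hu : ContDiffAt ℝ ∞ u p) :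
    ContDiffAt ℝ ∞ (lap G u) p := by
  unfold lap
  exact ContDiffAt.sum fun i _ => ContDiffAt.sum fun j _ =>
    (smooth_inv hG hp i j).mul (smooth_hess hG hp hu i j)

end

end Pool.Agent.Helper73.HB
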