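import Pool.Agent.Helper73.HB.Defs

/-! Calculus of the partial derivatives `pd`. -/

namespace Pool.Agent.Helper73.HB

open scoped ContDiff Topology
open Pool.Agent.Helper49.Ric MeasureTheory Filter

noncomputable section

variable {n : ℕ} {f h : (Fin n → ℝ) → ℝ} {p : Fin n → ℝ}

theorem pd_eq (hf : DifferentiableAt ℝ f p) (i : Fin n) :
    pd i f p = fderiv ℝ f p (Pi.single i 1) := by
  unfold pd
  exact hf.lineDeriv_eq_fderiv

theorem pd_congr (hfh : f =ᶠ[𝓝 p] h) (i : Fin n) : pd i f p = pd i h p := by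
  unfold pd
  exact hfh.lineDeriv_eq

theorem pd_congr_ev (hfh : f =ᶠ[𝓝 p] h) (i : Fin n) : pd i f =ᶠ[𝓝 p] pd i h := by
  filter_upwards [hfh.eventuallyEq_nhds] with q hq
  exact pd_congr hq i

theorem pd_const (c : ℝ) (i : Fin n) : pd i (fun _ => c) p = 0 := by
  rw [pd_eq (differentiableAt_const c)]
  simp

theorem pd_add (hf : DifferentiableAt ℝ f p) (hh : DifferentiableAt ℝ h p) (i : Fin n) :
    pd i (fun q => f q + h q) p = pd i f p + pd i h p := by
  rw [pd_eq (hf.fun_add hh), pd_eq hf, pd_eq hh, fderiv_fun_add hf hh]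
  rfl

theorem pd_sub (hf : DifferentiableAt ℝ f p) (hh : DifferentiableAt ℝ h p) (i : Fin n) :
    pd i (fun q => f q - h q) p = pd i f p - pd i h p := by
  rw [pd_eq (hf.fun_sub hh), pd_eq hf, pd_eq hh, fderiv_fun_sub hf hh]
  rfl

theorem pd_neg (hf : DifferentiableAt ℝ f p) (i : Fin n) :
    pd i (fun q => - f q) p = - pd i f p := by
  rw [pd_eq hf.fun_neg, pd_eq hf, fderiv_fun_neg]
  rfl

theorem pd_mul (hf : DifferentiableAt ℝ f p) (hh : DifferentiableAt ℝ h p) (i : Fin n) :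
    pd i (fun q => f q * h q) p = pd i f p * h p + f p * pd i h p := by
  rw [pd_eq (hf.fun_mul hh), pd_eq hf, pd_eq hh, fderiv_fun_mul hf hh]
  simp only [ContinuousLinearMap.add_apply, ContinuousLinearMap.smul_apply, smul_eq_mul]
  ring

theorem pd_const_mul (c : ℝ) (hf : DifferentiableAt ℝ f p) (i : Fin n) :
    pd i (fun q => c * f q) p = c * pd i f p := by
  rw [pd_mul (differentiableAt_const c) hf, pd_const]
  ring

theorem pd_sum {ι : Type*} {s : Finset ι} {F : ι → (Fin n → ℝ) → ℝ}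
    (hF : ∀ a ∈ s, DifferentiableAt ℝ (F a) p) (i : Fin n) :
    pd i (fun q => ∑ a ∈ s, F a q) p = ∑ a ∈ s, pd i (F a) p := by
  rw [pd_eq (DifferentiableAt.fun_sum hF), fderiv_fun_sum hF]
  rw [sum_apply]
  exact Finset.sum_congr rfl fun a ha => (pd_eq (hF a ha) i).symm

theorem differentiableAt_of {k : WithTop ℕ∞} (hf : ContDiffAt ℝ k f p) (hk : 1 ≤ k) :
    DifferentiableAt ℝ f p :=
  hf.differentiableAt (by positivity)

theorem diff_of_smooth (hf : ContDiffAt ℝ ∞ f p) : DifferentiableAt ℝ f p :=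
  hf.differentiableAt (by simp)

/-- the derivative of a function which is smooth at `p` is smooth at `p` -/
theorem smooth_pd (hf : ContDiffAt ℝ ∞ f p) (i : Fin n) : ContDiffAt ℝ ∞ (pd i f) p := by
  have h1 : ContDiffAt ℝ ∞ (fun q => fderiv ℝ f q (Pi.single i 1)) p := by
    have h2 : ContDiffAt ℝ ∞ (fderiv ℝ f) p := hf.fderiv_right (by simp)
    exact h2.clm_apply contDiffAt_const
  refine h1.congr_of_eventuallyEq ?_
  have h3 : ∀ᶠ q in 𝓝 p, ContDiffAt ℝ 1 f q := by
    have h4 : ContDiffAt ℝ 1 f p := hf.of_le (by exact_mod_cast le_top)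
    exact h4.eventually (by simp)
  filter_upwards [h3] with q hq
  exact pd_eq (hq.differentiableAt (by simp)) i

theorem pd_comm (hf : ContDiffAt ℝ ∞ f p) (i j : Fin n) :
    pd i (pd j f) p = pd j (pd i f) p := by
  have key : ∀ i j : Fin n, pd i (pd j f) p =
      fderiv ℝ (fderiv ℝ f) p (Pi.single i 1) (Pi.single j 1) := by
    intro i j
    have h3 : ∀ᶠ q in 𝓝 p, ContDiffAt ℝ 1 f q := by
      have h4 : ContDiffAt ℝ 1 f p := hf.of_le (by exact_mod_cast le_top)
      exact h4.eventually (by simp)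
    have h5 : pd j f =ᶠ[𝓝 p] fun q => fderiv ℝ f q (Pi.single j 1) := by
      filter_upwards [h3] with q hq
      exact pd_eq (hq.differentiableAt (by simp)) j
    have h2 : ContDiffAt ℝ ∞ (fderiv ℝ f) p := hf.fderiv_right (by simp)
    have h6 : DifferentiableAt ℝ (fderiv ℝ f) p := h2.differentiableAt (by simp)
    rw [pd_congr h5, pd_eq (h6.clm_apply (differentiableAt_const _))]
    rw [fderiv_clm_apply h6 (differentiableAt_const _)]
    simp
  rw [key, key]
  have h7 : ContDiffAt ℝ 2 f p := hf.of_le (by exact WithTop.coe_le_coe.mpr le_top)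
  exact (h7.isSymmSndFDerivAt (by simp)) _ _

theorem pd_inv (hf : DifferentiableAt ℝ f p) (h0 : f p ≠ 0) (i : Fin n) :
    pd i (fun q => (f q)⁻¹) p = - pd i f p / f p ^ 2 := by
  rw [pd_eq (hf.fun_inv h0), pd_eq hf]
  have h1 : HasFDerivAt (fun q => (f q)⁻¹) ((-(f p ^ 2)⁻¹) • fderiv ℝ f p) p :=
    (hasDerivAt_inv h0).comp_hasFDerivAt p hf.hasFDerivAt
  rw [h1.fderiv]
  simp only [ContinuousLinearMap.smul_apply, smul_eq_mul]
  ring

end

end Pool.Agent.Helper73.HB
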