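import Pool.Agent.Helper73.HB.Inv

/-! # Christoffel symbols: symmetry, smoothness, metric compatibility, derivative of the density
(HB-6)

PROOFS. On the open set `U` the metric is symmetric, so `∂ₖ gᵢⱼ = ∂ₖ gⱼᵢ` (`pd_congr` with an
eventual equality). `christoffel_symm`: swap `i` and `j` in the definition.
`smooth_christoffel`: sums and products of `smooth_inv`, `smooth_pd`.
`lower`: multiply the definition by `G p l m`, sum over `m`, use `mul_inv_metric`.
`compat`: `Σ_m (Γᵐ_ki g_mj + Γᵐ_kj g_im) = ½(∂ₖg_ij + ∂ᵢg_kj - ∂ⱼg_ki) + ½(∂ₖg_ji + ∂ⱼg_ki - ∂ᵢg_kj)`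
by `lower` and symmetry, which is `∂ₖ gᵢⱼ`.
`compat_inv`: insert `compat` into `pd_inv_metric` and contract with `mul_inv_metric`,
`inv_mul_metric`.
`dens_pos`, `smooth_dens`: `det_pos`, `smooth_det`, `ContDiffAt.sqrt`.
`pd_dens`: `∂ₖ √det = ∂ₖ det / (2 √det)`, `pd_det` and `compat`:
`Σ_ab gᵃᵇ ∂ₖ g_ab = 2 Σᵢ Γⁱₖᵢ`. -/

namespace Pool.Agent.Helper73.HB

open scoped ContDiff Topology
open Pool.Agent.Helper49.Ric MeasureTheory Filter

noncomputable section

variable {n : ℕ} {U : Set (Fin n → ℝ)} {G : (Fin n → ℝ) → Matrix (Fin n) (Fin n) ℝ}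
  {p : Fin n → ℝ}

private theorem pd_symm (hU : IsOpen U) (hG : IsMetricOn U G) (hp : p ∈ U) (k i j : Fin n) :
    pd k (fun q => G q i j) p = pd k (fun q => G q j i) p := by
  refine pd_congr ?_ k
  filter_upwards [hU.mem_nhds hp] with q hq
  exact hG.symm q hq i j

theorem christoffel_symm (hU : IsOpen U) (hG : IsMetricOn U G) (hp : p ∈ U) (m i j : Fin n) :
    christoffel G m i j p = christoffel G m j i p := by
  unfold christoffel
  congr 1
  refine Finset.sum_congr rfl fun l _ => ?_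
  rw [pd_symm hU hG hp l i j]
  ring

theorem smooth_christoffel (hG : IsMetricOn U G) (hp : p ∈ U) (m i j : Fin n) :
    ContDiffAt ℝ ∞ (christoffel G m i j) p := by
  change ContDiffAt ℝ ∞ (fun q => (1 / 2) * ∑ l, (G q)⁻¹ m l *
    (pd i (fun q => G q j l) q + pd j (fun q => G q i l) q - pd l (fun q => G q i j) q)) p
  refine contDiffAt_const.mul (ContDiffAt.sum fun l _ => ?_)
  refine (smooth_inv hG hp m l).mul ?_
  exact ((smooth_pd (hG.smooth p hp j l) i).add (smooth_pd (hG.smooth p hp i l) j)).sub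
    (smooth_pd (hG.smooth p hp i j) l)

theorem lower (hG : IsMetricOn U G) (hp : p ∈ U) (l i j : Fin n) :
    ∑ m, G p l m * christoffel G m i j p =
      (1 / 2) * (pd i (fun q => G q j l) p + pd j (fun q => G q i l) p
        - pd l (fun q => G q i j) p) := by
  have h1 : ∀ m, G p l m * christoffel G m i j p = ∑ s, (1 / 2) * ((G p l m * (G p)⁻¹ m s) *
      (pd i (fun q => G q j s) p + pd j (fun q => G q i s) p - pd s (fun q => G q i j) p)) := by
    intro m
    unfold christoffel
    rw [← Finset.mul_sum, Finset.mul_sum, Finset.mul_sum, Finset.mul_sum]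
    refine Finset.sum_congr rfl fun s _ => ?_
    ring
  rw [Finset.sum_congr rfl fun m _ => h1 m, Finset.sum_comm]
  have h2 : ∀ s, ∑ m, (1 / 2) * ((G p l m * (G p)⁻¹ m s) *
      (pd i (fun q => G q j s) p + pd j (fun q => G q i s) p - pd s (fun q => G q i j) p)) =
      if l = s then (1 / 2) * (pd i (fun q => G q j s) p + pd j (fun q => G q i s) p
        - pd s (fun q => G q i j) p) else 0 := by
    intro s
    rw [← Finset.mul_sum, ← Finset.sum_mul, mul_inv_metric hG hp l s]
    split_ifs with h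
    · rw [one_mul]
    · rw [zero_mul, mul_zero]
  rw [Finset.sum_congr rfl fun s _ => h2 s, Finset.sum_ite_eq]
  simp

theorem compat (hU : IsOpen U) (hG : IsMetricOn U G) (hp : p ∈ U) (k i j : Fin n) :
    pd k (fun q => G q i j) p =
      ∑ m, (christoffel G m k i p * G p m j + christoffel G m k j p * G p i m) := by
  have h1 := lower hG hp j k i
  have h2 := lower hG hp i k j
  have h3 : ∑ m, (christoffel G m k i p * G p m j + christoffel G m k j p * G p i m) =
      ∑ m, G p j m * christoffel G m k i p + ∑ m, G p i m * christoffel G m k j p := by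
    rw [← Finset.sum_add_distrib]
    refine Finset.sum_congr rfl fun m _ => ?_
    rw [hG.symm p hp m j]
    ring
  rw [h3, h1, h2, pd_symm hU hG hp k j i]
  ring

/-- `compat` as an identity of matrices. -/
private theorem compat_mat (hU : IsOpen U) (hG : IsMetricOn U G) (hp : p ∈ U) (k : Fin n)
    {D C : Matrix (Fin n) (Fin n) ℝ} (hD : D = fun a b => pd k (fun q => G q a b) p)
    (hC : C = fun m a => christoffel G m k a p) : D = C.transpose * G p + G p * C := by
  ext a b
  rw [Matrix.add_apply, Matrix.mul_apply, Matrix.mul_apply, ← Finset.sum_add_distrib]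
  have h1 : D a b = pd k (fun q => G q a b) p := by rw [hD]
  rw [h1, compat hU hG hp k a b]
  refine Finset.sum_congr rfl fun m _ => ?_
  rw [Matrix.transpose_apply, hC]
  ring

theorem compat_inv (hU : IsOpen U) (hG : IsMetricOn U G) (hp : p ∈ U) (k i j : Fin n) :
    pd k (fun q => (G q)⁻¹ i j) p =
      - ∑ m, (christoffel G i k m p * (G p)⁻¹ m j + christoffel G j k m p * (G p)⁻¹ i m) := by
  obtain ⟨D, hD⟩ : ∃ D : Matrix (Fin n) (Fin n) ℝ,
      D = fun a b => pd k (fun q => G q a b) p := ⟨_, rfl⟩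
  obtain ⟨C, hC⟩ : ∃ C : Matrix (Fin n) (Fin n) ℝ,
      C = fun m a => christoffel G m k a p := ⟨_, rfl⟩
  have h1 := compat_mat hU hG hp k hD hC
  have hu : IsUnit (G p).det := (det_pos hG hp).ne'.isUnit
  have h2 : (G p)⁻¹ * D * (G p)⁻¹ = (G p)⁻¹ * C.transpose + C * (G p)⁻¹ := by
    rw [h1, Matrix.mul_add, Matrix.add_mul, ← Matrix.mul_assoc, Matrix.mul_assoc _ (G p) (G p)⁻¹,
      Matrix.mul_nonsing_inv _ hu, Matrix.mul_one, ← Matrix.mul_assoc,
      Matrix.nonsing_inv_mul _ hu, Matrix.one_mul]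
  rw [pd_inv_metric hU hG hp k i j]
  congr 1
  have h3 : ∑ a, ∑ b, (G p)⁻¹ i a * pd k (fun q => G q a b) p * (G p)⁻¹ b j =
      ((G p)⁻¹ * D * (G p)⁻¹) i j := by
    rw [Matrix.mul_apply, Finset.sum_comm]
    refine Finset.sum_congr rfl fun b _ => ?_
    rw [Matrix.mul_apply, Finset.sum_mul]
    refine Finset.sum_congr rfl fun a _ => ?_
    rw [hD]
  rw [h3, h2, Matrix.add_apply, Matrix.mul_apply, Matrix.mul_apply, ← Finset.sum_add_distrib]
  refine Finset.sum_congr rfl fun m _ => ?_
  rw [Matrix.transpose_apply, hC]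
  ring

theorem dens_pos (hG : IsMetricOn U G) (hp : p ∈ U) : 0 < dens G p :=
  Real.sqrt_pos.2 (det_pos hG hp)

theorem smooth_dens (hG : IsMetricOn U G) (hp : p ∈ U) : ContDiffAt ℝ ∞ (dens G) p :=
  (smooth_det hG hp).sqrt (det_pos hG hp).ne'

theorem pd_dens (hU : IsOpen U) (hG : IsMetricOn U G) (hp : p ∈ U) (k : Fin n) :
    pd k (dens G) p = dens G p * ∑ i, christoffel G i i k p := by
  obtain ⟨D, hD⟩ : ∃ D : Matrix (Fin n) (Fin n) ℝ,
      D = fun a b => pd k (fun q => G q a b) p := ⟨_, rfl⟩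
  obtain ⟨C, hC⟩ : ∃ C : Matrix (Fin n) (Fin n) ℝ,
      C = fun m a => christoffel G m k a p := ⟨_, rfl⟩
  have h1 := compat_mat hU hG hp k hD hC
  have hu : IsUnit (G p).det := (det_pos hG hp).ne'.isUnit
  have hdet : 0 < (G p).det := det_pos hG hp
  have hd : DifferentiableAt ℝ (fun q => (G q).det) p := diff_of_smooth (smooth_det hG hp)
  have h2 : HasFDerivAt (dens G)
      ((1 / (2 * Real.sqrt (G p).det)) • fderiv ℝ (fun q => (G q).det) p) p :=
    hd.hasFDerivAt.sqrt hdet.ne'
  have h3 : pd k (dens G) p = 1 / (2 * Real.sqrt (G p).det) * pd k (fun q => (G q).det) p := by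
    rw [pd_eq h2.differentiableAt, h2.fderiv, pd_eq hd]
    rfl
  have h4 : ∑ a, ∑ b, (G p)⁻¹ b a * pd k (fun q => G q a b) p = 2 * ∑ i, christoffel G i i k p := by
    have h5 : ∑ a, ∑ b, (G p)⁻¹ b a * pd k (fun q => G q a b) p = ((G p)⁻¹ * D).trace := by
      rw [Matrix.trace, Finset.sum_comm]
      refine Finset.sum_congr rfl fun b _ => ?_
      rw [Matrix.diag_apply, Matrix.mul_apply]
      refine Finset.sum_congr rfl fun a _ => ?_
      rw [hD]
    have h6 : ((G p)⁻¹ * D).trace = C.trace + C.trace := by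
      rw [h1, Matrix.mul_add, Matrix.trace_add, ← Matrix.mul_assoc, Matrix.trace_mul_comm,
        ← Matrix.mul_assoc, Matrix.mul_nonsing_inv _ hu, Matrix.one_mul, Matrix.trace_transpose,
        ← Matrix.mul_assoc, Matrix.nonsing_inv_mul _ hu, Matrix.one_mul]
    rw [h5, h6, ← two_mul]
    congr 1
    rw [Matrix.trace]
    refine Finset.sum_congr rfl fun i _ => ?_
    rw [Matrix.diag_apply, hC]
    exact christoffel_symm hU hG hp i k i
  rw [h3, pd_det hG hp k, h4]
  have hs : 0 < Real.sqrt (G p).det := Real.sqrt_pos.2 hdet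
  have hs2 : Real.sqrt (G p).det * Real.sqrt (G p).det = (G p).det := Real.mul_self_sqrt hdet.le
  have hd2 : dens G p = Real.sqrt (G p).det := rfl
  rw [hd2]
  have h7 : 1 / (2 * Real.sqrt (G p).det) * (G p).det = Real.sqrt (G p).det / 2 := by
    rw [div_mul_eq_mul_div, one_mul, div_eq_div_iff (by positivity) (by norm_num)]
    linear_combination -2 * hs2
  linear_combination (2 * ∑ i, christoffel G i i k p) * h7

end

end Pool.Agent.Helper73.HB
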