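import Mathlib
import Pool.Agent.Helper49.Ric.Defs

/-!
# Riemannian metrics on an open subset of `ℝⁿ`

Gradient, covariant Hessian, Laplacian, scalar curvature, volume measure and geodesic balls of a
smooth Riemannian metric on an open subset `U` of `ℝⁿ`, in coordinates.  The partial derivatives,
the Christoffel symbols, the Ricci tensor and the length of curves are those of
`Pool.Agent.Helper49.Ric.Defs`.
-/

namespace Pool.Agent.Helper73.HB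

open scoped ContDiff
open Pool.Agent.Helper49.Ric MeasureTheory

noncomputable section

variable {n : ℕ}

/-- `G` is a smooth Riemannian metric on the subset `U` of `ℝⁿ` (used for open `U`). -/
structure IsMetricOn (U : Set (Fin n → ℝ)) (G : (Fin n → ℝ) → Matrix (Fin n) (Fin n) ℝ) :
    Prop where
  smooth : ∀ p ∈ U, ∀ i j, ContDiffAt ℝ ∞ (fun q => G q i j) p
  symm : ∀ p ∈ U, ∀ i j, G p i j = G p j i
  pos : ∀ p ∈ U, ∀ v : Fin n → ℝ, v ≠ 0 → 0 < ∑ i, ∑ j, G p i j * v i * v j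

/-- The `i`-th component `Σⱼ gⁱʲ ∂ⱼu` of the gradient of `u`. -/
def grad (G : (Fin n → ℝ) → Matrix (Fin n) (Fin n) ℝ) (u : (Fin n → ℝ) → ℝ) (i : Fin n)
    (p : Fin n → ℝ) : ℝ :=
  ∑ j, (G p)⁻¹ i j * pd j u p

/-- The covariant Hessian `∂ᵢ∂ⱼu - Σₘ Γᵐᵢⱼ ∂ₘu`. -/
def hess (G : (Fin n → ℝ) → Matrix (Fin n) (Fin n) ℝ) (u : (Fin n → ℝ) → ℝ) (i j : Fin n)
    (p : Fin n → ℝ) : ℝ :=
  pd i (pd j u) p - ∑ m, christoffel G m i j p * pd m u p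

/-- The Laplacian `Σᵢⱼ gⁱʲ (∇²u)ᵢⱼ`. -/
def lap (G : (Fin n → ℝ) → Matrix (Fin n) (Fin n) ℝ) (u : (Fin n → ℝ) → ℝ)
    (p : Fin n → ℝ) : ℝ :=
  ∑ i, ∑ j, (G p)⁻¹ i j * hess G u i j p

/-- The scalar curvature `Σᵢⱼ gⁱʲ Rᵢⱼ`. -/
def scal (G : (Fin n → ℝ) → Matrix (Fin n) (Fin n) ℝ) (p : Fin n → ℝ) : ℝ :=
  ∑ i, ∑ j, (G p)⁻¹ i j * ricci G i j p

/-- The Riemannian volume density. -/
def dens (G : (Fin n → ℝ) → Matrix (Fin n) (Fin n) ℝ) (p : Fin n → ℝ) : ℝ :=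
  Real.sqrt (G p).det

/-- The Riemannian volume measure. -/
def vol (G : (Fin n → ℝ) → Matrix (Fin n) (Fin n) ℝ) : Measure (Fin n → ℝ) :=
  volume.withDensity (fun p => ENNReal.ofReal (dens G p))

/-- The open geodesic ball of radius `r` about `x` in `(U, G)`: the points joined to `x` by a
`C¹` curve in `U` of length less than `r`. -/
def gball (U : Set (Fin n → ℝ)) (G : (Fin n → ℝ) → Matrix (Fin n) (Fin n) ℝ) (x : Fin n → ℝ)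
    (r : ℝ) : Set (Fin n → ℝ) :=
  {p | ∃ γ : ℝ → Fin n → ℝ, ContDiff ℝ 1 γ ∧ γ 0 = x ∧ γ 1 = p ∧
    (∀ t ∈ Set.Icc (0 : ℝ) 1, γ t ∈ U) ∧ curveLength G γ < r}

/-- The matrix `gⁱʲ ∂ᵢu ∂ⱼw`: inner product of the gradients. -/
def ip (G : (Fin n → ℝ) → Matrix (Fin n) (Fin n) ℝ) (u w : (Fin n → ℝ) → ℝ)
    (p : Fin n → ℝ) : ℝ :=
  ∑ i, ∑ j, (G p)⁻¹ i j * pd i u p * pd j w p

/-- The endomorphism form `Yⁱⱼ = Σₖ gⁱᵏ (∇²u)ₖⱼ` of the Hessian. -/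
def hup (G : (Fin n → ℝ) → Matrix (Fin n) (Fin n) ℝ) (u : (Fin n → ℝ) → ℝ) (i j : Fin n)
    (p : Fin n → ℝ) : ℝ :=
  ∑ k, (G p)⁻¹ i k * hess G u k j p

/-- The pairing `Σᵢⱼ (Y_u)ⁱⱼ (Y_w)ʲᵢ = ⟨∇²u, ∇²w⟩` of two Hessians. -/
def hh (G : (Fin n → ℝ) → Matrix (Fin n) (Fin n) ℝ) (u w : (Fin n → ℝ) → ℝ)
    (p : Fin n → ℝ) : ℝ :=
  ∑ i, ∑ j, hup G u i j p * hup G w j i p

/-- `Ric(∇u, ∇w)`. -/
def rr (G : (Fin n → ℝ) → Matrix (Fin n) (Fin n) ℝ) (u w : (Fin n → ℝ) → ℝ)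
    (p : Fin n → ℝ) : ℝ :=
  ∑ k, ∑ j, ricci G k j p * grad G u k p * grad G w j p

/-- The vector field `Vⁱ = Σⱼ (Y_u)ⁱⱼ (∇w)ʲ`, that is `(∇²u)(∇w, ·)` with the index raised. -/
def vv (G : (Fin n → ℝ) → Matrix (Fin n) (Fin n) ℝ) (u w : (Fin n → ℝ) → ℝ) (i : Fin n)
    (p : Fin n → ℝ) : ℝ :=
  ∑ j, hup G u i j p * grad G w j p

end

end Pool.Agent.Helper73.HB
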