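import Pool.Agent.Helper73.HB.Weak
import Pool.Agent.Helper73.HB.Extra

/-! # The energy estimate for functions with bounded gradient of the Laplacian (HB-17) -/

namespace Pool.Agent.Helper73.HB

open scoped ContDiff Topology NNReal
open Pool.Agent.Helper49.Ric MeasureTheory Filter

noncomputable section

variable {n N : ℕ} {U : Set (Fin n → ℝ)} {G : (Fin n → ℝ) → Matrix (Fin n) (Fin n) ℝ}
  {u : Fin N → (Fin n → ℝ) → ℝ} {η η₁ η₂ : (Fin n → ℝ) → ℝ} {lam A s : ℝ}

/-- functions with `|∇u_a| ≤ 1` and `|∇Δu_a| ≤ A` on an open set with `Ric ≥ -lam` -/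
structure Setup (U : Set (Fin n → ℝ)) (G : (Fin n → ℝ) → Matrix (Fin n) (Fin n) ℝ) (lam A : ℝ)
    (u : Fin N → (Fin n → ℝ) → ℝ) : Prop where
  hU : IsOpen U
  hG : IsMetricOn U G
  hlam : 0 ≤ lam
  hRic : ∀ p ∈ U, ∀ v : Fin n → ℝ, -lam * ∑ i, ∑ j, G p i j * v i * v j ≤
    ∑ i, ∑ j, ricci G i j p * v i * v j
  hu : ∀ a, ∀ q ∈ U, ContDiffAt ℝ ∞ (u a) q
  hA : 0 ≤ A
  h0 : ∀ a, ∀ q ∈ U, ip G (lap G (u a)) (lap G (u a)) q ≤ A ^ 2
  h1 : ∀ a, ∀ q ∈ U, ip G (u a) (u a) q ≤ 1

/-- cutoff functions -/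
structure IsCut (U : Set (Fin n → ℝ)) (G : (Fin n → ℝ) → Matrix (Fin n) (Fin n) ℝ) (s : ℝ)
    (η : (Fin n → ℝ) → ℝ) : Prop where
  lip : ∃ L : ℝ≥0, LipschitzWith L η
  cpt : HasCompactSupport η
  supp : tsupport η ⊆ U
  nonneg : ∀ p, 0 ≤ η p
  le_one : ∀ p, η p ≤ 1
  grad : ∀ᵐ p, p ∈ U → ∑ i, ∑ j, (G p)⁻¹ i j * pd i η p * pd j η p ≤ s ^ 2

theorem lip_sq (h : IsCut U G s η) : ∃ L : ℝ≥0, LipschitzWith L (fun p => η p ^ 2) := by
  obtain ⟨L, hL⟩ := h.lip
  refine ⟨2 * L, LipschitzWith.of_dist_le_mul fun p q => ?_⟩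
  have h1 := hL.dist_le_mul p q
  rw [Real.dist_eq] at h1 ⊢
  have h2 : η p ^ 2 - η q ^ 2 = (η p + η q) * (η p - η q) := by ring
  rw [h2, abs_mul]
  have h3 : |η p + η q| ≤ 2 := by
    rw [abs_of_nonneg (add_nonneg (h.nonneg p) (h.nonneg q))]
    linarith [h.le_one p, h.le_one q]
  calc |η p + η q| * |η p - η q| ≤ 2 * (L * dist p q) :=
        mul_le_mul h3 h1 (abs_nonneg _) (by norm_num)
    _ = ((2 * L : ℝ≥0) : ℝ) * dist p q := by push_cast; ring

theorem tsupport_sq : tsupport (fun p => η p ^ 2) = tsupport η := by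
  unfold tsupport
  congr 1
  ext p
  simp

theorem cpt_sq (h : IsCut U G s η) : HasCompactSupport (fun p => η p ^ 2) := by
  unfold HasCompactSupport
  rw [tsupport_sq]
  exact h.cpt

theorem ae_pd_sq (h : IsCut U G s η) :
    ∀ᵐ p, ∀ i, pd i (fun p => η p ^ 2) p = 2 * η p * pd i η p := by
  obtain ⟨L, hL⟩ := h.lip
  filter_upwards [hL.ae_differentiableAt] with p hp i
  have : (fun p => η p ^ 2) = fun p => η p * η p := by funext p; ring
  rw [this, pd_mul hp hp]
  ring

/-- volume of the support -/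
def mass (G : (Fin n → ℝ) → Matrix (Fin n) (Fin n) ℝ) (A : Set (Fin n → ℝ)) : ℝ :=
  ∫ p in A, dens G p

theorem cont_dens (hG : IsMetricOn U G) : ∀ p ∈ U, ContinuousAt (dens G) p :=
  fun _ hp => (smooth_dens hG hp).continuousAt

theorem integrableOn_dens (hG : IsMetricOn U G) (h : IsCut U G s η) :
    IntegrableOn (dens G) (tsupport η) := by
  apply ContinuousOn.integrableOn_compact h.cpt
  intro p hp
  exact (cont_dens hG p (h.supp hp)).continuousWithinAt

theorem integrable_ind (hG : IsMetricOn U G) (h : IsCut U G s η) (c : ℝ) :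
    Integrable (fun p => c * (tsupport η).indicator (dens G) p) := by
  apply Integrable.const_mul
  rw [integrable_indicator_iff (isClosed_tsupport η).measurableSet]
  exact integrableOn_dens hG h

theorem integral_ind (c : ℝ) :
    ∫ p, c * (tsupport η).indicator (dens G) p = c * mass G (tsupport η) := by
  rw [integral_const_mul, integral_indicator (isClosed_tsupport η).measurableSet]
  rfl

/-- integrability of the flux term -/
theorem integrable_flux (hG : IsMetricOn U G) (hu : ∀ a, ∀ q ∈ U, ContDiffAt ℝ ∞ (u a) q)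
    {ψ : (Fin n → ℝ) → ℝ} {L : ℝ≥0} (hψ : LipschitzWith L ψ) (hc : HasCompactSupport ψ)
    (hs : tsupport ψ ⊆ U) {W : Fin N → Fin N → (Fin n → ℝ) → ℝ}
    (hW : ∀ a b, ∀ q ∈ U, ContDiffAt ℝ ∞ (W a b) q) :
    Integrable (fun p => (∑ a, ∑ b, W a b p * ∑ i, vv G (u a) (u b) i p * pd i ψ p)
      * dens G p) := by
  have h1 : (fun p => (∑ a, ∑ b, W a b p * ∑ i, vv G (u a) (u b) i p * pd i ψ p) * dens G p)
      = fun p => ∑ a, ∑ b, ∑ i, pd i ψ p * (W a b p * vv G (u a) (u b) i p * dens G p) := by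
    funext p
    simp only [Finset.sum_mul, Finset.mul_sum]
    refine Finset.sum_congr rfl fun a _ => Finset.sum_congr rfl fun b _ =>
      Finset.sum_congr rfl fun i _ => by ring
  rw [h1]
  refine integrable_finsetSum _ fun a _ => integrable_finsetSum _ fun b _ =>
    integrable_finsetSum _ fun i _ => ?_
  apply integrable_pd_mul hψ hc hs
  intro p hp
  exact (((hW a b p hp).mul (smooth_vv hG hp (hu a p hp) (hu b p hp) i)).mul
    (smooth_dens hG hp)).continuousAt

theorem flux_zero {p : Fin n → ℝ} {ψ : (Fin n → ℝ) → ℝ} (h : ∀ i, pd i ψ p = 0)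
    (W : Fin N → Fin N → ℝ) :
    ∑ a, ∑ b, W a b * ∑ i, vv G (u a) (u b) i p * pd i ψ p = 0 := by
  simp [h]

theorem energy_one (hS : Setup U G lam A u) (h : IsCut U G s η) :
    ∫ p, η p ^ 2 * ((∑ a, hh G (u a) (u a) p) * dens G p) ≤
      N * (4 * s ^ 2 + 2 * lam + 2 * A) * mass G (tsupport η) := by
  classical
  obtain ⟨L, hL⟩ := lip_sq h
  have hc := cpt_sq h
  have hsup : tsupport (fun p => η p ^ 2) ⊆ U := by rw [tsupport_sq]; exact h.supp
  set W : Fin N → Fin N → (Fin n → ℝ) → ℝ := fun a b _ => if a = b then 1 else 0 with hWdef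
  have hW : ∀ a b, ∀ q ∈ U, ContDiffAt ℝ ∞ (W a b) q := fun a b q _ => contDiffAt_const
  have key := weak_bochner hS.hU hS.hG hS.hu hL hc hsup hW
  have e1 : ∀ p, (∑ a, ∑ b, (W a b p * (hh G (u a) (u b) p + rr G (u a) (u b) p
        + ip G (lap G (u a)) (u b) p) + ∑ i, pd i (W a b) p * vv G (u a) (u b) i p))
      = ∑ a, (hh G (u a) (u a) p + rr G (u a) (u a) p + ip G (lap G (u a)) (u a) p) := by
    intro p
    refine Finset.sum_congr rfl fun a _ => ?_
    have h2 : ∀ b i, pd i (W a b) p = 0 := fun b i => pd_const _ i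
    simp only [h2, zero_mul, Finset.sum_const_zero, add_zero]
    simp [hWdef]
  have e2 : ∀ p, (∑ a, ∑ b, W a b p * ∑ i, vv G (u a) (u b) i p * pd i (fun p => η p ^ 2) p)
      = ∑ a, ∑ i, vv G (u a) (u a) i p * pd i (fun p => η p ^ 2) p := by
    intro p
    refine Finset.sum_congr rfl fun a _ => ?_
    simp [hWdef]
  have i1 := integrable_flux hS.hG hS.hu hL hc hsup hW
  simp only [e1, e2] at key i1
  have i2 : Integrable (fun p => η p ^ 2 * ((∑ a, (hh G (u a) (u a) p + rr G (u a) (u a) p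
      + ip G (lap G (u a)) (u a) p)) * dens G p)) := by
    apply integrable_mul hL hc hsup
    intro p hp
    exact ((ContDiffAt.sum fun a _ => ((smooth_hh hS.hG hp (hS.hu a p hp) (hS.hu a p hp)).add
      (smooth_rr hS.hG hp (hS.hu a p hp) (hS.hu a p hp))).add
      (smooth_ip hS.hG hp (smooth_lap hS.hG hp (hS.hu a p hp)) (hS.hu a p hp))).mul
      (smooth_dens hS.hG hp)).continuousAt
  have i3 : Integrable (fun p => η p ^ 2 * ((∑ a, hh G (u a) (u a) p) * dens G p)) := by
    apply integrable_mul hL hc hsup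
    intro p hp
    exact ((ContDiffAt.sum fun a _ => smooth_hh hS.hG hp (hS.hu a p hp) (hS.hu a p hp)).mul
      (smooth_dens hS.hG hp)).continuousAt
  have i4 := integrable_ind (s := s) hS.hG h (N * (2 * s ^ 2 + lam + A))
  have ptw : ∀ᵐ p, (1 / 2) * (η p ^ 2 * ((∑ a, hh G (u a) (u a) p) * dens G p)) ≤
      η p ^ 2 * ((∑ a, (hh G (u a) (u a) p + rr G (u a) (u a) p
        + ip G (lap G (u a)) (u a) p)) * dens G p)
      + (∑ a, ∑ i, vv G (u a) (u a) i p * pd i (fun p => η p ^ 2) p) * dens G p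
      + (N * (2 * s ^ 2 + lam + A)) * (tsupport η).indicator (dens G) p := by
    filter_upwards [ae_pd_sq h, h.grad] with p hp1 hp2
    by_cases hp : p ∈ tsupport η
    · have hpU := h.supp hp
      rw [Set.indicator_of_mem hp]
      have hd := dens_pos hS.hG hpU
      have hg := hp2 hpU
      have h3 : ∀ a, (1 / 2) * (η p ^ 2 * hh G (u a) (u a) p) ≤
          η p ^ 2 * (hh G (u a) (u a) p + rr G (u a) (u a) p + ip G (lap G (u a)) (u a) p)
          + ∑ i, vv G (u a) (u a) i p * pd i (fun p => η p ^ 2) p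
          + (2 * s ^ 2 + lam + A) := by
        intro a
        have hhn := hh_nonneg hS.hU hS.hG hpU (hS.hu a p hpU)
        have hip := ip_nonneg (f := u a) hS.hG hpU
        have hip1 := hS.h1 a p hpU
        have hf := flux_one hS.hU hS.hG hpU (hS.hu a p hpU) (fun i => pd i η p)
        have hr := rr_one_lower (f := u a) hS.hG hpU (hS.hRic p hpU)
        have e3 : ∑ i, vv G (u a) (u a) i p * pd i (fun p => η p ^ 2) p =
            2 * η p * ∑ i, vv G (u a) (u a) i p * pd i η p := by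
          rw [Finset.mul_sum]
          exact Finset.sum_congr rfl fun i _ => by rw [hp1 i]; ring
        rw [e3]
        set y := ∑ i, vv G (u a) (u a) i p * pd i η p with hy
        set H := hh G (u a) (u a) p with hH
        set g := ∑ i, ∑ j, (G p)⁻¹ i j * pd i η p * pd j η p with hgdef
        have hy2 : y ^ 2 ≤ s ^ 2 * H := by
          have h4 : g * (H * ip G (u a) (u a) p) ≤ s ^ 2 * (H * 1) := by
            apply mul_le_mul hg _ (mul_nonneg hhn hip) (sq_nonneg s)
            exact mul_le_mul_of_nonneg_left hip1 hhn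
          calc y ^ 2 ≤ g * (H * ip G (u a) (u a) p) := hf
            _ ≤ s ^ 2 * (H * 1) := h4
            _ = s ^ 2 * H := by ring
        have hη := h.nonneg p
        have hη1 := h.le_one p
        have hA : 0 ≤ (1 / 2) * (η p ^ 2 * H) + 2 * s ^ 2 := by positivity
        have hsq : (2 * η p * y) ^ 2 ≤ ((1 / 2) * (η p ^ 2 * H) + 2 * s ^ 2) ^ 2 := by
          have h5 : (2 * η p * y) ^ 2 ≤ 4 * η p ^ 2 * (s ^ 2 * H) := by
            have : (2 * η p * y) ^ 2 = 4 * η p ^ 2 * y ^ 2 := by ring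
            rw [this]
            exact mul_le_mul_of_nonneg_left hy2 (by positivity)
          nlinarith [sq_nonneg ((1 / 2) * (η p ^ 2 * H) - 2 * s ^ 2)]
        have habs := abs_le_of_sq_le_sq hsq hA
        have h6 := (abs_le.mp habs).1
        have h7 : -lam ≤ rr G (u a) (u a) p := by
          have : lam * ip G (u a) (u a) p ≤ lam * 1 := mul_le_mul_of_nonneg_left hip1 hS.hlam
          linarith
        have h9 : η p ^ 2 ≤ 1 := by nlinarith
        have h8A : -A ≤ η p ^ 2 * ip G (lap G (u a)) (u a) p := by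
          have hcs := ip_cs (f := lap G (u a)) (h := u a) hS.hG hpU
          have hA0 := ip_nonneg (f := lap G (u a)) hS.hG hpU
          have hA1 := hS.h0 a p hpU
          have h12 : ip G (lap G (u a)) (u a) p ^ 2 ≤ A ^ 2 := by
            calc ip G (lap G (u a)) (u a) p ^ 2 ≤ ip G (lap G (u a)) (lap G (u a)) p *
                  ip G (u a) (u a) p := hcs
              _ ≤ A ^ 2 * 1 := mul_le_mul hA1 hip1 hip (sq_nonneg A)
              _ = A ^ 2 := mul_one _
          have h13 := (abs_le.mp (abs_le_of_sq_le_sq h12 hS.hA)).1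
          have h14 : η p ^ 2 * (-A) ≤ η p ^ 2 * ip G (lap G (u a)) (u a) p :=
            mul_le_mul_of_nonneg_left h13 (sq_nonneg _)
          have h15 : η p ^ 2 * A ≤ 1 * A := mul_le_mul_of_nonneg_right h9 hS.hA
          linarith
        have h8 : -lam ≤ η p ^ 2 * rr G (u a) (u a) p := by
          have h10 : η p ^ 2 * (-lam) ≤ η p ^ 2 * rr G (u a) (u a) p :=
            mul_le_mul_of_nonneg_left h7 (sq_nonneg _)
          have h11 : η p ^ 2 * lam ≤ 1 * lam := mul_le_mul_of_nonneg_right h9 hS.hlam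
          linarith
        linarith
      have h4 := Finset.sum_le_sum fun a (_ : a ∈ Finset.univ) => h3 a
      have h5 : (1 / 2) * (η p ^ 2 * ∑ a, hh G (u a) (u a) p) ≤
          η p ^ 2 * (∑ a, (hh G (u a) (u a) p + rr G (u a) (u a) p
            + ip G (lap G (u a)) (u a) p))
          + (∑ a, ∑ i, vv G (u a) (u a) i p * pd i (fun p => η p ^ 2) p)
          + N * (2 * s ^ 2 + lam + A) := by
        simp only [Finset.sum_add_distrib, ← Finset.mul_sum, Finset.sum_const, Finset.card_univ,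
          Fintype.card_fin, nsmul_eq_mul] at h4 ⊢
        linarith
      have h6 := mul_le_mul_of_nonneg_right h5 hd.le
      calc _ = (1 / 2) * (η p ^ 2 * ∑ a, hh G (u a) (u a) p) * dens G p := by ring
        _ ≤ _ := h6
        _ = _ := by ring
    · have h3 : η p = 0 := image_eq_zero_of_notMem_tsupport hp
      have h4 : ∀ i, pd i (fun p => η p ^ 2) p = 0 := fun i =>
        pd_zero_off (by rw [tsupport_sq]; exact hp) i
      simp [h3, h4, Set.indicator_of_notMem hp]
  have h7 := integral_mono_ae (i3.const_mul (1 / 2)) ((i2.add i1).add i4) ptw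
  rw [integral_const_mul, integral_add' (i2.add i1) i4, integral_add' i2 i1, key,
    integral_ind] at h7
  linarith

end

end Pool.Agent.Helper73.HB
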