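import Pool.Agent.Helper73.HB.Frame
import Pool.Agent.Helper73.HB.Alg

/-! # The pointwise inequality for the nuclear norm (HB-12)

PROOF of `star_ineq`. `S q` is positive definite with square the matrix `H + ε`, `H_ab = ip u_a u_b`
smooth, so the entries of `S` are smooth at `p` (`smooth_sqrt`, `smooth_ip`; `U` open) and those of
`S⁻¹` too (`smooth_matrix_inv`). `pd_matrix_inv`: differentiating `S S⁻¹ = 1`,
`∂ᵢ(S⁻¹) = - S⁻¹ (∂ᵢS) S⁻¹`; differentiating `S S = H + ε`, `(∂ᵢS) S + S (∂ᵢS) = ∂ᵢH`.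
Let `E` be the square root of `(G p)⁻¹` (`exists_sqrt`, `inv_posDef`), `B = Bm E u p`,
`C_k = Cm E G u k p`, `X_k = Σᵢ E_ki ∂ᵢS(p)` (symmetric). By `pd_ip` and `frame_dip`
`X_k S + S X_k = C_k Bᵀ + B C_kᵀ`. By `frame_vv`, `E` and `X_k`, `S⁻¹` being symmetric,
`Σ_ab Σᵢ ∂ᵢ(S⁻¹)_ab vvⁱ_ab = Σ_k tr(-(S⁻¹ X_k S⁻¹) (C_k Bᵀ)) = - Σ_k tr(S⁻¹ X_k²)` (`alg_deriv`), and
`Σ_ab (S⁻¹)_ab hh_ab = Σ_k tr(S⁻¹ C_k C_kᵀ)` (`frame_hh`). Conclude with `alg_main` for every `k`.
-/

namespace Pool.Agent.Helper73.HB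

open scoped ContDiff Topology
open Pool.Agent.Helper49.Ric MeasureTheory Filter Matrix

noncomputable section

variable {n N : ℕ} {U : Set (Fin n → ℝ)} {G : (Fin n → ℝ) → Matrix (Fin n) (Fin n) ℝ}
  {p : Fin n → ℝ} {u : Fin N → (Fin n → ℝ) → ℝ} {S : (Fin n → ℝ) → Matrix (Fin N) (Fin N) ℝ}
  {ε : ℝ}

/-- derivative of the inverse of a matrix with smooth entries -/
theorem pd_matrix_inv (hS : ∀ a b, ContDiffAt ℝ ∞ (fun q => S q a b) p) (h0 : (S p).det ≠ 0)
    (i : Fin n) (a b : Fin N) :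
    pd i (fun q => (S q)⁻¹ a b) p =
      (-((S p)⁻¹ * (Matrix.of fun c d => pd i (fun q => S q c d) p) * (S p)⁻¹)) a b := by
  have hd : ∀ a b, DifferentiableAt ℝ (fun q => S q a b) p := fun a b => diff_of_smooth (hS a b)
  have he : ∀ a b, DifferentiableAt ℝ (fun q => (S q)⁻¹ a b) p := fun a b =>
    diff_of_smooth (smooth_matrix_inv hS h0 a b)
  have hu0 : IsUnit (S p).det := h0.isUnit
  have hdet : ∀ᶠ q in 𝓝 p, (S q).det ≠ 0 := by
    have h1 : (fun q => (S q).det) =
        fun q => ∑ σ : Equiv.Perm (Fin N), (((Equiv.Perm.sign σ : ℤˣ) : ℤ) : ℝ) *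
          ∏ i, S q (σ i) i := by
      funext q
      rw [Matrix.det_apply']
    have h2 : ContDiffAt ℝ ∞ (fun q => (S q).det) p := by
      rw [h1]
      refine ContDiffAt.sum fun σ _ => ?_
      refine contDiffAt_const.mul ?_
      exact contDiffAt_prod fun i _ => hS (σ i) i
    exact h2.continuousAt.eventually_ne h0
  let D : Matrix (Fin N) (Fin N) ℝ := Matrix.of fun c d => pd i (fun q => S q c d) p
  let E : Matrix (Fin N) (Fin N) ℝ := Matrix.of fun c d => pd i (fun q => (S q)⁻¹ c d) p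
  have h1 : D * (S p)⁻¹ + S p * E = 0 := by
    ext a b
    rw [Matrix.add_apply, Matrix.mul_apply, Matrix.mul_apply, ← Finset.sum_add_distrib,
      Matrix.zero_apply]
    have h2 : pd i (fun q => ∑ c, S q a c * (S q)⁻¹ c b) p = 0 := by
      have h3 : (fun q => ∑ c, S q a c * (S q)⁻¹ c b) =ᶠ[𝓝 p]
          fun _ => if a = b then (1 : ℝ) else 0 := by
        filter_upwards [hdet] with q hq
        have h4 := congrFun (congrFun (Matrix.mul_nonsing_inv (S q) hq.isUnit) a) b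
        rw [Matrix.mul_apply, Matrix.one_apply] at h4
        exact h4
      rw [pd_congr h3, pd_const]
    rw [pd_sum (fun c _ => (hd a c).fun_mul (he c b))] at h2
    rw [← h2]
    refine Finset.sum_congr rfl fun c _ => ?_
    rw [pd_mul (hd a c) (he c b)]
    rfl
  have h2 : E = -((S p)⁻¹ * D * (S p)⁻¹) := by
    have h3 : (S p)⁻¹ * (D * (S p)⁻¹ + S p * E) = 0 := by rw [h1, Matrix.mul_zero]
    rw [Matrix.mul_add, ← Matrix.mul_assoc, ← Matrix.mul_assoc,
      Matrix.nonsing_inv_mul (S p) hu0, Matrix.one_mul] at h3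
    exact eq_neg_of_add_eq_zero_right h3
  exact congrFun (congrFun h2 a) b

/-- the entries of `S` and of `S⁻¹` are smooth -/
theorem smooth_S (hU : IsOpen U) (hG : IsMetricOn U G)
    (hu : ∀ a, ∀ q ∈ U, ContDiffAt ℝ ∞ (u a) q)
    (hS : ∀ q ∈ U, (S q).PosDef)
    (hSS : ∀ q ∈ U, ∀ a b, (S q * S q) a b = ip G (u a) (u b) q + if a = b then ε else 0)
    (hp : p ∈ U) (a b : Fin N) :
    ContDiffAt ℝ ∞ (fun q => S q a b) p ∧ ContDiffAt ℝ ∞ (fun q => (S q)⁻¹ a b) p := by
  have h1 : ∀ c d, ContDiffAt ℝ ∞ (fun q => S q c d) p := by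
    intro c d
    refine smooth_sqrt (A := fun q => Matrix.of fun c d =>
      ip G (u c) (u d) q + if c = d then ε else 0) (fun i j => ?_) ?_ c d
    · exact (smooth_ip hG hp (hu i p hp) (hu j p hp)).add contDiffAt_const
    · filter_upwards [hU.mem_nhds hp] with q hq
      refine ⟨hS q hq, ?_⟩
      ext i j
      exact hSS q hq i j
  exact ⟨h1 a b, smooth_matrix_inv h1 (hS p hp).det_pos.ne' a b⟩

private theorem sum_mul_symm {M V : Matrix (Fin N) (Fin N) ℝ} (hM : Mᵀ = M) :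
    ∑ a, ∑ b, M a b * V a b = (M * V).trace := by
  rw [Matrix.trace]
  simp only [Matrix.diag_apply, Matrix.mul_apply]
  rw [Finset.sum_comm]
  refine Finset.sum_congr rfl fun a _ => Finset.sum_congr rfl fun b _ => ?_
  rw [← congrFun (congrFun hM a) b, Matrix.transpose_apply]

theorem star_ineq (hU : IsOpen U) (hG : IsMetricOn U G)
    (hu : ∀ a, ∀ q ∈ U, ContDiffAt ℝ ∞ (u a) q) (hε : 0 < ε)
    (hS : ∀ q ∈ U, (S q).PosDef)
    (hSS : ∀ q ∈ U, ∀ a b, (S q * S q) a b = ip G (u a) (u b) q + if a = b then ε else 0)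
    (hp : p ∈ U) :
    0 ≤ ∑ a, ∑ b, ((S p)⁻¹ a b * hh G (u a) (u b) p
      + ∑ i, pd i (fun q => (S q)⁻¹ a b) p * vv G (u a) (u b) i p) := by
  have hS0 := hS p hp
  have hsm := smooth_S hU hG hu hS hSS hp
  have hd : ∀ a b, DifferentiableAt ℝ (fun q => S q a b) p := fun a b =>
    diff_of_smooth (hsm a b).1
  obtain ⟨E, hE, hEE⟩ := exists_sqrt (inv_posDef hG hp)
  have hEs : ∀ i j, E i j = E j i := fun i j => by
    have h1 := congrFun (congrFun hE.isHermitian i) j
    rw [Matrix.conjTranspose_apply] at h1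
    simpa using h1.symm
  have hSt : ∀ q ∈ U, (S q)ᵀ = S q := by
    intro q hq
    have h1 := (hS q hq).isHermitian
    unfold Matrix.IsHermitian at h1
    rwa [Matrix.conjTranspose_eq_transpose_of_trivial] at h1
  have hIt : ((S p)⁻¹)ᵀ = (S p)⁻¹ := by
    rw [Matrix.transpose_nonsing_inv, hSt p hp]
  let D : Fin n → Matrix (Fin N) (Fin N) ℝ := fun i =>
    Matrix.of fun a b => pd i (fun q => S q a b) p
  have hDt : ∀ i, (D i)ᵀ = D i := by
    intro i
    ext a b
    change pd i (fun q => S q b a) p = pd i (fun q => S q a b) p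
    refine pd_congr ?_ i
    filter_upwards [hU.mem_nhds hp] with q hq
    have h1 := congrFun (congrFun (hSt q hq) a) b
    rw [Matrix.transpose_apply] at h1
    exact h1
  let X : Fin n → Matrix (Fin N) (Fin N) ℝ := fun k => ∑ i, E k i • D i
  have hXt : ∀ k, (X k)ᵀ = X k := by
    intro k
    change (∑ i, E k i • D i)ᵀ = ∑ i, E k i • D i
    rw [Matrix.transpose_sum]
    refine Finset.sum_congr rfl fun i _ => ?_
    rw [Matrix.transpose_smul, hDt i]
  have hBB : S p * S p = Bm E u p * (Bm E u p)ᵀ + ε • (1 : Matrix (Fin N) (Fin N) ℝ) := by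
    ext a b
    rw [hSS p hp a b, Matrix.add_apply, frame_ip hE hEE, Matrix.smul_apply, Matrix.one_apply,
      smul_eq_mul, mul_ite, mul_one, mul_zero]
  have hDS : ∀ i a b, (D i * S p + S p * D i) a b =
      ∑ j, hess G (u a) i j p * grad G (u b) j p + ∑ j, hess G (u b) i j p * grad G (u a) j p := by
    intro i a b
    rw [← pd_ip hU hG hp (hu a p hp) (hu b p hp) i]
    have h3 : (fun q => ∑ c, S q a c * S q c b) =ᶠ[𝓝 p]
        fun q => ip G (u a) (u b) q + if a = b then ε else 0 := by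
      filter_upwards [hU.mem_nhds hp] with q hq
      rw [← hSS q hq a b, Matrix.mul_apply]
    have h4 : pd i (fun q => ∑ c, S q a c * S q c b) p = pd i (ip G (u a) (u b)) p := by
      rw [pd_congr h3, pd_add (diff_of_smooth (smooth_ip hG hp (hu a p hp) (hu b p hp)))
        (differentiableAt_const _), pd_const, add_zero]
    rw [← h4, pd_sum (fun c _ => (hd a c).fun_mul (hd c b)), Matrix.add_apply, Matrix.mul_apply,
      Matrix.mul_apply, ← Finset.sum_add_distrib]
    refine Finset.sum_congr rfl fun c _ => ?_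
    rw [pd_mul (hd a c) (hd c b)]
    rfl
  have hXS : ∀ k, X k * S p + S p * X k =
      Cm E G u k p * (Bm E u p)ᵀ + Bm E u p * (Cm E G u k p)ᵀ := by
    intro k
    have h1 : X k * S p + S p * X k = ∑ i, E k i • (D i * S p + S p * D i) := by
      change (∑ i, E k i • D i) * S p + S p * (∑ i, E k i • D i) = _
      rw [Finset.sum_mul, Finset.mul_sum, ← Finset.sum_add_distrib]
      refine Finset.sum_congr rfl fun i _ => ?_
      rw [Matrix.smul_mul, Matrix.mul_smul, smul_add]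
    have h2 : Bm E u p * (Cm E G u k p)ᵀ = (Cm E G u k p * (Bm E u p)ᵀ)ᵀ := by
      rw [Matrix.transpose_mul, Matrix.transpose_transpose]
    rw [h1, h2]
    ext a b
    rw [Matrix.sum_apply, Matrix.add_apply, Matrix.transpose_apply, ← frame_dip hE hEE a b k,
      ← frame_dip hE hEE b a k, ← Finset.sum_add_distrib]
    refine Finset.sum_congr rfl fun i _ => ?_
    rw [Matrix.smul_apply, hDS i a b, smul_eq_mul, mul_add]
  have hfirst : ∑ a, ∑ b, (S p)⁻¹ a b * hh G (u a) (u b) p =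
      ∑ k, ((S p)⁻¹ * (Cm E G u k p * (Cm E G u k p)ᵀ)).trace := by
    have h1 : ∀ a b, hh G (u a) (u b) p = (∑ k, Cm E G u k p * (Cm E G u k p)ᵀ) a b :=
      fun a b => (frame_hh hU hG hp (fun a => hu a p hp) hE hEE a b).symm
    simp only [h1]
    rw [sum_mul_symm hIt, Finset.mul_sum, Matrix.trace_sum]
  have hsecond : ∑ a, ∑ b, ∑ i, pd i (fun q => (S q)⁻¹ a b) p * vv G (u a) (u b) i p =
      ∑ k, (-((S p)⁻¹ * X k * (S p)⁻¹) * (Cm E G u k p * (Bm E u p)ᵀ)).trace := by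
    have h1 : ∀ k, (-((S p)⁻¹ * X k * (S p)⁻¹))ᵀ = -((S p)⁻¹ * X k * (S p)⁻¹) := by
      intro k
      rw [Matrix.transpose_neg, Matrix.transpose_mul, Matrix.transpose_mul, hIt, hXt k,
        Matrix.mul_assoc]
    have h2 : ∀ k a b, (-((S p)⁻¹ * X k * (S p)⁻¹)) a b =
        ∑ i, E i k * pd i (fun q => (S q)⁻¹ a b) p := by
      intro k a b
      have h3 : -((S p)⁻¹ * X k * (S p)⁻¹) = ∑ i, E k i • (-((S p)⁻¹ * D i * (S p)⁻¹)) := by
        change -((S p)⁻¹ * (∑ i, E k i • D i) * (S p)⁻¹) = _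
        rw [Finset.mul_sum, Finset.sum_mul, ← Finset.sum_neg_distrib]
        refine Finset.sum_congr rfl fun i _ => ?_
        rw [Matrix.mul_smul, Matrix.smul_mul, smul_neg]
      rw [h3, Matrix.sum_apply]
      refine Finset.sum_congr rfl fun i _ => ?_
      rw [Matrix.smul_apply, smul_eq_mul, hEs k i,
        pd_matrix_inv (fun a b => (hsm a b).1) hS0.det_pos.ne' i a b]
    have h4 : ∀ k, (-((S p)⁻¹ * X k * (S p)⁻¹) * (Cm E G u k p * (Bm E u p)ᵀ)).trace =
        ∑ a, ∑ b, ∑ i, pd i (fun q => (S q)⁻¹ a b) p *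
          (E i k * (Cm E G u k p * (Bm E u p)ᵀ) a b) := by
      intro k
      rw [← sum_mul_symm (h1 k)]
      refine Finset.sum_congr rfl fun a _ => Finset.sum_congr rfl fun b _ => ?_
      rw [h2 k a b, Finset.sum_mul]
      refine Finset.sum_congr rfl fun i _ => ?_
      ring
    simp only [h4]
    symm
    rw [Finset.sum_comm]
    refine Finset.sum_congr rfl fun a _ => ?_
    rw [Finset.sum_comm]
    refine Finset.sum_congr rfl fun b _ => ?_
    rw [Finset.sum_comm]
    refine Finset.sum_congr rfl fun i _ => ?_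
    rw [frame_vv hE hEE a b i, Finset.mul_sum]
  simp only [Finset.sum_add_distrib]
  rw [hfirst, hsecond, ← Finset.sum_add_distrib]
  refine Finset.sum_nonneg fun k _ => ?_
  have h5 : X k * S p + S p * X k =
      Cm E G u k p * (Bm E u p)ᵀ + (Cm E G u k p * (Bm E u p)ᵀ)ᵀ := by
    rw [hXS k, Matrix.transpose_mul, Matrix.transpose_transpose]
  have h6 := alg_main hε.le hS0 hBB (hXt k) (hXS k)
  have h7 := alg_deriv hS0 (hXt k) h5
  rw [h7]
  linarith

end

end Pool.Agent.Helper73.HB
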