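import Pool.Agent.Helper73.HB.EnI
import Pool.Agent.Helper73.HB.Star

/-! # The nuclear norm estimate (HB-18) -/

namespace Pool.Agent.Helper73.HB

open scoped ContDiff Topology NNReal
open Pool.Agent.Helper49.Ric MeasureTheory Filter

noncomputable section

variable {n N : ℕ} {U : Set (Fin n → ℝ)} {G : (Fin n → ℝ) → Matrix (Fin n) (Fin n) ℝ}
  {u : Fin N → (Fin n → ℝ) → ℝ} {η₁ η₂ : (Fin n → ℝ) → ℝ} {lam A s ε : ℝ}
  {S : (Fin n → ℝ) → Matrix (Fin N) (Fin N) ℝ}

theorem energy_two (hS : Setup U G lam A u) (h₁ : IsCut U G s η₁) (h₂ : IsCut U G s η₂)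
    (h12 : ∀ p, η₁ p ≠ 0 → η₂ p = 1) (hε : 0 < ε) (hSp : ∀ q ∈ U, (S q).PosDef)
    (hSS : ∀ q ∈ U, ∀ a b, (S q * S q) a b = ip G (u a) (u b) q + if a = b then ε else 0) :
    Integrable (fun p => η₁ p * ((∑ a, ∑ b, (S p)⁻¹ a b *
        (rr G (u a) (u b) p + lam * ip G (u a) (u b) p)) * dens G p)) ∧
    ∫ p, η₁ p * ((∑ a, ∑ b, (S p)⁻¹ a b *
        (rr G (u a) (u b) p + lam * ip G (u a) (u b) p)) * dens G p) ≤
      N * (2 * s ^ 2 + 3 / 2 * (lam + A)) * mass G (tsupport η₂) := by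
  classical
  obtain ⟨L, hL⟩ := h₁.lip
  obtain ⟨L2, hL2⟩ := lip_sq h₂
  have hsup2 : tsupport (fun p => η₂ p ^ 2) ⊆ U := by rw [tsupport_sq]; exact h₂.supp
  set W : Fin N → Fin N → (Fin n → ℝ) → ℝ := fun a b q => (S q)⁻¹ a b with hWdef
  have hW : ∀ a b, ∀ q ∈ U, ContDiffAt ℝ ∞ (W a b) q := fun a b q hq =>
    (smooth_S hS.hU hS.hG hS.hu hSp hSS hq a b).2
  have key := weak_bochner hS.hU hS.hG hS.hu hL h₁.cpt h₁.supp hW
  have i1 := integrable_flux hS.hG hS.hu hL h₁.cpt h₁.supp hW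
  have i2 : Integrable (fun p => η₁ p * ((∑ a, ∑ b, (W a b p *
      (hh G (u a) (u b) p + rr G (u a) (u b) p + ip G (lap G (u a)) (u b) p)
        + ∑ i, pd i (W a b) p * vv G (u a) (u b) i p)) * dens G p)) := by
    apply integrable_mul hL h₁.cpt h₁.supp
    intro p hp
    refine ((ContDiffAt.sum fun a _ => ContDiffAt.sum fun b _ => ContDiffAt.add ?_ ?_).mul
      (smooth_dens hS.hG hp)).continuousAt
    · exact (hW a b p hp).mul (((smooth_hh hS.hG hp (hS.hu a p hp) (hS.hu b p hp)).add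
        (smooth_rr hS.hG hp (hS.hu a p hp) (hS.hu b p hp))).add
        (smooth_ip hS.hG hp (smooth_lap hS.hG hp (hS.hu a p hp)) (hS.hu b p hp)))
    · exact ContDiffAt.sum fun i _ => (smooth_pd (hW a b p hp) i).mul
        (smooth_vv hS.hG hp (hS.hu a p hp) (hS.hu b p hp) i)
  have i3 : Integrable (fun p => η₁ p * ((∑ a, ∑ b, (S p)⁻¹ a b *
        (rr G (u a) (u b) p + lam * ip G (u a) (u b) p)) * dens G p)) := by
    apply integrable_mul hL h₁.cpt h₁.supp
    intro p hp
    refine ((ContDiffAt.sum fun a _ => ContDiffAt.sum fun b _ => ContDiffAt.mul ?_ ?_).mul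
      (smooth_dens hS.hG hp)).continuousAt
    · exact hW a b p hp
    · exact (smooth_rr hS.hG hp (hS.hu a p hp) (hS.hu b p hp)).add
        (contDiffAt_const.mul (smooth_ip hS.hG hp (hS.hu a p hp) (hS.hu b p hp)))
  have i4 : Integrable (fun p => η₂ p ^ 2 * ((∑ a, hh G (u a) (u a) p) * dens G p)) := by
    apply integrable_mul hL2 (cpt_sq h₂) hsup2
    intro p hp
    exact ((ContDiffAt.sum fun a _ => smooth_hh hS.hG hp (hS.hu a p hp) (hS.hu a p hp)).mul
      (smooth_dens hS.hG hp)).continuousAt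
  have i5 := integrable_ind (s := s) hS.hG h₂ (N * (s ^ 2 + lam + A))
  refine ⟨i3, ?_⟩
  have ptw : ∀ᵐ p, η₁ p * ((∑ a, ∑ b, (S p)⁻¹ a b *
        (rr G (u a) (u b) p + lam * ip G (u a) (u b) p)) * dens G p) ≤
      η₁ p * ((∑ a, ∑ b, (W a b p * (hh G (u a) (u b) p + rr G (u a) (u b) p
        + ip G (lap G (u a)) (u b) p) + ∑ i, pd i (W a b) p * vv G (u a) (u b) i p)) * dens G p)
      + (∑ a, ∑ b, W a b p * ∑ i, vv G (u a) (u b) i p * pd i η₁ p) * dens G p
      + (N * (s ^ 2 + lam + A)) * (tsupport η₂).indicator (dens G) p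
      + (1 / 4) * (η₂ p ^ 2 * ((∑ a, hh G (u a) (u a) p) * dens G p)) := by
    filter_upwards [h₁.grad] with p hp1
    by_cases hη : η₁ p = 0
    · have hpd : ∀ i, pd i η₁ p = 0 := fun i => pd_zero_of_nonneg h₁.nonneg hη i
      rw [hη, flux_zero hpd]
      have h1 : 0 ≤ (tsupport η₂).indicator (dens G) p :=
        Set.indicator_nonneg (fun q hq => (dens_pos hS.hG (h₂.supp hq)).le) p
      have h2 : 0 ≤ η₂ p ^ 2 * ((∑ a, hh G (u a) (u a) p) * dens G p) := by
        by_cases hp : p ∈ tsupport η₂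
        · have hpU := h₂.supp hp
          exact mul_nonneg (sq_nonneg _) (mul_nonneg (Finset.sum_nonneg fun a _ =>
            hh_nonneg hS.hU hS.hG hpU (hS.hu a p hpU)) (dens_pos hS.hG hpU).le)
        · rw [image_eq_zero_of_notMem_tsupport hp]; simp
      have h3 : 0 ≤ (N * (s ^ 2 + lam + A)) * (tsupport η₂).indicator (dens G) p :=
        mul_nonneg (mul_nonneg (Nat.cast_nonneg _) (add_nonneg (add_nonneg (sq_nonneg _)
          hS.hlam) hS.hA)) h1
      linarith
    · have hp : p ∈ tsupport η₁ := subset_tsupport _ hη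
      have hpU := h₁.supp hp
      have hη2 := h12 p hη
      have hp2 : p ∈ tsupport η₂ := by
        apply subset_tsupport
        simp [hη2]
      rw [Set.indicator_of_mem hp2, hη2]
      have hd := dens_pos hS.hG hpU
      have hg := hp1 hpU
      have hstar := star_ineq hS.hU hS.hG hS.hu hε hSp hSS hpU
      have hflux := flux_ineq hS.hU hS.hG hpU (fun a => hS.hu a p hpU) hε (hSp p hpU)
        (hSS p hpU) (fun i => pd i η₁ p)
      have htr := tr_upper hS.hG hpU hε (hSp p hpU) (hSS p hpU) (fun a => hS.h1 a p hpU)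
      have hη0 := h₁.nonneg p
      have hη1 := h₁.le_one p
      have hhn : 0 ≤ ∑ a, hh G (u a) (u a) p := Finset.sum_nonneg fun a _ =>
        hh_nonneg hS.hU hS.hG hpU (hS.hu a p hpU)
      have hN : (0:ℝ) ≤ N := Nat.cast_nonneg N
      -- split the sums
      have e1 : ∑ a, ∑ b, (S p)⁻¹ a b * (rr G (u a) (u b) p + lam * ip G (u a) (u b) p) =
          (∑ a, ∑ b, (S p)⁻¹ a b * rr G (u a) (u b) p)
          + lam * ∑ a, ∑ b, (S p)⁻¹ a b * ip G (u a) (u b) p := by
        simp only [Finset.mul_sum, ← Finset.sum_add_distrib]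
        refine Finset.sum_congr rfl fun a _ => Finset.sum_congr rfl fun b _ => by ring
      have e2 : ∑ a, ∑ b, (W a b p * (hh G (u a) (u b) p + rr G (u a) (u b) p
        + ip G (lap G (u a)) (u b) p) + ∑ i, pd i (W a b) p * vv G (u a) (u b) i p) =
          (∑ a, ∑ b, (S p)⁻¹ a b * rr G (u a) (u b) p)
          + (∑ a, ∑ b, (S p)⁻¹ a b * ip G (lap G (u a)) (u b) p)
          + ∑ a, ∑ b, ((S p)⁻¹ a b * hh G (u a) (u b) p
            + ∑ i, pd i (fun q => (S q)⁻¹ a b) p * vv G (u a) (u b) i p) := by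
        simp only [← Finset.sum_add_distrib]
        refine Finset.sum_congr rfl fun a _ => Finset.sum_congr rfl fun b _ => ?_
        rw [hWdef]
        ring
      rw [e1, e2]
      set Q := ∑ a, ∑ b, (S p)⁻¹ a b * rr G (u a) (u b) p with hQ
      set T := ∑ a, ∑ b, (S p)⁻¹ a b * ip G (u a) (u b) p with hT
      set B := ∑ a, ∑ b, ((S p)⁻¹ a b * hh G (u a) (u b) p
            + ∑ i, pd i (fun q => (S q)⁻¹ a b) p * vv G (u a) (u b) i p) with hB
      set J := ∑ a, ∑ b, (S p)⁻¹ a b * ip G (lap G (u a)) (u b) p with hJ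
      set F := ∑ a, ∑ b, W a b p * ∑ i, vv G (u a) (u b) i p * pd i η₁ p with hF
      set H := ∑ a, hh G (u a) (u a) p with hH
      set g := ∑ i, ∑ j, (G p)⁻¹ i j * pd i η₁ p * pd j η₁ p with hgdef
      have hF2 : F ^ 2 ≤ N * s ^ 2 * H := by
        have h4 : (N : ℝ) * g * H ≤ N * s ^ 2 * H :=
          mul_le_mul_of_nonneg_right (mul_le_mul_of_nonneg_left hg hN) hhn
        exact hflux.trans h4
      have hFb : -(N * s ^ 2 + (1 / 4) * H) ≤ F := by
        have hA0 : 0 ≤ N * s ^ 2 + (1 / 4) * H := by positivity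
        have hsq : F ^ 2 ≤ (N * s ^ 2 + (1 / 4) * H) ^ 2 := by
          nlinarith [sq_nonneg (N * s ^ 2 - (1 / 4) * H)]
        exact (abs_le.mp (abs_le_of_sq_le_sq hsq hA0)).1
      have hlT : η₁ p * (lam * T) ≤ N * lam := by
        have h5 : lam * T ≤ lam * N := mul_le_mul_of_nonneg_left htr hS.hlam
        have h6 : η₁ p * (lam * T) ≤ η₁ p * (lam * N) := mul_le_mul_of_nonneg_left h5 hη0
        have h7 : η₁ p * (lam * N) ≤ 1 * (lam * N) :=
          mul_le_mul_of_nonneg_right hη1 (mul_nonneg hS.hlam hN)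
        linarith
      have hJb : -(N * A) ≤ η₁ p * J := by
        have hJ2 : J ^ 2 ≤ (N * A) ^ 2 := by
          have h8 := flux_ip (w := fun a => lap G (u a)) hS.hG hpU hε (hSp p hpU) (hSS p hpU)
          have h9 : ∑ a, ip G (lap G (u a)) (lap G (u a)) p ≤ N * A ^ 2 := by
            calc ∑ a, ip G (lap G (u a)) (lap G (u a)) p ≤ ∑ _a : Fin N, A ^ 2 :=
                  Finset.sum_le_sum fun a _ => hS.h0 a p hpU
              _ = N * A ^ 2 := by simp
          calc J ^ 2 ≤ N * ∑ a, ip G (lap G (u a)) (lap G (u a)) p := h8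
            _ ≤ N * (N * A ^ 2) := mul_le_mul_of_nonneg_left h9 hN
            _ = (N * A) ^ 2 := by ring
        have h10 := (abs_le.mp (abs_le_of_sq_le_sq hJ2 (mul_nonneg hN hS.hA))).1
        have h11 : η₁ p * (-(N * A)) ≤ η₁ p * J := mul_le_mul_of_nonneg_left h10 hη0
        have h12 : η₁ p * (N * A) ≤ 1 * (N * A) :=
          mul_le_mul_of_nonneg_right hη1 (mul_nonneg hN hS.hA)
        linarith
      have hB0 : 0 ≤ η₁ p * B := mul_nonneg hη0 hstar
      have main : η₁ p * (Q + lam * T) ≤ η₁ p * (Q + J + B) + F + N * (s ^ 2 + lam + A)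
          + (1 / 4) * H := by
        have : η₁ p * (Q + lam * T) = η₁ p * Q + η₁ p * (lam * T) := by ring
        rw [this]
        have : η₁ p * (Q + J + B) = η₁ p * Q + η₁ p * J + η₁ p * B := by ring
        rw [this]
        linarith
      have h6 := mul_le_mul_of_nonneg_right main hd.le
      calc _ = η₁ p * (Q + lam * T) * dens G p := by ring
        _ ≤ _ := h6
        _ = _ := by ring
  have h7 := integral_mono_ae i3 (((i2.add i1).add i5).add (i4.const_mul (1 / 4))) ptw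
  rw [integral_add' ((i2.add i1).add i5) (i4.const_mul (1 / 4)), integral_add' (i2.add i1) i5,
    integral_add' i2 i1, key, integral_ind, integral_const_mul] at h7
  have h8 := energy_one hS h₂
  linarith

end

end Pool.Agent.Helper73.HB
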