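import Pool.Agent.Helper73.HB.EnII
import Pool.Agent.Helper73.HB.Cut

/-! # The weighted scalar curvature bound (HB-19) -/

namespace Pool.Agent.Helper73.HB

open scoped ContDiff Topology NNReal ENNReal
open Pool.Agent.Helper49.Ric MeasureTheory Filter

noncomputable section

variable {n N : ℕ} {U : Set (Fin n → ℝ)} {G : (Fin n → ℝ) → Matrix (Fin n) (Fin n) ℝ}
  {u : Fin N → (Fin n → ℝ) → ℝ} {lam A ε : ℝ}

theorem exists_S_pt (hG : IsMetricOn U G) (hε : 0 < ε) {q : Fin n → ℝ} (hq : q ∈ U) :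
    ∃ S : Matrix (Fin N) (Fin N) ℝ, S.PosDef ∧
      ∀ a b, (S * S) a b = ip G (u a) (u b) q + if a = b then ε else 0 := by
  obtain ⟨E, hE, hEE⟩ := exists_sqrt (inv_posDef hG hq)
  have h1 : (Bm E u q * (Bm E u q).transpose +
      ε • (1 : Matrix (Fin N) (Fin N) ℝ)).PosDef := by
    apply Matrix.PosDef.posSemidef_add
    · have := Matrix.posSemidef_self_mul_conjTranspose (Bm E u q)
      simpa using this
    · exact Matrix.PosDef.smul Matrix.PosDef.one hε
  obtain ⟨S, hS, hSS⟩ := exists_sqrt h1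
  refine ⟨S, hS, fun a b => ?_⟩
  rw [hSS, Matrix.add_apply, frame_ip hE hEE]
  simp [Matrix.one_apply]

theorem exists_S (hG : IsMetricOn U G) (hε : 0 < ε) :
    ∃ S : (Fin n → ℝ) → Matrix (Fin N) (Fin N) ℝ, (∀ q ∈ U, (S q).PosDef) ∧
      ∀ q ∈ U, ∀ a b, (S q * S q) a b = ip G (u a) (u b) q + if a = b then ε else 0 := by
  classical
  refine ⟨fun q => if hq : q ∈ U then (exists_S_pt (u := u) hG hε hq).choose else 1, ?_, ?_⟩
  · intro q hq
    simp only [hq, dif_pos]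
    exact (exists_S_pt (u := u) hG hε hq).choose_spec.1
  · intro q hq
    simp only [hq, dif_pos]
    exact (exists_S_pt (u := u) hG hε hq).choose_spec.2

theorem approx_tendsto {σ : ℝ} (hσ : 0 ≤ σ) :
    Tendsto (fun k : ℕ => σ ^ 2 / Real.sqrt (σ ^ 2 + 1 / ((k : ℝ) + 1))) atTop (𝓝 σ) := by
  rcases hσ.eq_or_lt with h | h
  · rw [← h]; simp
  · have h1 : Tendsto (fun k : ℕ => σ ^ 2 + 1 / ((k : ℝ) + 1)) atTop (𝓝 (σ ^ 2 + 0)) :=
      tendsto_const_nhds.add tendsto_one_div_add_atTop_nhds_zero_nat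
    have h2 := (Real.continuous_sqrt.tendsto _).comp h1
    have h3 : Real.sqrt (σ ^ 2 + 0) = σ := by rw [add_zero, Real.sqrt_sq hσ]
    rw [h3] at h2
    have h4 : Tendsto (fun k : ℕ => σ ^ 2 / Real.sqrt (σ ^ 2 + 1 / ((k : ℝ) + 1))) atTop
        (𝓝 (σ ^ 2 / σ)) := tendsto_const_nhds.div h2 h.ne'
    have h5 : σ ^ 2 / σ = σ := by field_simp
    rwa [h5] at h4

/-- the bound with two cutoff functions of slope `s` -/
theorem main_bound_s {Ω : Set (Fin n → ℝ)} (hΩ : IsOpen Ω) (hG : IsMetricOn Ω G)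
    (hlam : 0 ≤ lam) {x : Fin n → ℝ} {r R s : ℝ} (hr : 0 < r) (hs : 0 < s) (hrR : r + 2 / s < R)
    {K : Set (Fin n → ℝ)} (hK : IsCompact K) (hKΩ : K ⊆ Ω)
    (hB : gball Ω G x R ⊆ K)
    (hRic : ∀ p ∈ gball Ω G x R, ∀ v : Fin n → ℝ, -lam * ∑ i, ∑ j, G p i j * v i * v j ≤
      ∑ i, ∑ j, ricci G i j p * v i * v j)
    (hu : ∀ a, ∀ p ∈ gball Ω G x R, ContDiffAt ℝ ∞ (u a) p)
    (hA : 0 ≤ A)
    (h0 : ∀ a, ∀ p ∈ gball Ω G x R, ip G (lap G (u a)) (lap G (u a)) p ≤ A ^ 2)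
    (h1 : ∀ a, ∀ p ∈ gball Ω G x R, ip G (u a) (u a) p ≤ 1)
    {σ : (Fin n → ℝ) → ℝ} (hσm : Measurable σ) (hσ0 : ∀ p ∈ gball Ω G x r, 0 ≤ σ p)
    (hσ : ∀ p ∈ gball Ω G x r, ∀ v : Fin n → ℝ, σ p ^ 2 * ∑ i, ∑ j, G p i j * v i * v j ≤
      ∑ a, (∑ i, pd i (u a) p * v i) ^ 2) :
    ∫⁻ p in gball Ω G x r, ENNReal.ofReal (σ p * (scal G p + n * lam) * dens G p) ≤
      ENNReal.ofReal (N * (2 * s ^ 2 + 3 / 2 * (lam + A))) *
        ∫⁻ p in gball Ω G x R, ENNReal.ofReal (dens G p) := by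
  classical
  set U := gball Ω G x R with hUdef
  have hs1 : 0 < 1 / s := by positivity
  have hs2 : 2 / s = 1 / s + 1 / s := by ring
  have hUo : IsOpen U := isOpen_gball hΩ hG
  have hUΩ : U ⊆ Ω := gball_subset
  have hGU : IsMetricOn U G :=
    ⟨fun p hp => hG.smooth p (hUΩ hp), fun p hp => hG.symm p (hUΩ hp),
      fun p hp => hG.pos p (hUΩ hp)⟩
  have hB1 : gball Ω G x r ⊆ U := gball_mono (by linarith)
  have hB1o : IsOpen (gball Ω G x r) := isOpen_gball hΩ hG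
  have hS : Setup U G lam A u := ⟨hUo, hGU, hlam, hRic, hu, hA, h0, h1⟩
  obtain ⟨η₁, L₁, a1, a2, a3, a4, a5, a6, a7, a8⟩ :=
    exists_cutoff (r₁ := r) (r₂ := r + 1 / s) hΩ hG hK hKΩ hB hr (by linarith) (by linarith)
  obtain ⟨η₂, L₂, b1, b2, b3, b4, b5, b6, b7, b8⟩ :=
    exists_cutoff (r₁ := r + 1 / s) (r₂ := r + 2 / s) hΩ hG hK hKΩ hB (by linarith)
      (by linarith) hrR
  have es1 : (1 / (r + 1 / s - r)) ^ 2 = s ^ 2 := by
    rw [add_sub_cancel_left, one_div_one_div]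
  have es2 : (1 / (r + 2 / s - (r + 1 / s))) ^ 2 = s ^ 2 := by
    have : r + 2 / s - (r + 1 / s) = 1 / s := by rw [hs2]; ring
    rw [this, one_div_one_div]
  rw [es1] at a8
  rw [es2] at b8
  have c1 : IsCut U G s η₁ := ⟨⟨L₁, a1⟩, a2, a3, a4, a5, by
    filter_upwards [a8] with p hp h using hp (hUΩ h)⟩
  have c2 : IsCut U G s η₂ := ⟨⟨L₂, b1⟩, b2, b3, b4, b5, by
    filter_upwards [b8] with p hp h using hp (hUΩ h)⟩
  have h12 : ∀ p, η₁ p ≠ 0 → η₂ p = 1 := by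
    intro p hp
    apply b6
    by_contra hcon
    exact hp (a7 p hcon)
  -- the bound for every ε
  have step : ∀ ε : ℝ, 0 < ε →
      ∫⁻ p in gball Ω G x r, ENNReal.ofReal (σ p ^ 2 / Real.sqrt (σ p ^ 2 + ε) *
        (scal G p + n * lam) * dens G p) ≤
      ENNReal.ofReal (N * (2 * s ^ 2 + 3 / 2 * (lam + A))) *
        ∫⁻ p in U, ENNReal.ofReal (dens G p) := by
    intro ε hε
    obtain ⟨S, hSp, hSS⟩ := exists_S (u := u) hGU hε
    obtain ⟨hint, hle⟩ := energy_two hS c1 c2 h12 hε hSp hSS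
    set f : (Fin n → ℝ) → ℝ := fun p => η₁ p * ((∑ a, ∑ b, (S p)⁻¹ a b *
        (rr G (u a) (u b) p + lam * ip G (u a) (u b) p)) * dens G p) with hf
    have hf0 : ∀ p, 0 ≤ f p := by
      intro p
      by_cases hp : p ∈ tsupport η₁
      · have hpU := a3 hp
        have hr := rr_lower (σ := 0) hGU hpU hε le_rfl (hSp p hpU) (hSS p hpU) (hRic p hpU) (by
          intro v
          rw [zero_pow (by norm_num), zero_mul]
          exact Finset.sum_nonneg fun a _ => sq_nonneg _)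
        rw [zero_pow (by norm_num), zero_div, zero_mul] at hr
        exact mul_nonneg (a4 p) (mul_nonneg hr (dens_pos hGU hpU).le)
      · rw [hf]
        simp only [image_eq_zero_of_notMem_tsupport hp, zero_mul, le_refl]
    have e1 : ∫⁻ p in gball Ω G x r, ENNReal.ofReal (σ p ^ 2 / Real.sqrt (σ p ^ 2 + ε) *
        (scal G p + n * lam) * dens G p) ≤ ∫⁻ p in gball Ω G x r, ENNReal.ofReal (f p) := by
      apply setLIntegral_mono' hB1o.measurableSet
      intro p hp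
      apply ENNReal.ofReal_le_ofReal
      have hpU := hB1 hp
      have hr := rr_lower hGU hpU hε (hσ0 p hp) (hSp p hpU) (hSS p hpU) (hRic p hpU) (hσ p hp)
      rw [hf]
      simp only
      rw [a6 p hp, one_mul]
      exact mul_le_mul_of_nonneg_right hr (dens_pos hGU hpU).le
    have e2 : ∫⁻ p in gball Ω G x r, ENNReal.ofReal (f p) ≤ ∫⁻ p, ENNReal.ofReal (f p) :=
      setLIntegral_le_lintegral _ _
    have e3 : ∫⁻ p, ENNReal.ofReal (f p) = ENNReal.ofReal (∫ p, f p) :=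
      (ofReal_integral_eq_lintegral_ofReal hint (Eventually.of_forall hf0)).symm
    have e4 : ENNReal.ofReal (∫ p, f p) ≤
        ENNReal.ofReal (N * (2 * s ^ 2 + 3 / 2 * (lam + A)) * mass G (tsupport η₂)) :=
      ENNReal.ofReal_le_ofReal hle
    have e5 : ENNReal.ofReal (N * (2 * s ^ 2 + 3 / 2 * (lam + A)) * mass G (tsupport η₂)) =
        ENNReal.ofReal (N * (2 * s ^ 2 + 3 / 2 * (lam + A))) *
          ENNReal.ofReal (mass G (tsupport η₂)) := ENNReal.ofReal_mul (by positivity)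
    have e6 : ENNReal.ofReal (mass G (tsupport η₂)) ≤ ∫⁻ p in U, ENNReal.ofReal (dens G p) := by
      unfold mass
      rw [ofReal_integral_eq_lintegral_ofReal (integrableOn_dens hGU c2)]
      · exact lintegral_mono_set b3
      · rw [Filter.EventuallyLE, ae_restrict_iff' (isClosed_tsupport _).measurableSet]
        exact Eventually.of_forall fun p hp => (dens_pos hGU (b3 hp)).le
    calc _ ≤ _ := e1
      _ ≤ _ := e2
      _ = _ := e3
      _ ≤ _ := e4
      _ = _ := e5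
      _ ≤ _ := mul_le_mul_right e6 _
  -- Fatou
  have hcont : ContinuousOn (fun p => (scal G p + n * lam) * dens G p) (gball Ω G x r) := by
    intro p hp
    exact (((smooth_scal hGU (hB1 hp)).add contDiffAt_const).mul
      (smooth_dens hGU (hB1 hp))).continuousAt.continuousWithinAt
  have hmeas : ∀ k : ℕ, AEMeasurable (fun p => ENNReal.ofReal (σ p ^ 2 /
      Real.sqrt (σ p ^ 2 + 1 / ((k : ℝ) + 1)) * (scal G p + n * lam) * dens G p))
      (volume.restrict (gball Ω G x r)) := by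
    intro k
    apply AEMeasurable.ennreal_ofReal
    have m1 : AEMeasurable (fun p => (scal G p + n * lam) * dens G p)
        (volume.restrict (gball Ω G x r)) := hcont.aemeasurable hB1o.measurableSet
    have m2 : Measurable (fun p => σ p ^ 2 / Real.sqrt (σ p ^ 2 + 1 / ((k : ℝ) + 1))) :=
      (hσm.pow_const 2).div ((hσm.pow_const 2).add_const _).sqrt
    have m3 := m2.aemeasurable.mul m1 (μ := volume.restrict (gball Ω G x r))
    refine m3.congr (Eventually.of_forall fun p => ?_)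
    simp only [Pi.mul_apply]
    ring
  have hlim : ∀ p ∈ gball Ω G x r, ENNReal.ofReal (σ p * (scal G p + n * lam) * dens G p) =
      liminf (fun k : ℕ => ENNReal.ofReal (σ p ^ 2 / Real.sqrt (σ p ^ 2 + 1 / ((k : ℝ) + 1)) *
        (scal G p + n * lam) * dens G p)) atTop := by
    intro p hp
    symm
    apply Tendsto.liminf_eq
    apply ENNReal.tendsto_ofReal
    exact ((approx_tendsto (hσ0 p hp)).mul_const _).mul_const _
  rw [setLIntegral_congr_fun hB1o.measurableSet hlim]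
  refine (lintegral_liminf_le' hmeas).trans ?_
  refine liminf_le_of_frequently_le' ?_
  exact Frequently.of_forall fun k => step _ (by positivity)

/-- the volume of a relatively compact ball is finite -/
theorem vol_lt_top {Ω : Set (Fin n → ℝ)} (hG : IsMetricOn Ω G) {A K : Set (Fin n → ℝ)}
    (hK : IsCompact K) (hKΩ : K ⊆ Ω) (hA : A ⊆ K) :
    ∫⁻ p in A, ENNReal.ofReal (dens G p) < ⊤ := by
  have h1 : IntegrableOn (dens G) K := by
    apply ContinuousOn.integrableOn_compact hK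
    intro p hp
    exact (cont_dens hG p (hKΩ hp)).continuousWithinAt
  calc ∫⁻ p in A, ENNReal.ofReal (dens G p) ≤ ∫⁻ p in K, ENNReal.ofReal (dens G p) :=
        lintegral_mono_set hA
    _ < ⊤ := h1.lintegral_lt_top

theorem main_bound {Ω : Set (Fin n → ℝ)} (hΩ : IsOpen Ω) (hG : IsMetricOn Ω G)
    (hlam : 0 ≤ lam) {x : Fin n → ℝ} {r R : ℝ} (hr : 0 < r) (hrR : r < R)
    {K : Set (Fin n → ℝ)} (hK : IsCompact K) (hKΩ : K ⊆ Ω)
    (hB : gball Ω G x R ⊆ K)
    (hRic : ∀ p ∈ gball Ω G x R, ∀ v : Fin n → ℝ, -lam * ∑ i, ∑ j, G p i j * v i * v j ≤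
      ∑ i, ∑ j, ricci G i j p * v i * v j)
    (hu : ∀ a, ∀ p ∈ gball Ω G x R, ContDiffAt ℝ ∞ (u a) p)
    (hA : 0 ≤ A)
    (h0 : ∀ a, ∀ p ∈ gball Ω G x R, ip G (lap G (u a)) (lap G (u a)) p ≤ A ^ 2)
    (h1 : ∀ a, ∀ p ∈ gball Ω G x R, ip G (u a) (u a) p ≤ 1)
    {σ : (Fin n → ℝ) → ℝ} (hσm : Measurable σ) (hσ0 : ∀ p ∈ gball Ω G x r, 0 ≤ σ p)
    (hσ : ∀ p ∈ gball Ω G x r, ∀ v : Fin n → ℝ, σ p ^ 2 * ∑ i, ∑ j, G p i j * v i * v j ≤
      ∑ a, (∑ i, pd i (u a) p * v i) ^ 2) :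
    ∫⁻ p in gball Ω G x r, ENNReal.ofReal (σ p * (scal G p + n * lam) * dens G p) ≤
      ENNReal.ofReal (N * (8 / (R - r) ^ 2 + 3 / 2 * (lam + A))) *
        ∫⁻ p in gball Ω G x R, ENNReal.ofReal (dens G p) := by
  have hd : 0 < R - r := by linarith
  have hs0 : 0 < 2 / (R - r) := by positivity
  have hfin : ∫⁻ p in gball Ω G x R, ENNReal.ofReal (dens G p) ≠ ⊤ :=
    (vol_lt_top hG hK hKΩ hB).ne
  have hlim : Tendsto (fun s : ℝ => ENNReal.ofReal (N * (2 * s ^ 2 + 3 / 2 * (lam + A))) *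
      ∫⁻ p in gball Ω G x R, ENNReal.ofReal (dens G p)) (𝓝[>] (2 / (R - r)))
      (𝓝 (ENNReal.ofReal (N * (2 * (2 / (R - r)) ^ 2 + 3 / 2 * (lam + A))) *
      ∫⁻ p in gball Ω G x R, ENNReal.ofReal (dens G p))) := by
    apply ENNReal.Tendsto.mul_const _ (Or.inr hfin)
    apply ENNReal.tendsto_ofReal
    have hc : Continuous (fun s : ℝ => (N : ℝ) * (2 * s ^ 2 + 3 / 2 * (lam + A))) := by fun_prop
    exact hc.continuousAt.tendsto.mono_left nhdsWithin_le_nhds
  have e1 : 2 * (2 / (R - r)) ^ 2 = 8 / (R - r) ^ 2 := by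
    rw [div_pow]; ring
  rw [e1] at hlim
  refine ge_of_tendsto hlim ?_
  filter_upwards [self_mem_nhdsWithin] with s hs
  have hs' : 2 / (R - r) < s := hs
  have hs1 : 0 < s := hs0.trans hs'
  refine main_bound_s hΩ hG hlam hr hs1 ?_ hK hKΩ hB hRic hu hA h0 h1 hσm hσ0 hσ
  have h2 : 2 / s < R - r := by
    rw [div_lt_iff₀ hs1]
    rw [div_lt_iff₀ hd] at hs'
    linarith
  linarith

end

end Pool.Agent.Helper73.HB
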