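import Pool.Agent.Helper73.HB.Hup

/-! # Orthonormal frames (HB-11) -/

namespace Pool.Agent.Helper73.HB

open scoped ContDiff Topology
open Pool.Agent.Helper49.Ric MeasureTheory Filter Matrix

noncomputable section

variable {n N : ℕ} {U : Set (Fin n → ℝ)} {G : (Fin n → ℝ) → Matrix (Fin n) (Fin n) ℝ}
  {p : Fin n → ℝ} {u : Fin N → (Fin n → ℝ) → ℝ} {E : Matrix (Fin n) (Fin n) ℝ}

/-- the differentials in the frame -/
def Bm (E : Matrix (Fin n) (Fin n) ℝ) (u : Fin N → (Fin n → ℝ) → ℝ) (p : Fin n → ℝ) :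
    Matrix (Fin N) (Fin n) ℝ :=
  Matrix.of fun a i => ∑ j, pd j (u a) p * E j i

/-- the `k`-th row of the Hessians in the frame -/
def Cm (E : Matrix (Fin n) (Fin n) ℝ) (G : (Fin n → ℝ) → Matrix (Fin n) (Fin n) ℝ)
    (u : Fin N → (Fin n → ℝ) → ℝ) (k : Fin n) (p : Fin n → ℝ) : Matrix (Fin N) (Fin n) ℝ :=
  Matrix.of fun a i => ∑ j, ∑ l, E k j * hess G (u a) j l p * E l i

/-- the Ricci tensor in the frame -/
def Rm (E : Matrix (Fin n) (Fin n) ℝ) (G : (Fin n → ℝ) → Matrix (Fin n) (Fin n) ℝ)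
    (p : Fin n → ℝ) : Matrix (Fin n) (Fin n) ℝ :=
  E * Matrix.of (fun i j => ricci G i j p) * E

/-- the vector of partial derivatives -/
def Dv (u : (Fin n → ℝ) → ℝ) (p : Fin n → ℝ) : Fin n → ℝ := fun j => pd j u p

/-- the matrix of the Hessian -/
def Hm (G : (Fin n → ℝ) → Matrix (Fin n) (Fin n) ℝ) (u : (Fin n → ℝ) → ℝ) (p : Fin n → ℝ) :
    Matrix (Fin n) (Fin n) ℝ := Matrix.of fun i j => hess G u i j p

theorem E_symm (hE : E.PosDef) : Eᵀ = E := by
  have h := hE.isHermitian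
  simpa [Matrix.IsHermitian] using h

theorem Bm_row (hE : E.PosDef) (a : Fin N) : (fun i => Bm E u p a i) = E *ᵥ (Dv (u a) p) := by
  funext i
  simp only [Bm, Matrix.of_apply, Matrix.mulVec, dotProduct, Dv]
  refine Finset.sum_congr rfl fun j _ => ?_
  have h : E j i = E i j := by
    conv_lhs => rw [← E_symm hE]
    rfl
  rw [h]; ring

theorem Cm_row (k : Fin n) (a : Fin N) (i : Fin n) :
    Cm E G u k p a i = (E * Hm G (u a) p * E) k i := by
  simp only [Cm, Matrix.of_apply, Matrix.mul_apply, Hm, Finset.sum_mul]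
  exact Finset.sum_comm

theorem grad_vec (f : (Fin n → ℝ) → ℝ) : (fun i => grad G f i p) = (G p)⁻¹ *ᵥ (Dv f p) := rfl

theorem hup_mat (f : (Fin n → ℝ) → ℝ) (i j : Fin n) :
    hup G f i j p = ((G p)⁻¹ * Hm G f p) i j := rfl

theorem grad_frame (hE : E.PosDef) (hEE : E * E = (G p)⁻¹) (b : Fin N) (i : Fin n) :
    grad G (u b) i p = ∑ m, E i m * Bm E u p b m := by
  have h1 : (fun i => grad G (u b) i p) = E *ᵥ (fun i => Bm E u p b i) := by
    rw [Bm_row hE, grad_vec, ← hEE, Matrix.mulVec_mulVec]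
  exact congrFun h1 i

theorem frame_metric (hG : IsMetricOn U G) (hp : p ∈ U) (hE : E.PosDef)
    (hEE : E * E = (G p)⁻¹) : E * G p * E = 1 := by
  have hdet : IsUnit (G p).det := (det_pos hG hp).ne'.isUnit
  have h1 : E * (E * G p) = 1 := by
    rw [← Matrix.mul_assoc, hEE, Matrix.nonsing_inv_mul _ hdet]
  exact mul_eq_one_comm.mp h1

theorem frame_ip (hE : E.PosDef) (hEE : E * E = (G p)⁻¹) (a b : Fin N) :
    (Bm E u p * (Bm E u p)ᵀ) a b = ip G (u a) (u b) p := by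
  have h1 : (Bm E u p * (Bm E u p)ᵀ) a b =
      (E *ᵥ (Dv (u a) p)) ⬝ᵥ (E *ᵥ (Dv (u b) p)) := by
    rw [← Bm_row (u := u) hE a, ← Bm_row (u := u) hE b]
    rfl
  have h2 : (E *ᵥ (Dv (u a) p)) ⬝ᵥ (E *ᵥ (Dv (u b) p)) =
      (Dv (u a) p) ⬝ᵥ ((G p)⁻¹ *ᵥ (Dv (u b) p)) := by
    rw [← hEE, ← Matrix.mulVec_mulVec, Matrix.dotProduct_mulVec (Dv (u a) p) E,
      ← Matrix.mulVec_transpose, E_symm hE]
  rw [h1, h2]
  simp only [dotProduct, Matrix.mulVec, Dv, ip, Finset.mul_sum]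
  refine Finset.sum_congr rfl fun i _ => Finset.sum_congr rfl fun j _ => by ring

theorem Hm_symm (hU : IsOpen U) (hG : IsMetricOn U G) (hp : p ∈ U) {f : (Fin n → ℝ) → ℝ}
    (hf : ContDiffAt ℝ ∞ f p) : (Hm G f p)ᵀ = Hm G f p := by
  ext i j
  exact hess_symm hU hG hp hf j i

theorem frame_hh (hU : IsOpen U) (hG : IsMetricOn U G) (hp : p ∈ U)
    (hu : ∀ a, ContDiffAt ℝ ∞ (u a) p) (hE : E.PosDef) (hEE : E * E = (G p)⁻¹) (a b : Fin N) :
    (∑ k, Cm E G u k p * (Cm E G u k p)ᵀ) a b = hh G (u a) (u b) p := by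
  have h1 : (∑ k, Cm E G u k p * (Cm E G u k p)ᵀ) a b =
      ∑ k, ∑ i, (E * Hm G (u a) p * E) k i * (E * Hm G (u b) p * E) k i := by
    rw [Matrix.sum_apply]
    refine Finset.sum_congr rfl fun k _ => ?_
    rw [Matrix.mul_apply]
    refine Finset.sum_congr rfl fun i _ => ?_
    rw [Matrix.transpose_apply, Cm_row, Cm_row]
  have h2 : ∀ k i, (E * Hm G (u b) p * E) k i = (E * Hm G (u b) p * E) i k := by
    intro k i
    have : (E * Hm G (u b) p * E)ᵀ = E * Hm G (u b) p * E := by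
      rw [Matrix.transpose_mul, Matrix.transpose_mul, E_symm hE, Hm_symm hU hG hp (hu b),
        Matrix.mul_assoc]
    conv_lhs => rw [← this]
    rfl
  have h3 : ∑ k, ∑ i, (E * Hm G (u a) p * E) k i * (E * Hm G (u b) p * E) k i =
      ((E * Hm G (u a) p * E) * (E * Hm G (u b) p * E)).trace := by
    simp only [Matrix.trace, Matrix.diag, Matrix.mul_apply (M := E * Hm G (u a) p * E)]
    refine Finset.sum_congr rfl fun k _ => Finset.sum_congr rfl fun i _ => ?_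
    rw [h2 k i]
  have h4 : hh G (u a) (u b) p =
      (((G p)⁻¹ * Hm G (u a) p) * ((G p)⁻¹ * Hm G (u b) p)).trace := by
    simp only [Matrix.trace, Matrix.diag, Matrix.mul_apply (M := (G p)⁻¹ * Hm G (u a) p), hh,
      hup_mat]
  rw [h1, h3, h4, ← hEE]
  have h5 : E * Hm G (u a) p * E * (E * Hm G (u b) p * E) =
      E * (Hm G (u a) p * E * (E * Hm G (u b) p) * E) := by
    simp only [Matrix.mul_assoc]
  have h6 : E * E * Hm G (u a) p * (E * E * Hm G (u b) p) =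
      (E * E) * (Hm G (u a) p * E * (E * Hm G (u b) p)) := by
    simp only [Matrix.mul_assoc]
  rw [h5, Matrix.trace_mul_comm, h6, Matrix.trace_mul_comm (E * E)]
  congr 1
  simp only [Matrix.mul_assoc]

theorem frame_vv (hE : E.PosDef) (hEE : E * E = (G p)⁻¹) (a b : Fin N) (i : Fin n) :
    vv G (u a) (u b) i p = ∑ k, E i k * (Cm E G u k p * (Bm E u p)ᵀ) a b := by
  have h0 : (fun i => vv G (u a) (u b) i p) =
      ((G p)⁻¹ * Hm G (u a) p) *ᵥ ((G p)⁻¹ *ᵥ (Dv (u b) p)) := rfl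
  have h1 : ∀ k, (Cm E G u k p * (Bm E u p)ᵀ) a b =
      ((E * Hm G (u a) p * E) *ᵥ (fun i => Bm E u p b i)) k := by
    intro k
    rw [Matrix.mul_apply]
    simp only [Matrix.mulVec, dotProduct, Matrix.transpose_apply]
    refine Finset.sum_congr rfl fun i _ => ?_
    rw [Cm_row]
  have h2 : (fun i => ∑ k, E i k * (Cm E G u k p * (Bm E u p)ᵀ) a b) =
      E *ᵥ ((E * Hm G (u a) p * E) *ᵥ (fun i => Bm E u p b i)) := by
    funext i
    simp only [h1]
    rfl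
  have h3 : (fun i => vv G (u a) (u b) i p) =
      (fun i => ∑ k, E i k * (Cm E G u k p * (Bm E u p)ᵀ) a b) := by
    rw [h0, h2, Bm_row hE, ← hEE]
    simp only [Matrix.mulVec_mulVec, Matrix.mul_assoc]
  exact congrFun h3 i

/-- `(∇²u_a)(e_k, ∇u_b)` in the frame -/
theorem frame_dip (hE : E.PosDef) (hEE : E * E = (G p)⁻¹) (a b : Fin N) (k : Fin n) :
    ∑ i, E k i * ∑ j, hess G (u a) i j p * grad G (u b) j p =
      (Cm E G u k p * (Bm E u p)ᵀ) a b := by
  have h1 : (Cm E G u k p * (Bm E u p)ᵀ) a b =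
      ((E * Hm G (u a) p * E) *ᵥ (fun i => Bm E u p b i)) k := by
    rw [Matrix.mul_apply]
    simp only [Matrix.mulVec, dotProduct, Matrix.transpose_apply]
    refine Finset.sum_congr rfl fun i _ => ?_
    rw [Cm_row]
  have h2 : ∑ i, E k i * ∑ j, hess G (u a) i j p * grad G (u b) j p =
      (E *ᵥ (Hm G (u a) p *ᵥ ((G p)⁻¹ *ᵥ (Dv (u b) p)))) k := rfl
  rw [h1, h2, Bm_row hE, ← hEE]
  simp only [Matrix.mulVec_mulVec, Matrix.mul_assoc]

theorem frame_rr (hE : E.PosDef) (hEE : E * E = (G p)⁻¹) (a b : Fin N) :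
    rr G (u a) (u b) p = (Bm E u p * Rm E G p * (Bm E u p)ᵀ) a b := by
  have h1 : (Bm E u p * Rm E G p * (Bm E u p)ᵀ) a b =
      (fun i => Bm E u p a i) ⬝ᵥ (Rm E G p *ᵥ (fun i => Bm E u p b i)) := by
    rw [Matrix.mul_assoc, Matrix.mul_apply]
    rfl
  have h2 : rr G (u a) (u b) p = (fun i => grad G (u a) i p) ⬝ᵥ
      (Matrix.of (fun i j => ricci G i j p) *ᵥ (fun i => grad G (u b) i p)) := by
    simp only [rr, dotProduct, Matrix.mulVec, Matrix.of_apply, Finset.mul_sum]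
    refine Finset.sum_congr rfl fun i _ => Finset.sum_congr rfl fun j _ => by ring
  have h3 : ∀ c : Fin N, (fun i => grad G (u c) i p) = E *ᵥ (fun i => Bm E u p c i) := fun c => by
    funext i
    exact grad_frame hE hEE c i
  rw [h1, h2, h3, h3, Rm]
  rw [← Matrix.mulVec_mulVec, ← Matrix.mulVec_mulVec, Matrix.dotProduct_mulVec _ E,
    ← Matrix.mulVec_transpose, E_symm hE]

theorem frame_scal (hE : E.PosDef) (hEE : E * E = (G p)⁻¹) :
    (Rm E G p).trace = scal G p := by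
  rw [Rm, Matrix.mul_assoc, Matrix.trace_mul_comm, Matrix.mul_assoc, hEE]
  have hs : ∀ i j, (G p)⁻¹ i j = (G p)⁻¹ j i := by
    intro i j
    have : ((G p)⁻¹)ᵀ = (G p)⁻¹ := by
      rw [← hEE, Matrix.transpose_mul, E_symm hE]
    conv_lhs => rw [← this]
    rfl
  simp only [Matrix.trace, Matrix.diag, Matrix.mul_apply, Matrix.of_apply, scal]
  refine Finset.sum_congr rfl fun i _ => Finset.sum_congr rfl fun j _ => ?_
  rw [hs j i]; ring

end

end Pool.Agent.Helper73.HB
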