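import Pool.Agent.Helper73.HB.Calc

/-! # Integration by parts against Lipschitz cutoffs (HB-10)

PROOFS. `F` is only controlled on the open set `U`; outside it is arbitrary. `ψ = 0` off
`tsupport ψ`, and `pd i ψ = 0` off `tsupport ψ` as well (`ψ` vanishes near such a point).
`pd_zero_off`: `pd_congr` with the zero function.
`integrable_mul`: `ψ F` is the indicator of the compact set `tsupport ψ` times a function continuous
on it; so it is integrable (`ContinuousOn.integrableOn_compact`, `integrable_indicator_iff`).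
`integrable_pd_mul`: `pd i ψ` is measurable (`measurable_lineDeriv`) and bounded by `L` (norm of the
line derivative of a Lipschitz function, `LipschitzWith.norm_lineDeriv_le` or similar), `F` is
bounded and continuous on `tsupport ψ`.
`ibp`: choose a smooth `χ` with compact support in `U`, `χ = 1` near `tsupport ψ`
(`exists_contDiff_tsupport_subset` or `exists_smooth_one_nhds_of_subset_interior` / a smooth Urysohn
lemma). Then `F' = χ F` is `C¹` on the whole space with compact support, hence Lipschitz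
(`ContDiff.lipschitzWith_of_hasCompactSupport`), and
`LipschitzWith.integral_lineDeriv_mul_eq` (file `Mathlib/Analysis/Calculus/Rademacher.lean`) gives
`∫ pd i F' * ψ = ∫ lineDeriv ℝ ψ p (-eᵢ) * F'`. On `tsupport ψ` we have `F' = F` near the point, so
`pd i F' = pd i F`; `lineDeriv ℝ ψ p (-v) = - lineDeriv ℝ ψ p v` for every `p` (`lineDeriv_neg`, true
without differentiability). -/

namespace Pool.Agent.Helper73.HB

open scoped ContDiff Topology NNReal
open Pool.Agent.Helper49.Ric MeasureTheory Filter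

noncomputable section

variable {n : ℕ} {U : Set (Fin n → ℝ)} {ψ F : (Fin n → ℝ) → ℝ} {L : ℝ≥0}

/-- a smooth cutoff which is one near a compact subset of an open set -/
theorem exists_cut {K V : Set (Fin n → ℝ)} (hK : IsCompact K) (hV : IsOpen V) (hKV : K ⊆ V) :
    ∃ χ : (Fin n → ℝ) → ℝ, ContDiff ℝ ∞ χ ∧ HasCompactSupport χ ∧ tsupport χ ⊆ V ∧
      ∀ p ∈ K, ∀ᶠ q in 𝓝 p, χ q = 1 := by
  obtain ⟨K', hK'c, hKK', hK'V⟩ := exists_compact_between hK hV hKV
  obtain ⟨f, hf1, hf0, -⟩ := exists_contMDiffMap_one_nhds_of_subset_interior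
    (modelWithCornersSelf ℝ (Fin n → ℝ)) (n := ⊤) hK.isClosed hKK'
  have hsupp : Function.support f ⊆ K' := by
    intro x hx
    by_contra h
    exact hx (hf0 x h)
  refine ⟨f, f.contMDiff.contDiff, HasCompactSupport.intro hK'c hf0,
    (closure_minimal hsupp hK'c.isClosed).trans hK'V, fun p hp => ?_⟩
  exact hf1.filter_mono (nhds_le_nhdsSet hp)

theorem pd_zero_off {p : Fin n → ℝ} (hp : p ∉ tsupport ψ) (i : Fin n) : pd i ψ p = 0 := by
  have h1 : ψ =ᶠ[𝓝 p] fun _ => (0 : ℝ) := notMem_tsupport_iff_eventuallyEq.mp hp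
  rw [pd_congr h1, pd_const]

/-- at a zero of a nonnegative function the partial derivatives vanish -/
theorem pd_zero_of_nonneg {p : Fin n → ℝ} (h0 : ∀ q, 0 ≤ ψ q) (hp : ψ p = 0) (i : Fin n) :
    pd i ψ p = 0 := by
  unfold pd lineDeriv
  apply IsLocalMin.deriv_eq_zero
  refine Filter.Eventually.of_forall fun t => ?_
  simp only [zero_smul, add_zero, hp]
  exact h0 _

theorem continuous_mul_of (hψ : Continuous ψ)
    (hF : ∀ p ∈ tsupport ψ, ContinuousAt F p) : Continuous (fun p => ψ p * F p) := by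
  rw [continuous_iff_continuousAt]
  intro p
  by_cases hp : p ∈ tsupport ψ
  · exact hψ.continuousAt.mul (hF p hp)
  · have h1 : ψ =ᶠ[𝓝 p] fun _ => (0 : ℝ) := notMem_tsupport_iff_eventuallyEq.mp hp
    have h2 : (fun q => ψ q * F q) =ᶠ[𝓝 p] fun _ => (0 : ℝ) := by
      filter_upwards [h1] with q hq
      rw [hq, zero_mul]
    exact continuousAt_const.congr h2.symm

theorem integrable_mul (hψ : LipschitzWith L ψ) (hc : HasCompactSupport ψ)
    (hs : tsupport ψ ⊆ U) (hF : ∀ p ∈ U, ContinuousAt F p) :
    Integrable (fun p => ψ p * F p) := by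
  refine Continuous.integrable_of_hasCompactSupport
    (continuous_mul_of hψ.continuous fun p hp => hF p (hs hp)) ?_
  exact hc.mul_right

theorem integrable_pd_mul (hψ : LipschitzWith L ψ) (hc : HasCompactSupport ψ)
    (hs : tsupport ψ ⊆ U) (hF : ∀ p ∈ U, ContinuousAt F p) (i : Fin n) :
    Integrable (fun p => pd i ψ p * F p) := by
  have hK : IsCompact (tsupport ψ) := hc
  have h1 : ContinuousOn F (tsupport ψ) := fun p hp => (hF p (hs hp)).continuousWithinAt
  have h2 : Integrable ((tsupport ψ).indicator F) :=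
    (h1.integrableOn_compact hK).integrable_indicator hK.isClosed.measurableSet
  have h3 : (fun p => pd i ψ p * F p) = fun p => pd i ψ p * (tsupport ψ).indicator F p := by
    funext p
    by_cases hp : p ∈ tsupport ψ
    · rw [Set.indicator_of_mem hp]
    · rw [pd_zero_off hp, zero_mul, zero_mul]
  rw [h3]
  refine h2.bdd_mul (c := L * ‖(Pi.single i 1 : Fin n → ℝ)‖) ?_ ?_
  · exact (measurable_lineDeriv hψ.continuous).aestronglyMeasurable
  · exact Filter.Eventually.of_forall fun p => norm_lineDeriv_le_of_lipschitz ℝ hψ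

theorem ibp (hU : IsOpen U) (hψ : LipschitzWith L ψ) (hc : HasCompactSupport ψ)
    (hs : tsupport ψ ⊆ U) (hF : ∀ p ∈ U, ContDiffAt ℝ 1 F p) (i : Fin n) :
    ∫ p, ψ p * pd i F p = - ∫ p, pd i ψ p * F p := by
  have hK : IsCompact (tsupport ψ) := hc
  obtain ⟨χ, hχ, hχc, hχU, hχ1⟩ := exists_cut hK hU hs
  have hF' : ContDiff ℝ 1 (fun p => χ p * F p) := by
    rw [contDiff_iff_contDiffAt]
    intro p
    by_cases hp : p ∈ tsupport χ
    · exact (hχ.contDiffAt.of_le (by exact_mod_cast le_top)).mul (hF p (hχU hp))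
    · have h1 : χ =ᶠ[𝓝 p] fun _ => (0 : ℝ) := notMem_tsupport_iff_eventuallyEq.mp hp
      have h2 : (fun q => χ q * F q) =ᶠ[𝓝 p] fun _ => (0 : ℝ) := by
        filter_upwards [h1] with q hq
        rw [hq, zero_mul]
      exact contDiffAt_const.congr_of_eventuallyEq h2
  have hF'c : HasCompactSupport (fun p => χ p * F p) := hχc.mul_right
  obtain ⟨D, hD⟩ := ContDiff.lipschitzWith_of_hasCompactSupport hF'c hF' (by simp)
  have key := hD.integral_lineDeriv_mul_eq (μ := volume) hψ hc (Pi.single i 1)
  have e1 : ∀ p, lineDeriv ℝ (fun p => χ p * F p) p (Pi.single i 1) * ψ p = ψ p * pd i F p := by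
    intro p
    by_cases hp : p ∈ tsupport ψ
    · have h1 : (fun q => χ q * F q) =ᶠ[𝓝 p] F := by
        filter_upwards [hχ1 p hp] with q hq
        rw [hq, one_mul]
      have h2 : pd i (fun q => χ q * F q) p = pd i F p := pd_congr h1 i
      unfold pd at h2
      rw [h2, mul_comm]
      rfl
    · rw [image_eq_zero_of_notMem_tsupport hp, mul_zero, zero_mul]
  have e2 : ∀ p, lineDeriv ℝ ψ p (-(Pi.single i 1)) * (χ p * F p) = - (pd i ψ p * F p) := by
    intro p
    rw [lineDeriv_neg]
    by_cases hp : p ∈ tsupport ψ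
    · rw [(hχ1 p hp).self_of_nhds, one_mul]
      unfold pd
      ring
    · have h1 : lineDeriv ℝ ψ p (Pi.single i 1) = 0 := pd_zero_off hp i
      rw [pd_zero_off hp, h1]
      ring
  simp only [e1, e2] at key
  rw [key, integral_neg]

end

end Pool.Agent.Helper73.HB
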