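import Pool.Agent.Helper73.HB.Sylv

/-! # The positive square root depends smoothly on the matrix (HB-2)

PROOF. Work with `ι → ι → ℝ` (= `Matrix ι ι ℝ`, a finite dimensional normed space). The map
`F X = X * X` is smooth (its entries are polynomials) and its derivative at `S₀ = S p` is
`X ↦ S₀ X + X S₀`, which is injective by `sylv`, hence a linear isomorphism (finite dimension). The
inverse function theorem (`ContDiffAt.toOpenPartialHomeomorph`, `ContDiffAt.to_localInverse`) gives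
a local inverse `T`, smooth at `A p = S₀²`, with `T (F X) = X` for `X` near `S₀`.
It remains to see that `S q → S p` as `q → p`; then `S q = T (A q)` for `q` near `p` and the
composition is smooth.
Continuity: put `X = S q - S p`, `D = A q - A p = S q X + X S p`.  Then
`tr(Xᵀ D) = tr(Xᵀ (S q) X) + tr(X (S p) Xᵀ) ≥ μ Σ Xᵢⱼ²` with `μ > 0` the smallest eigenvalue of
`S p` (or any `μ > 0` with `μ |v|² ≤ ⟨S p v, v⟩`), so by Cauchy-Schwarz
`μ (Σ Xᵢⱼ²)^(1/2) ≤ (Σ Dᵢⱼ²)^(1/2) → 0`.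
(Other way: for `A` symmetric near `A p`, `T A` is near `S p`, its transpose has the same square
and is near `S p` too, so `T A` is symmetric by local injectivity, and positive definite, so it is
`S q` by `sqrt_unique`.)
`smooth_inv_sqrt` follows from the formula `M⁻¹ = (det M)⁻¹ adj M`. -/

namespace Pool.Agent.Helper73.HB

open Matrix Filter Topology
open scoped ContDiff

variable {ι : Type*} [Fintype ι] [DecidableEq ι] {n : ℕ}

attribute [local instance] Matrix.linftyOpNormedRing Matrix.linftyOpNormedAlgebra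

private theorem eq_sum_smul (M : Matrix ι ι ℝ) :
    M = ∑ i, ∑ j, M i j • Matrix.single i j (1 : ℝ) := by
  conv_lhs => rw [Matrix.matrix_eq_sum_single M]
  refine Finset.sum_congr rfl fun i _ => Finset.sum_congr rfl fun j _ => ?_
  rw [Matrix.smul_single, smul_eq_mul, mul_one]

private theorem contDiffAt_matrix {A : (Fin n → ℝ) → Matrix ι ι ℝ} {p : Fin n → ℝ}
    (hA : ∀ i j, ContDiffAt ℝ ∞ (fun q => A q i j) p) : ContDiffAt ℝ ∞ A p := by
  have h : A = fun q => ∑ i, ∑ j, A q i j • Matrix.single i j (1 : ℝ) := by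
    funext q
    exact eq_sum_smul (A q)
  rw [h]
  refine ContDiffAt.sum fun i _ => ContDiffAt.sum fun j _ => ?_
  exact (hA i j).smul contDiffAt_const

private theorem tendsto_matrix {A : (Fin n → ℝ) → Matrix ι ι ℝ} {p : Fin n → ℝ}
    {B : Matrix ι ι ℝ} (hA : ∀ i j, Tendsto (fun q => A q i j) (𝓝 p) (𝓝 (B i j))) :
    Tendsto A (𝓝 p) (𝓝 B) := by
  have h : A = fun q => ∑ i, ∑ j, A q i j • Matrix.single i j (1 : ℝ) := by
    funext q
    exact eq_sum_smul (A q)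
  rw [h, eq_sum_smul B]
  refine tendsto_finset_sum _ fun i _ => tendsto_finset_sum _ fun j _ => ?_
  exact (hA i j).smul tendsto_const_nhds

private theorem contDiffAt_entry {A : (Fin n → ℝ) → Matrix ι ι ℝ} {p : Fin n → ℝ}
    (hA : ContDiffAt ℝ ∞ A p) (i j : ι) : ContDiffAt ℝ ∞ (fun q => A q i j) p := by
  let l : Matrix ι ι ℝ →L[ℝ] ℝ := (Matrix.entryLinearMap ℝ ℝ i j).toContinuousLinearMap
  have h : (fun q => A q i j) = fun q => l (A q) := rfl
  rw [h]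
  exact l.contDiff.contDiffAt.comp p hA

/-- a positive definite form is bounded below by a multiple of the sum of the squares -/
private theorem exists_lower {S : Matrix ι ι ℝ} (hS : S.PosDef) :
    ∃ μ : ℝ, 0 < μ ∧ ∀ v : ι → ℝ, μ * ∑ i, v i ^ 2 ≤ v ⬝ᵥ (S *ᵥ v) := by
  classical
  rcases isEmpty_or_nonempty ι with hι | hι
  · exact ⟨1, one_pos, fun v => by simp [dotProduct]⟩
  have hcont : Continuous fun v : ι → ℝ => v ⬝ᵥ (S *ᵥ v) := by
    simp only [dotProduct, mulVec]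
    fun_prop
  have hcomp : IsCompact (Metric.sphere (0 : ι → ℝ) 1) := isCompact_sphere _ _
  have hne : (Metric.sphere (0 : ι → ℝ) 1).Nonempty := by
    refine ⟨fun _ => 1, ?_⟩
    rw [mem_sphere_zero_iff_norm]
    exact (pi_norm_const (1 : ℝ)).trans norm_one
  obtain ⟨v0, hv0, hmin⟩ := hcomp.exists_isMinOn hne hcont.continuousOn
  have hv0n : v0 ≠ 0 := by
    rintro rfl
    rw [mem_sphere_zero_iff_norm, norm_zero] at hv0
    exact zero_ne_one hv0
  have hpos : 0 < v0 ⬝ᵥ (S *ᵥ v0) := by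
    have := hS.dotProduct_mulVec_pos hv0n
    simpa using this
  have hcard : (0 : ℝ) < Fintype.card ι := Nat.cast_pos.2 Fintype.card_pos
  refine ⟨(v0 ⬝ᵥ (S *ᵥ v0)) / Fintype.card ι, div_pos hpos hcard, fun v => ?_⟩
  have h1 : ∑ i, v i ^ 2 ≤ Fintype.card ι * ‖v‖ ^ 2 := by
    have h2 : ∀ i ∈ Finset.univ, v i ^ 2 ≤ ‖v‖ ^ 2 := fun i _ => by
      rw [← sq_abs (v i)]
      exact pow_le_pow_left₀ (abs_nonneg _) (norm_le_pi_norm v i) 2
    have h3 := Finset.sum_le_card_nsmul Finset.univ (fun i => v i ^ 2) (‖v‖ ^ 2) h2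
    rw [nsmul_eq_mul, Finset.card_univ] at h3
    exact h3
  have h4 : (v0 ⬝ᵥ (S *ᵥ v0)) * ‖v‖ ^ 2 ≤ v ⬝ᵥ (S *ᵥ v) := by
    rcases eq_or_ne v 0 with rfl | hv
    · simp
    have hvn : 0 < ‖v‖ := norm_pos_iff.2 hv
    have h5 : ‖v‖⁻¹ • v ∈ Metric.sphere (0 : ι → ℝ) 1 := by
      rw [mem_sphere_zero_iff_norm, norm_smul, norm_inv, norm_norm, inv_mul_cancel₀ hvn.ne']
    have h6 := hmin h5
    simp only [Set.mem_setOf_eq, mulVec_smul, dotProduct_smul, smul_dotProduct, smul_eq_mul] at h6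
    have h7 : v ⬝ᵥ (S *ᵥ v) = ‖v‖ ^ 2 * (‖v‖⁻¹ * (‖v‖⁻¹ * (v ⬝ᵥ (S *ᵥ v)))) := by
      field_simp
    rw [h7, mul_comm]
    exact mul_le_mul_of_nonneg_left h6 (sq_nonneg _)
  calc (v0 ⬝ᵥ (S *ᵥ v0)) / Fintype.card ι * ∑ i, v i ^ 2
      ≤ (v0 ⬝ᵥ (S *ᵥ v0)) / Fintype.card ι * (Fintype.card ι * ‖v‖ ^ 2) :=
        mul_le_mul_of_nonneg_left h1 (div_pos hpos hcard).le
    _ = (v0 ⬝ᵥ (S *ᵥ v0)) * ‖v‖ ^ 2 := by field_simp
    _ ≤ v ⬝ᵥ (S *ᵥ v) := h4

private theorem sum_sq_le {S T : Matrix ι ι ℝ} (hT : T.PosDef) {μ : ℝ} (hμ : 0 < μ)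
    (hS : ∀ v : ι → ℝ, μ * ∑ i, v i ^ 2 ≤ v ⬝ᵥ (S *ᵥ v)) :
    ∑ i, ∑ j, (T i j - S i j) ^ 2 ≤ (∑ i, ∑ j, ((T * T) i j - (S * S) i j) ^ 2) / μ ^ 2 := by
  have hX : T * T - S * S = T * (T - S) + (T - S) * S := by
    rw [Matrix.mul_sub, Matrix.sub_mul]
    abel
  obtain ⟨X, hXd⟩ : ∃ X, X = T - S := ⟨_, rfl⟩
  obtain ⟨D, hDd⟩ : ∃ D, D = T * T - S * S := ⟨_, rfl⟩
  have hXe : ∀ i j, T i j - S i j = X i j := fun i j => by rw [hXd]; rfl
  have hDe : ∀ i j, (T * T) i j - (S * S) i j = D i j := fun i j => by rw [hDd]; rfl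
  simp only [hXe, hDe]
  rw [← hDd, ← hXd] at hX
  have h1 : (Xᵀ * D).trace = ∑ i, ∑ j, X i j * D i j := by
    simp only [Matrix.trace, Matrix.diag, Matrix.mul_apply, Matrix.transpose_apply]
    exact Finset.sum_comm
  have h2 : 0 ≤ (Xᵀ * (T * X)).trace := by
    have := (hT.posSemidef.conjTranspose_mul_mul_same X).trace_nonneg
    rw [Matrix.mul_assoc] at this
    rwa [Matrix.conjTranspose_eq_transpose_of_trivial] at this
  have h3 : μ * ∑ i, ∑ j, X i j ^ 2 ≤ (Xᵀ * (X * S)).trace := by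
    rw [Matrix.trace_mul_comm, Matrix.mul_assoc]
    have h4 : (X * (S * Xᵀ)).trace = ∑ i, (X i) ⬝ᵥ (S *ᵥ (X i)) := by
      simp only [Matrix.trace, Matrix.diag]
      refine Finset.sum_congr rfl fun i _ => ?_
      rw [Matrix.mul_apply]
      refine Finset.sum_congr rfl fun j _ => ?_
      rw [Matrix.mul_apply]
      rfl
    rw [h4, Finset.mul_sum]
    exact Finset.sum_le_sum fun i _ => hS (X i)
  have h5 : μ * ∑ i, ∑ j, X i j ^ 2 ≤ ∑ i, ∑ j, X i j * D i j := by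
    rw [← h1, hX, Matrix.mul_add, Matrix.trace_add]
    linarith
  have h6 : ∑ i, ∑ j, X i j * D i j ≤
      μ / 2 * (∑ i, ∑ j, X i j ^ 2) + 1 / (2 * μ) * ∑ i, ∑ j, D i j ^ 2 := by
    rw [Finset.mul_sum, Finset.mul_sum, ← Finset.sum_add_distrib]
    refine Finset.sum_le_sum fun i _ => ?_
    rw [Finset.mul_sum, Finset.mul_sum, ← Finset.sum_add_distrib]
    refine Finset.sum_le_sum fun j _ => ?_
    have h7 : 0 ≤ (μ * X i j - D i j) ^ 2 := sq_nonneg _
    have h8 : μ / 2 * X i j ^ 2 + 1 / (2 * μ) * D i j ^ 2 - X i j * D i j =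
        (μ * X i j - D i j) ^ 2 / (2 * μ) := by
      field_simp
      ring
    have h9 : 0 ≤ (μ * X i j - D i j) ^ 2 / (2 * μ) := by positivity
    linarith
  have h10 : μ / 2 * ∑ i, ∑ j, X i j ^ 2 ≤ 1 / (2 * μ) * ∑ i, ∑ j, D i j ^ 2 := by
    linarith
  rw [le_div_iff₀ (by positivity)]
  have h11 := mul_le_mul_of_nonneg_left h10 (by positivity : 0 ≤ 2 * μ)
  have h12 : 2 * μ * (μ / 2 * ∑ i, ∑ j, X i j ^ 2) = (∑ i, ∑ j, X i j ^ 2) * μ ^ 2 := by
    ring
  have h13 : 2 * μ * (1 / (2 * μ) * ∑ i, ∑ j, D i j ^ 2) = ∑ i, ∑ j, D i j ^ 2 := by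
    field_simp
  rw [h12, h13] at h11
  exact h11

private theorem tendsto_sqrt {A S : (Fin n → ℝ) → Matrix ι ι ℝ} {p : Fin n → ℝ}
    (hA : ∀ i j, ContinuousAt (fun q => A q i j) p)
    (hS : ∀ᶠ q in 𝓝 p, (S q).PosDef ∧ S q * S q = A q) (i j : ι) :
    Tendsto (fun q => S q i j) (𝓝 p) (𝓝 (S p i j)) := by
  obtain ⟨hSp, hAp⟩ := hS.self_of_nhds
  obtain ⟨μ, hμ, hlow⟩ := exists_lower hSp
  have h1 : Tendsto (fun q => (∑ k, ∑ l, (A q k l - A p k l) ^ 2) / μ ^ 2) (𝓝 p) (𝓝 0) := by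
    have h2 : Tendsto (fun q => (∑ k, ∑ l, (A q k l - A p k l) ^ 2) / μ ^ 2) (𝓝 p)
        (𝓝 ((∑ k, ∑ l, (A p k l - A p k l) ^ 2) / μ ^ 2)) := by
      refine Tendsto.div_const (tendsto_finset_sum _ fun k _ => tendsto_finset_sum _ fun l _ => ?_) _
      exact ((hA k l).tendsto.sub tendsto_const_nhds).pow 2
    simpa using h2
  have h3 : Tendsto (fun q => (S q i j - S p i j) ^ 2) (𝓝 p) (𝓝 0) := by
    refine tendsto_of_tendsto_of_tendsto_of_le_of_le' tendsto_const_nhds h1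
      (Eventually.of_forall fun q => sq_nonneg _) ?_
    filter_upwards [hS] with q hq
    have h4 := sum_sq_le hq.1 hμ hlow
    rw [hq.2, hAp] at h4
    refine le_trans ?_ h4
    have h5 := Finset.single_le_sum (s := Finset.univ) (f := fun l => (S q i l - S p i l) ^ 2)
      (fun l _ => sq_nonneg _) (Finset.mem_univ j)
    have h6 := Finset.single_le_sum (s := Finset.univ)
      (f := fun k => ∑ l, (S q k l - S p k l) ^ 2)
      (fun k _ => Finset.sum_nonneg fun l _ => sq_nonneg _) (Finset.mem_univ i)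
    exact le_trans h5 h6
  have h7 : Tendsto (fun q => |S q i j - S p i j|) (𝓝 p) (𝓝 0) := by
    have h8 := (Real.continuous_sqrt.tendsto 0).comp h3
    rw [Real.sqrt_zero] at h8
    refine h8.congr fun q => ?_
    show Real.sqrt ((S q i j - S p i j) ^ 2) = _
    exact Real.sqrt_sq_eq_abs _
  have h9 : Tendsto (fun q => S q i j - S p i j) (𝓝 p) (𝓝 0) :=
    (tendsto_zero_iff_abs_tendsto_zero _).2 h7
  have h10 := h9.add (tendsto_const_nhds (x := S p i j))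
  simpa using h10

theorem smooth_sqrt {A S : (Fin n → ℝ) → Matrix ι ι ℝ} {p : Fin n → ℝ}
    (hA : ∀ i j, ContDiffAt ℝ ∞ (fun q => A q i j) p)
    (hS : ∀ᶠ q in 𝓝 p, (S q).PosDef ∧ S q * S q = A q) (i j : ι) :
    ContDiffAt ℝ ∞ (fun q => S q i j) p := by
  have hcomp : CompleteSpace (Matrix ι ι ℝ) := FiniteDimensional.complete ℝ _
  obtain ⟨hSp, hAp⟩ := hS.self_of_nhds
  have hAm : ContDiffAt ℝ ∞ A p := contDiffAt_matrix hA
  have hSt : Tendsto S (𝓝 p) (𝓝 (S p)) :=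
    tendsto_matrix fun k l => tendsto_sqrt (fun a b => (hA a b).continuousAt) hS k l
  let L : Matrix ι ι ℝ →L[ℝ] Matrix ι ι ℝ :=
    ContinuousLinearMap.mul ℝ (Matrix ι ι ℝ) (S p) +
      (ContinuousLinearMap.mul ℝ (Matrix ι ι ℝ)).flip (S p)
  have hL : ∀ X, L X = S p * X + X * S p := fun X => rfl
  have hLinj : Function.Injective L := by
    rw [injective_iff_map_eq_zero]
    intro X hX
    rw [hL] at hX
    exact sylv hSp hSp hX
  let L' : Matrix ι ι ℝ ≃L[ℝ] Matrix ι ι ℝ :=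
    (LinearEquiv.ofInjectiveEndo (L : Matrix ι ι ℝ →ₗ[ℝ] Matrix ι ι ℝ)
      hLinj).toContinuousLinearEquiv
  have hL' : (L' : Matrix ι ι ℝ →L[ℝ] Matrix ι ι ℝ) = L := by
    ext1 X
    rfl
  let F : Matrix ι ι ℝ → Matrix ι ι ℝ := fun X => X * X
  have hF : ContDiffAt ℝ ∞ F (S p) := contDiffAt_id.mul contDiffAt_id
  have hF' : HasFDerivAt F (L' : Matrix ι ι ℝ →L[ℝ] Matrix ι ι ℝ) (S p) := by
    rw [hL']
    have h1 := (hasFDerivAt_id (𝕜 := ℝ) (S p)).mul' (hasFDerivAt_id (S p))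
    refine h1.congr_fderiv ?_
    ext1 X
    rfl
  have hn : (∞ : WithTop ℕ∞) ≠ 0 := by simp
  have hT := hF.to_localInverse hF' hn
  have hleft : ∀ᶠ X in 𝓝 (S p), hF.localInverse hF' hn (F X) = X :=
    (hF.hasStrictFDerivAt' hF' hn).eventually_left_inverse
  have hev : S =ᶠ[𝓝 p] fun q => hF.localInverse hF' hn (A q) := by
    filter_upwards [hSt.eventually hleft, hS] with q hq hq2
    rw [← hq2.2]
    exact hq.symm
  have hFA : F (S p) = A p := hAp
  rw [hFA] at hT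
  have hSm : ContDiffAt ℝ ∞ S p := (hT.comp p hAm).congr_of_eventuallyEq hev
  exact contDiffAt_entry hSm i j

/-- the inverse of a smooth matrix with nonzero determinant is smooth -/
theorem smooth_matrix_inv {S : (Fin n → ℝ) → Matrix ι ι ℝ} {p : Fin n → ℝ}
    (hS : ∀ i j, ContDiffAt ℝ ∞ (fun q => S q i j) p) (h0 : (S p).det ≠ 0) (i j : ι) :
    ContDiffAt ℝ ∞ (fun q => (S q)⁻¹ i j) p := by
  have hcomp : CompleteSpace (Matrix ι ι ℝ) := FiniteDimensional.complete ℝ _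
  have hSm : ContDiffAt ℝ ∞ S p := contDiffAt_matrix hS
  have hu : IsUnit (S p) := (Matrix.isUnit_iff_isUnit_det _).2 (isUnit_iff_ne_zero.2 h0)
  obtain ⟨u, hu⟩ := hu
  have h1 : ContDiffAt ℝ ∞ (Ring.inverse : Matrix ι ι ℝ → Matrix ι ι ℝ) (S p) := by
    rw [← hu]
    exact contDiffAt_ringInverse ℝ u
  have h2 : ContDiffAt ℝ ∞ (fun q => (S q)⁻¹) p := by
    have h3 : (fun q => (S q)⁻¹) = fun q => Ring.inverse (S q) := by
      funext q
      exact Matrix.nonsing_inv_eq_ringInverse _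
    rw [h3]
    exact h1.comp p hSm
  exact contDiffAt_entry h2 i j

end Pool.Agent.Helper73.HB
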