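import Pool.Agent.Helper73.HB.Calc
import Pool.Agent.Helper73.HB.SmSqrt

/-! # The inverse metric and the determinant (HB-5)

PROOFS. `posDef`: definition of the metric and `posDef_iff_dotProduct_mulVec` (real matrices, `star`
is trivial). The next ones: `Matrix.PosDef.det_pos`, `Matrix.mul_nonsing_inv`, symmetry of the
inverse (`PosDef.inv`). `smooth_det`: `Matrix.det_apply`, finite sums and products of smooth
functions. `smooth_inv`: `smooth_matrix_inv` of `SmSqrt`.
`pd_inv_metric`: `U` is open, so `Σ_j G q i j (G q)⁻¹ j k` is locally constant; differentiate the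
product and multiply by the inverse.
`pd_det` (Jacobi): differentiate `Matrix.det_apply`, or use multilinearity:
`∂_k det G = Σ_a det (G.updateRow a (∂_k G a)) = Σ_a Σ_b ∂_k G_ab (adj G)_ba`
(`Matrix.adjugate_apply`, `Matrix.cramer`), and `adj G = det G • G⁻¹`. -/

namespace Pool.Agent.Helper73.HB

open scoped ContDiff Topology
open Pool.Agent.Helper49.Ric MeasureTheory Filter

noncomputable section

variable {n : ℕ} {U : Set (Fin n → ℝ)} {G : (Fin n → ℝ) → Matrix (Fin n) (Fin n) ℝ}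
  {p : Fin n → ℝ}

theorem posDef (hG : IsMetricOn U G) (hp : p ∈ U) : (G p).PosDef := by
  rw [Matrix.posDef_iff_dotProduct_mulVec]
  refine ⟨?_, ?_⟩
  · ext i j
    rw [Matrix.conjTranspose_apply]
    simpa using hG.symm p hp j i
  · intro v hv
    have h1 := hG.pos p hp v hv
    have h2 : star v ⬝ᵥ (G p).mulVec v = ∑ i, ∑ j, G p i j * v i * v j := by
      simp only [dotProduct, Matrix.mulVec, Pi.star_apply, star_trivial, Finset.mul_sum]
      refine Finset.sum_congr rfl fun i _ => Finset.sum_congr rfl fun j _ => ?_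
      ring
    rw [h2]
    exact h1

theorem inv_posDef (hG : IsMetricOn U G) (hp : p ∈ U) : ((G p)⁻¹).PosDef :=
  (posDef hG hp).inv

theorem det_pos (hG : IsMetricOn U G) (hp : p ∈ U) : 0 < (G p).det :=
  (posDef hG hp).det_pos

private theorem isUnit_det' (hG : IsMetricOn U G) (hp : p ∈ U) : IsUnit (G p).det :=
  (det_pos hG hp).ne'.isUnit

theorem inv_symm (hG : IsMetricOn U G) (hp : p ∈ U) (i j : Fin n) :
    (G p)⁻¹ i j = (G p)⁻¹ j i := by
  have h1 := congrFun (congrFun (inv_posDef hG hp).isHermitian i) j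
  rw [Matrix.conjTranspose_apply] at h1
  simpa using h1.symm

theorem mul_inv_metric (hG : IsMetricOn U G) (hp : p ∈ U) (i k : Fin n) :
    ∑ j, G p i j * (G p)⁻¹ j k = if i = k then 1 else 0 := by
  have h1 := congrFun (congrFun (Matrix.mul_nonsing_inv (G p) (isUnit_det' hG hp)) i) k
  rw [Matrix.mul_apply, Matrix.one_apply] at h1
  exact h1

theorem inv_mul_metric (hG : IsMetricOn U G) (hp : p ∈ U) (i k : Fin n) :
    ∑ j, (G p)⁻¹ i j * G p j k = if i = k then 1 else 0 := by
  have h1 := congrFun (congrFun (Matrix.nonsing_inv_mul (G p) (isUnit_det' hG hp)) i) k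
  rw [Matrix.mul_apply, Matrix.one_apply] at h1
  exact h1

theorem smooth_det (hG : IsMetricOn U G) (hp : p ∈ U) :
    ContDiffAt ℝ ∞ (fun q => (G q).det) p := by
  have h1 : (fun q => (G q).det) =
      fun q => ∑ σ : Equiv.Perm (Fin n), (((Equiv.Perm.sign σ : ℤˣ) : ℤ) : ℝ) *
        ∏ i, G q (σ i) i := by
    funext q
    rw [Matrix.det_apply']
  rw [h1]
  refine ContDiffAt.sum fun σ _ => ?_
  refine contDiffAt_const.mul ?_
  exact contDiffAt_prod fun i _ => hG.smooth p hp (σ i) i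

theorem smooth_inv (hG : IsMetricOn U G) (hp : p ∈ U) (i j : Fin n) :
    ContDiffAt ℝ ∞ (fun q => (G q)⁻¹ i j) p :=
  smooth_matrix_inv (hG.smooth p hp) (det_pos hG hp).ne' i j

theorem pd_inv_metric (hU : IsOpen U) (hG : IsMetricOn U G) (hp : p ∈ U) (k i j : Fin n) :
    pd k (fun q => (G q)⁻¹ i j) p =
      - ∑ a, ∑ b, (G p)⁻¹ i a * pd k (fun q => G q a b) p * (G p)⁻¹ b j := by
  let D : Matrix (Fin n) (Fin n) ℝ := fun a b => pd k (fun q => G q a b) p
  let E : Matrix (Fin n) (Fin n) ℝ := fun a b => pd k (fun q => (G q)⁻¹ a b) p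
  have hd : ∀ a b, DifferentiableAt ℝ (fun q => G q a b) p := fun a b =>
    diff_of_smooth (hG.smooth p hp a b)
  have he : ∀ a b, DifferentiableAt ℝ (fun q => (G q)⁻¹ a b) p := fun a b =>
    diff_of_smooth (smooth_inv hG hp a b)
  have h1 : D * (G p)⁻¹ + G p * E = 0 := by
    ext a b
    rw [Matrix.add_apply, Matrix.mul_apply, Matrix.mul_apply, ← Finset.sum_add_distrib,
      Matrix.zero_apply]
    have h2 : pd k (fun q => ∑ c, G q a c * (G q)⁻¹ c b) p = 0 := by
      have h3 : (fun q => ∑ c, G q a c * (G q)⁻¹ c b) =ᶠ[𝓝 p]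
          fun _ => if a = b then (1 : ℝ) else 0 := by
        filter_upwards [hU.mem_nhds hp] with q hq
        exact mul_inv_metric hG hq a b
      rw [pd_congr h3, pd_const]
    rw [pd_sum (fun c _ => (hd a c).fun_mul (he c b))] at h2
    rw [← h2]
    refine Finset.sum_congr rfl fun c _ => ?_
    rw [pd_mul (hd a c) (he c b)]
  have h2 : E = -((G p)⁻¹ * D * (G p)⁻¹) := by
    have h3 : (G p)⁻¹ * (D * (G p)⁻¹ + G p * E) = 0 := by rw [h1, Matrix.mul_zero]
    rw [Matrix.mul_add, ← Matrix.mul_assoc, ← Matrix.mul_assoc,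
      Matrix.nonsing_inv_mul (G p) (isUnit_det' hG hp), Matrix.one_mul] at h3
    exact eq_neg_of_add_eq_zero_right h3
  have h3 := congrFun (congrFun h2 i) j
  rw [Matrix.neg_apply, Matrix.mul_assoc, Matrix.mul_apply] at h3
  refine h3.trans ?_
  congr 1
  refine Finset.sum_congr rfl fun a _ => ?_
  rw [Matrix.mul_apply, Finset.mul_sum]
  refine Finset.sum_congr rfl fun b _ => ?_
  rw [mul_assoc]

private theorem pd_prod {ι : Type*} [DecidableEq ι] {s : Finset ι} {F : ι → (Fin n → ℝ) → ℝ}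
    (hF : ∀ a ∈ s, DifferentiableAt ℝ (F a) p) (i : Fin n) :
    pd i (fun q => ∏ a ∈ s, F a q) p =
      ∑ a ∈ s, (∏ b ∈ s.erase a, F b p) * pd i (F a) p := by
  have h1 : HasFDerivAt (fun q => ∏ a ∈ s, F a q)
      (∑ a ∈ s, (∏ b ∈ s.erase a, F b p) • fderiv ℝ (F a) p) p :=
    HasFDerivAt.finsetProd fun a ha => (hF a ha).hasFDerivAt
  rw [pd_eq h1.differentiableAt, h1.fderiv, sum_apply]
  refine Finset.sum_congr rfl fun a ha => ?_
  rw [pd_eq (hF a ha)]
  rfl

theorem pd_det (hG : IsMetricOn U G) (hp : p ∈ U) (k : Fin n) :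
    pd k (fun q => (G q).det) p =
      (G p).det * ∑ a, ∑ b, (G p)⁻¹ b a * pd k (fun q => G q a b) p := by
  have hd : ∀ a b, DifferentiableAt ℝ (fun q => G q a b) p := fun a b =>
    diff_of_smooth (hG.smooth p hp a b)
  have h1 : (fun q => (G q).det) =
      fun q => ∑ σ : Equiv.Perm (Fin n), (((Equiv.Perm.sign σ : ℤˣ) : ℤ) : ℝ) *
        ∏ i, G q (σ i) i := by
    funext q
    rw [Matrix.det_apply']
  have hprod : ∀ σ : Equiv.Perm (Fin n), DifferentiableAt ℝ (fun q => ∏ i, G q (σ i) i) p := by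
    intro σ
    have h2 : HasFDerivAt (fun q => ∏ i, G q (σ i) i)
        (∑ i, (∏ j ∈ Finset.univ.erase i, G p (σ j) j) • fderiv ℝ (fun q => G q (σ i) i) p) p :=
      HasFDerivAt.finsetProd fun i _ => (hd (σ i) i).hasFDerivAt
    exact h2.differentiableAt
  rw [h1, pd_sum fun σ _ => (hprod σ).const_mul _]
  have h2 : ∀ σ : Equiv.Perm (Fin n),
      pd k (fun q => (((Equiv.Perm.sign σ : ℤˣ) : ℤ) : ℝ) * ∏ i, G q (σ i) i) p =
      ∑ a, (((Equiv.Perm.sign σ : ℤˣ) : ℤ) : ℝ) *
        ∏ i, ((G p).updateCol a fun b => pd k (fun q => G q b a) p) (σ i) i := by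
    intro σ
    rw [pd_const_mul _ (hprod σ), pd_prod (fun i _ => hd (σ i) i), Finset.mul_sum]
    refine Finset.sum_congr rfl fun a _ => ?_
    congr 1
    rw [← Finset.mul_prod_erase Finset.univ _ (Finset.mem_univ a), mul_comm]
    congr 1
    · rw [Matrix.updateCol_self]
    · refine Finset.prod_congr rfl fun b hb => ?_
      rw [Matrix.updateCol_ne (Finset.ne_of_mem_erase hb)]
  rw [Finset.sum_congr rfl fun σ _ => h2 σ, Finset.sum_comm]
  have h3 : ∀ a : Fin n, ∑ σ : Equiv.Perm (Fin n), (((Equiv.Perm.sign σ : ℤˣ) : ℤ) : ℝ) *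
        ∏ i, ((G p).updateCol a fun b => pd k (fun q => G q b a) p) (σ i) i =
      ∑ b, (G p).adjugate a b * pd k (fun q => G q b a) p := by
    intro a
    rw [← Matrix.det_apply', ← Matrix.cramer_apply, Matrix.cramer_eq_adjugate_mulVec]
    rfl
  have h4 : (G p).adjugate = (G p).det • (G p)⁻¹ := by
    rw [Matrix.inv_def, smul_smul, Ring.mul_inverse_cancel _ (isUnit_det' hG hp), one_smul]
  rw [Finset.sum_congr rfl fun a _ => h3 a, Finset.sum_comm, Finset.mul_sum]
  refine Finset.sum_congr rfl fun a _ => ?_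
  rw [Finset.mul_sum]
  refine Finset.sum_congr rfl fun b _ => ?_
  rw [h4, Matrix.smul_apply, smul_eq_mul]
  ring

end

end Pool.Agent.Helper73.HB
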