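import Pool.Agent.Helper73.HB.Chr

/-! # The contracted Ricci identity (HB-7)

For a vector field `X` put `Yⁱⱼ = ∂ⱼXⁱ + Σₖ Γⁱⱼₖ Xᵏ`. Then
`Σᵢ (∂ᵢYⁱⱼ + Σₗ Γⁱᵢₗ Yˡⱼ - Σₗ Γˡᵢⱼ Yⁱₗ) - ∂ⱼ (Σᵢ Yⁱᵢ) = Σₖ Rₖⱼ Xᵏ`.
PROOF. Expand (`pd_add`, `pd_mul`, `pd_sum`, smoothness of `X` and `Γ`).
`Σᵢ ∂ᵢYⁱⱼ = Σᵢ ∂ᵢ∂ⱼXⁱ + Σᵢₖ (∂ᵢΓⁱⱼₖ Xᵏ + Γⁱⱼₖ ∂ᵢXᵏ)`,
`∂ⱼ Σᵢ Yⁱᵢ = Σᵢ ∂ⱼ∂ᵢXⁱ + Σᵢₖ (∂ⱼΓⁱᵢₖ Xᵏ + Γⁱᵢₖ ∂ⱼXᵏ)`. The second derivatives cancel (`pd_comm`). The
terms with one derivative of `X`: `Σᵢₖ Γⁱⱼₖ ∂ᵢXᵏ - Σᵢₖ Γⁱᵢₖ ∂ⱼXᵏ + Σᵢₗ Γⁱᵢₗ ∂ⱼXˡ - Σᵢₗ Γˡᵢⱼ ∂ₗXⁱ = 0`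
(rename the indices in the last sum and use the symmetry of `Γ`). There remains
`Σₖ Xᵏ [Σᵢ (∂ᵢΓⁱⱼₖ - ∂ⱼΓⁱᵢₖ) + Σᵢₗ (Γⁱᵢₗ Γˡⱼₖ - Γˡᵢⱼ Γⁱₗₖ)]`, which is `Σₖ ricci G k j Xᵏ` by the
symmetry of `Γ` (also of its derivatives: `Γⁱⱼₖ = Γⁱₖⱼ` near `p`, `pd_congr`) after renaming. -/

namespace Pool.Agent.Helper73.HB

open scoped ContDiff Topology
open Pool.Agent.Helper49.Ric MeasureTheory Filter

noncomputable section

variable {n : ℕ} {U : Set (Fin n → ℝ)} {G : (Fin n → ℝ) → Matrix (Fin n) (Fin n) ℝ}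
  {p : Fin n → ℝ}

/-- the algebra of the contracted Ricci identity -/
theorem ricci_identity_alg (D x : Fin n → ℝ) (a b dx : Fin n → Fin n → ℝ)
    (g : Fin n → Fin n → Fin n → ℝ) (hg : ∀ i j k, g i j k = g i k j) (j : Fin n) :
    ∑ i, ((D i + ∑ k, (a i k * x k + g i j k * dx i k))
        + ∑ l, g i i l * (dx j l + ∑ k, g l j k * x k)
        - ∑ l, g l i j * (dx l i + ∑ k, g i l k * x k))
      - ∑ i, (D i + ∑ k, (b i k * x k + g i i k * dx j k))
      = ∑ k, (∑ i, (a i k - b i k + ∑ l, (g i i l * g l k j - g i j l * g l k i))) * x k := by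
  have h1 : ∑ i, ∑ l, g l i j * dx l i = ∑ i, ∑ k, g i j k * dx i k := by
    rw [Finset.sum_comm]
    refine Finset.sum_congr rfl fun i _ => Finset.sum_congr rfl fun k _ => ?_
    rw [hg i k j]
  have h2 : ∑ i, ∑ l, g l i j * ∑ k, g i l k * x k
      = ∑ k, (∑ i, ∑ l, g i j l * g l k i) * x k := by
    calc ∑ i, ∑ l, g l i j * ∑ k, g i l k * x k
        = ∑ i, ∑ l, ∑ k, g i j l * g l k i * x k := by
          rw [Finset.sum_comm]
          refine Finset.sum_congr rfl fun i _ => Finset.sum_congr rfl fun l _ => ?_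
          rw [Finset.mul_sum]
          refine Finset.sum_congr rfl fun k _ => ?_
          rw [hg i l j, hg l i k]
          ring
      _ = ∑ k, ∑ i, ∑ l, g i j l * g l k i * x k := by
          rw [Finset.sum_comm]
          have : ∀ l : Fin n, ∑ i, ∑ k, g i j l * g l k i * x k
              = ∑ k, ∑ i, g i j l * g l k i * x k := fun l => Finset.sum_comm
          rw [Finset.sum_congr rfl fun l _ => this l, Finset.sum_comm]
          exact Finset.sum_congr rfl fun k _ => Finset.sum_comm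
      _ = ∑ k, (∑ i, ∑ l, g i j l * g l k i) * x k := by
          refine Finset.sum_congr rfl fun k _ => ?_
          rw [Finset.sum_mul]
          exact Finset.sum_congr rfl fun i _ => (Finset.sum_mul _ _ _).symm
  have h3 : ∑ i, ∑ l, g i i l * ∑ k, g l j k * x k
      = ∑ k, (∑ i, ∑ l, g i i l * g l k j) * x k := by
    calc ∑ i, ∑ l, g i i l * ∑ k, g l j k * x k
        = ∑ i, ∑ l, ∑ k, g i i l * g l k j * x k := by
          refine Finset.sum_congr rfl fun i _ => Finset.sum_congr rfl fun l _ => ?_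
          rw [Finset.mul_sum]
          refine Finset.sum_congr rfl fun k _ => ?_
          rw [hg l j k]
          ring
      _ = ∑ i, ∑ k, ∑ l, g i i l * g l k j * x k :=
          Finset.sum_congr rfl fun i _ => Finset.sum_comm
      _ = ∑ k, ∑ i, ∑ l, g i i l * g l k j * x k := Finset.sum_comm
      _ = ∑ k, (∑ i, ∑ l, g i i l * g l k j) * x k := by
          refine Finset.sum_congr rfl fun k _ => ?_
          rw [Finset.sum_mul]
          exact Finset.sum_congr rfl fun i _ => (Finset.sum_mul _ _ _).symm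
  have h4 : ∑ i, ∑ k, a i k * x k = ∑ k, (∑ i, a i k) * x k := by
    rw [Finset.sum_comm]
    exact Finset.sum_congr rfl fun k _ => (Finset.sum_mul _ _ _).symm
  have h5 : ∑ i, ∑ k, b i k * x k = ∑ k, (∑ i, b i k) * x k := by
    rw [Finset.sum_comm]
    exact Finset.sum_congr rfl fun k _ => (Finset.sum_mul _ _ _).symm
  have hR : ∑ k, (∑ i, (a i k - b i k + ∑ l, (g i i l * g l k j - g i j l * g l k i))) * x k
      = ∑ k, (∑ i, a i k) * x k - ∑ k, (∑ i, b i k) * x k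
        + ∑ k, (∑ i, ∑ l, g i i l * g l k j) * x k
        - ∑ k, (∑ i, ∑ l, g i j l * g l k i) * x k := by
    rw [← Finset.sum_sub_distrib, ← Finset.sum_add_distrib, ← Finset.sum_sub_distrib]
    refine Finset.sum_congr rfl fun k _ => ?_
    have : ∑ i, (a i k - b i k + ∑ l, (g i i l * g l k j - g i j l * g l k i))
        = ∑ i, a i k - ∑ i, b i k + ∑ i, ∑ l, g i i l * g l k j
          - ∑ i, ∑ l, g i j l * g l k i := by
      simp only [Finset.sum_sub_distrib, Finset.sum_add_distrib]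
      ring
    rw [this]
    ring
  rw [hR, ← h2, ← h3, ← h4, ← h5]
  simp only [mul_add, Finset.sum_add_distrib, Finset.sum_sub_distrib]
  rw [h1]
  ring

theorem ricci_identity (hU : IsOpen U) (hG : IsMetricOn U G) (hp : p ∈ U)
    {X : Fin n → (Fin n → ℝ) → ℝ} (hX : ∀ k, ContDiffAt ℝ ∞ (X k) p) (j : Fin n) :
    ∑ i, (pd i (fun q => pd j (X i) q + ∑ k, christoffel G i j k q * X k q) p
        + ∑ l, christoffel G i i l p * (pd j (X l) p + ∑ k, christoffel G l j k p * X k p)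
        - ∑ l, christoffel G l i j p * (pd l (X i) p + ∑ k, christoffel G i l k p * X k p))
      - pd j (fun q => ∑ i, (pd i (X i) q + ∑ k, christoffel G i i k q * X k q)) p
      = ∑ k, ricci G k j p * X k p := by
  have hXd : ∀ k, DifferentiableAt ℝ (X k) p := fun k => diff_of_smooth (hX k)
  have hXp : ∀ i k, DifferentiableAt ℝ (pd i (X k)) p := fun i k =>
    diff_of_smooth (smooth_pd (hX k) i)
  have hGd : ∀ m i k, DifferentiableAt ℝ (christoffel G m i k) p := fun m i k =>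
    diff_of_smooth (smooth_christoffel hG hp m i k)
  have hmul : ∀ m i k, DifferentiableAt ℝ (fun q => christoffel G m i k q * X k q) p :=
    fun m i k => (hGd m i k).fun_mul (hXd k)
  have hterm : ∀ a m i, DifferentiableAt ℝ
      (fun q => pd a (X m) q + ∑ k, christoffel G m i k q * X k q) p := fun a m i =>
    (hXp a m).fun_add (DifferentiableAt.fun_sum fun k _ => hmul m i k)
  have hexp : ∀ c a m i, pd c (fun q => pd a (X m) q + ∑ k, christoffel G m i k q * X k q) p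
      = pd c (pd a (X m)) p + ∑ k, (pd c (christoffel G m i k) p * X k p
        + christoffel G m i k p * pd c (X k) p) := by
    intro c a m i
    rw [pd_add (hXp a m) (DifferentiableAt.fun_sum fun k _ => hmul m i k),
      pd_sum (fun k _ => hmul m i k)]
    congr 1
    exact Finset.sum_congr rfl fun k _ => pd_mul (hGd m i k) (hXd k) c
  have hsymm : ∀ m i k, christoffel G m i k p = christoffel G m k i p := fun m i k =>
    christoffel_symm hU hG hp m i k
  have hsymmd : ∀ c m i k, pd c (christoffel G m i k) p = pd c (christoffel G m k i) p := by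
    intro c m i k
    refine pd_congr ?_ c
    filter_upwards [hU.mem_nhds hp] with q hq
    exact christoffel_symm hU hG hq m i k
  rw [pd_sum (fun i _ => hterm i i i)]
  have e1 : ∀ i, pd i (fun q => pd j (X i) q + ∑ k, christoffel G i j k q * X k q) p
      = pd i (pd j (X i)) p + ∑ k, (pd i (christoffel G i j k) p * X k p
        + christoffel G i j k p * pd i (X k) p) := fun i => hexp i j i j
  have e2 : ∀ i, pd j (fun q => pd i (X i) q + ∑ k, christoffel G i i k q * X k q) p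
      = pd i (pd j (X i)) p + ∑ k, (pd j (christoffel G i i k) p * X k p
        + christoffel G i i k p * pd j (X k) p) := by
    intro i
    rw [hexp j i i i, pd_comm (hX i) j i]
  simp only [e1, e2]
  rw [ricci_identity_alg (fun i => pd i (pd j (X i)) p) (fun k => X k p)
    (fun i k => pd i (christoffel G i j k) p) (fun i k => pd j (christoffel G i i k) p)
    (fun i k => pd i (X k) p) (fun i j k => christoffel G i j k p) hsymm j]
  refine Finset.sum_congr rfl fun k _ => ?_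
  congr 1
  unfold ricci
  refine Finset.sum_congr rfl fun i _ => ?_
  rw [hsymmd i i j k, hsymmd j i i k]

end

end Pool.Agent.Helper73.HB
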