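import Mathlib

/-! # Square roots of positive definite real matrices (HB-1)

PROOFS.
`sylv`: take the trace of `Xᵀ (S X + X T) = 0`: `tr(Xᵀ S X) + tr(X T Xᵀ) = 0`; both terms are sums of
values of the quadratic forms of `S` (at the columns of `X`) and `T` (at the rows of `X`), so they
are nonnegative, and the first vanishes only if all the columns are zero.
`sqrt_unique`: `S (S - T) + (S - T) T = S² - T² = 0`, so `S - T = 0` by `sylv`.
`sqrt_intertwine`: `Z = S B - B T` satisfies `S Z + Z T = S² B - B T² = 0`.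
`exists_sqrt`: `CFC.sqrt` (see `Mathlib/Analysis/Matrix/Order.lean`, and
`Pool/Agent/Helper14/Cov/MatAlg.lean` line 59 for an example), or diagonalise. -/

namespace Pool.Agent.Helper73.HB

open Matrix

variable {ι κ : Type*} [Fintype ι] [DecidableEq ι] [Fintype κ] [DecidableEq κ]

theorem sylv {S : Matrix ι ι ℝ} {T : Matrix κ κ ℝ} (hS : S.PosDef) (hT : T.PosDef)
    {X : Matrix ι κ ℝ} (h : S * X + X * T = 0) : X = 0 := by
  have h1 : (Xᴴ * S * X).PosSemidef := hS.posSemidef.conjTranspose_mul_mul_same X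
  have h2 : (X * T * Xᴴ).PosSemidef := hT.posSemidef.mul_mul_conjTranspose_same X
  have h3 : (Xᴴ * S * X).trace + (X * T * Xᴴ).trace = 0 := by
    have h4 : (Xᴴ * (S * X + X * T)).trace = 0 := by rw [h, Matrix.mul_zero, trace_zero]
    rw [Matrix.mul_add, trace_add, ← Matrix.mul_assoc] at h4
    rw [trace_mul_comm (X * T) Xᴴ]
    exact h4
  have h5 : (Xᴴ * S * X).trace = 0 := by
    have := h1.trace_nonneg
    have := h2.trace_nonneg
    linarith
  have h6 : Xᴴ * S * X = 0 := h1.trace_eq_zero_iff.1 h5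
  ext i j
  have h7 : (fun i => X i j) = 0 := by
    by_contra hne
    have h8 := hS.dotProduct_mulVec_pos hne
    have h9 : star (fun i => X i j) ⬝ᵥ (S *ᵥ fun i => X i j) = (Xᴴ * S * X) j j := by
      rw [Matrix.mul_assoc, Matrix.mul_apply]
      rfl
    rw [h9, h6] at h8
    exact lt_irrefl _ h8
  exact congrFun h7 i

theorem sqrt_unique {S T : Matrix ι ι ℝ} (hS : S.PosDef) (hT : T.PosDef) (h : S * S = T * T) :
    S = T := by
  have h1 : S * (S - T) + (S - T) * T = 0 := by
    rw [Matrix.mul_sub, Matrix.sub_mul, h]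
    abel
  exact sub_eq_zero.1 (sylv hS hT h1)

theorem sqrt_intertwine {S : Matrix ι ι ℝ} {T : Matrix κ κ ℝ} (hS : S.PosDef) (hT : T.PosDef)
    {B : Matrix ι κ ℝ} (h : S * S * B = B * (T * T)) : S * B = B * T := by
  have h1 : S * (S * B - B * T) + (S * B - B * T) * T = 0 := by
    rw [Matrix.mul_sub, Matrix.sub_mul, ← Matrix.mul_assoc, h, Matrix.mul_assoc B T T,
      Matrix.mul_assoc S B T]
    abel
  exact sub_eq_zero.1 (sylv hS hT h1)

open scoped MatrixOrder in
theorem exists_sqrt {A : Matrix ι ι ℝ} (hA : A.PosDef) : ∃ S : Matrix ι ι ℝ, S.PosDef ∧ S * S = A := by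
  have h0 : (0 : Matrix ι ι ℝ) ≤ A := hA.posSemidef.nonneg
  have h2 : (CFC.sqrt A).PosSemidef := Matrix.nonneg_iff_posSemidef.1 (CFC.sqrt_nonneg A)
  have h3 : CFC.sqrt A * CFC.sqrt A = A := CFC.sqrt_mul_sqrt_self A h0
  refine ⟨CFC.sqrt A, ?_, h3⟩
  have h4 : IsUnit (CFC.sqrt A) := by
    rw [Matrix.isUnit_iff_isUnit_det, isUnit_iff_ne_zero]
    intro h
    have h1 := congrArg Matrix.det h3
    rw [Matrix.det_mul, h] at h1
    have := hA.det_pos
    rw [← h1] at this
    simp at this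
  exact h2.posDef_iff_isUnit.2 h4

end Pool.Agent.Helper73.HB
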