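import Pool.Agent.Helper73.HB.Div
import Pool.Agent.Helper73.HB.Ibp

/-! # The weak Bochner identity (HB-14)

PROOF. For every `a, b, i` apply `ibp` to `F = W_ab √g vvⁱ_ab` (smooth on `U`: `smooth_dens`,
`smooth_vv`, products), and sum over `i, a, b` (`integral_finset_sum`, integrability from
`integrable_mul`, `integrable_pd_mul`). On `U`,
`Σᵢ ∂ᵢ(W_ab √g vvⁱ_ab) = W_ab Σᵢ ∂ᵢ(√g vvⁱ_ab) + √g Σᵢ ∂ᵢW_ab vvⁱ_ab` and `div_vv`. Off
`tsupport ψ` both sides vanish (`ψ = 0`, `pd i ψ = 0`). -/

namespace Pool.Agent.Helper73.HB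

open scoped ContDiff Topology NNReal
open Pool.Agent.Helper49.Ric MeasureTheory Filter

noncomputable section

variable {n N : ℕ} {U : Set (Fin n → ℝ)} {G : (Fin n → ℝ) → Matrix (Fin n) (Fin n) ℝ}
  {u : Fin N → (Fin n → ℝ) → ℝ} {ψ : (Fin n → ℝ) → ℝ} {L : ℝ≥0}

private theorem int3 {f : Fin N → Fin N → Fin n → (Fin n → ℝ) → ℝ}
    (hf : ∀ a b i, Integrable (f a b i)) :
    ∫ p, ∑ a, ∑ b, ∑ i, f a b i p = ∑ a, ∑ b, ∑ i, ∫ p, f a b i p := by
  rw [integral_finsetSum _ (fun a _ => integrable_finsetSum _ fun b _ =>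
    integrable_finsetSum _ fun i _ => hf a b i)]
  refine Finset.sum_congr rfl fun a _ => ?_
  rw [integral_finsetSum _ (fun b _ => integrable_finsetSum _ fun i _ => hf a b i)]
  refine Finset.sum_congr rfl fun b _ => ?_
  rw [integral_finsetSum _ (fun i _ => hf a b i)]

theorem weak_bochner (hU : IsOpen U) (hG : IsMetricOn U G)
    (hu : ∀ a, ∀ q ∈ U, ContDiffAt ℝ ∞ (u a) q)
    (hψ : LipschitzWith L ψ) (hc : HasCompactSupport ψ) (hs : tsupport ψ ⊆ U)
    {W : Fin N → Fin N → (Fin n → ℝ) → ℝ} (hW : ∀ a b, ∀ q ∈ U, ContDiffAt ℝ ∞ (W a b) q) :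
    ∫ p, ψ p * ((∑ a, ∑ b, (W a b p * (hh G (u a) (u b) p + rr G (u a) (u b) p
          + ip G (lap G (u a)) (u b) p) + ∑ i, pd i (W a b) p * vv G (u a) (u b) i p)) * dens G p)
      = - ∫ p, (∑ a, ∑ b, W a b p * ∑ i, vv G (u a) (u b) i p * pd i ψ p) * dens G p := by
  have hF : ∀ a b i, ∀ q ∈ U,
      ContDiffAt ℝ ∞ (fun q => W a b q * (dens G q * vv G (u a) (u b) i q)) q :=
    fun a b i q hq => (hW a b q hq).mul
      ((smooth_dens hG hq).mul (smooth_vv hG hq (hu a q hq) (hu b q hq) i))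
  have e1 : ∀ p, ψ p * ((∑ a, ∑ b, (W a b p * (hh G (u a) (u b) p + rr G (u a) (u b) p
          + ip G (lap G (u a)) (u b) p) + ∑ i, pd i (W a b) p * vv G (u a) (u b) i p)) * dens G p)
      = ∑ a, ∑ b, ∑ i, ψ p *
        pd i (fun q => W a b q * (dens G q * vv G (u a) (u b) i q)) p := by
    intro p
    by_cases hp : p ∈ tsupport ψ
    · have hpU := hs hp
      rw [Finset.sum_mul, Finset.mul_sum]
      refine Finset.sum_congr rfl fun a _ => ?_
      rw [Finset.sum_mul, Finset.mul_sum]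
      refine Finset.sum_congr rfl fun b _ => ?_
      have e2 : ∀ i, pd i (fun q => W a b q * (dens G q * vv G (u a) (u b) i q)) p
          = dens G p * (pd i (W a b) p * vv G (u a) (u b) i p)
            + W a b p * pd i (fun q => dens G q * vv G (u a) (u b) i q) p := by
        intro i
        rw [pd_mul (diff_of_smooth (hW a b p hpU)) (diff_of_smooth
          ((smooth_dens hG hpU).mul (smooth_vv hG hpU (hu a p hpU) (hu b p hpU) i)))]
        ring
      rw [← Finset.mul_sum, Finset.sum_congr rfl fun i _ => e2 i, Finset.sum_add_distrib,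
        ← Finset.mul_sum, ← Finset.mul_sum, div_vv hU hG (hu a) (hu b) hpU]
      ring
    · have h1 : ψ p = 0 := image_eq_zero_of_notMem_tsupport hp
      rw [h1, zero_mul]
      symm
      refine Finset.sum_eq_zero fun a _ => Finset.sum_eq_zero fun b _ =>
        Finset.sum_eq_zero fun i _ => ?_
      rw [zero_mul]
  have e3 : ∀ p, (∑ a, ∑ b, W a b p * ∑ i, vv G (u a) (u b) i p * pd i ψ p) * dens G p
      = ∑ a, ∑ b, ∑ i, pd i ψ p * (W a b p * (dens G p * vv G (u a) (u b) i p)) := by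
    intro p
    rw [Finset.sum_mul]
    refine Finset.sum_congr rfl fun a _ => ?_
    rw [Finset.sum_mul]
    refine Finset.sum_congr rfl fun b _ => ?_
    rw [Finset.mul_sum, Finset.sum_mul]
    refine Finset.sum_congr rfl fun i _ => ?_
    ring
  rw [integral_congr_ae (Filter.Eventually.of_forall e1),
    integral_congr_ae (Filter.Eventually.of_forall e3), int3, int3]
  · rw [← Finset.sum_neg_distrib]
    refine Finset.sum_congr rfl fun a _ => ?_
    rw [← Finset.sum_neg_distrib]
    refine Finset.sum_congr rfl fun b _ => ?_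
    rw [← Finset.sum_neg_distrib]
    refine Finset.sum_congr rfl fun i _ => ?_
    exact ibp hU hψ hc hs (fun q hq => (hF a b i q hq).of_le (by exact_mod_cast le_top)) i
  · intro a b i
    exact integrable_pd_mul hψ hc hs (fun q hq => (hF a b i q hq).continuousAt) i
  · intro a b i
    exact integrable_mul hψ hc hs (fun q hq => (smooth_pd (hF a b i q hq) i).continuousAt)

end

end Pool.Agent.Helper73.HB
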